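import Pool.Agent.Helper12.BL.Cert
import Pool.Agent.Helper12.G.R_seed8.Y220.OG.LgtA

/-!
The determinant of the block matrix.
-/

set_option autoImplicit false

open Module FF Pool.Agent.W602.GT Pool.Agent.W603.LV

namespace Pool.Agent.Helper12.BL

theorem det_blockDiag {A β : Type} [CommRing A] [Fintype β] [DecidableEq β] {m : β → Type}
    [∀ q, Fintype (m q)] [∀ q, DecidableEq (m q)] (Q : ∀ q, Matrix (m q) (m q) A) :
    (Matrix.blockDiagonal' Q).det = ∏ q, (Q q).det := by
  classical
  obtain ⟨c, ⟨e⟩⟩ : ∃ c, Nonempty (β ≃ Fin c) := ⟨_, ⟨Fintype.equivFin β⟩⟩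
  have h1 : (Matrix.blockDiagonal' Q).BlockTriangular (fun r : (Σ q, m q) => e r.1) := by
    intro r c' h
    rw [Matrix.blockDiagonal'_apply]
    rw [dif_neg]
    intro h2
    have h3 : e c'.1 < e r.1 := h
    rw [h2] at h3
    exact lt_irrefl _ h3
  rw [h1.det_fintype]
  rw [← Equiv.prod_comp e]
  refine Finset.prod_congr rfl fun q _ => ?_
  let f : m q ≃ {r : (Σ q, m q) // e r.1 = e q} :=
    { toFun := fun t => ⟨⟨q, t⟩, rfl⟩
      invFun := fun r => cast (congrArg m (e.injective r.2)) r.1.2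
      left_inv := fun t => rfl
      right_inv := by
        rintro ⟨⟨q', t⟩, h⟩
        have h2 : q' = q := e.injective h
        subst h2
        rfl }
  rw [← Matrix.det_submatrix_equiv_self f]
  congr 1
  ext t t'
  simp [f, Matrix.toSquareBlock_def]

section

variable {A ι : Type} [CommRing A] [Fintype ι] {n B : ℕ} {d s : ι → ℕ}

/-- the determinant of the block matrix -/
def bdet (e : Fin n × Fin B ≃ (Σ q : (Σ i, Fin (s i)), Fin (d q.1)))
    (x : (Σ i, Fin (s i)) × Fin B → A) (J : ∀ i, Matrix (Fin (d i)) (Fin n) A) : A :=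
  ((big x J).submatrix e id).det

omit [Fintype ι] in
theorem bdet_right (e : Fin n × Fin B ≃ (Σ q : (Σ i, Fin (s i)), Fin (d q.1)))
    (x : (Σ i, Fin (s i)) × Fin B → A) (J : ∀ i, Matrix (Fin (d i)) (Fin n) A)
    (C : Matrix (Fin n) (Fin n) A) :
    bdet e x (fun i => J i * C) = bdet e x J * C.det ^ B := by
  classical
  have h1 : big x (fun i => J i * C) =
      big x J * (Matrix.kroneckerMap (· * ·) C (1 : Matrix (Fin B) (Fin B) A)) := by
    ext r c
    rw [Matrix.mul_apply, Fintype.sum_prod_type]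
    simp only [big, Matrix.of_apply, Matrix.kroneckerMap_apply, Matrix.mul_apply,
      Matrix.one_apply, mul_ite, mul_one, mul_zero]
    rw [Finset.mul_sum]
    refine Finset.sum_congr rfl fun l _ => ?_
    rw [Finset.sum_ite_eq' Finset.univ c.2]
    simp only [Finset.mem_univ, if_true]
    ring
  unfold bdet
  rw [h1]
  have h2 : (big x J * (Matrix.kroneckerMap (· * ·) C (1 : Matrix (Fin B) (Fin B) A))).submatrix
      e id = (big x J).submatrix e id *
        (Matrix.kroneckerMap (· * ·) C (1 : Matrix (Fin B) (Fin B) A)) := by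
    ext r c
    simp [Matrix.mul_apply]
  rw [h2, Matrix.det_mul]
  congr 1
  have h3 := Matrix.det_kronecker C (1 : Matrix (Fin B) (Fin B) A)
  rw [Matrix.det_one, one_pow, mul_one, Fintype.card_fin] at h3
  exact h3

theorem bdet_left (e : Fin n × Fin B ≃ (Σ q : (Σ i, Fin (s i)), Fin (d q.1)))
    (x : (Σ i, Fin (s i)) × Fin B → A) (W : ∀ i, Matrix (Fin (d i)) (Fin n) A)
    (Q : ∀ i, Matrix (Fin (d i)) (Fin (d i)) A) :
    bdet e x (fun i => Q i * W i) = (∏ i, (Q i).det ^ s i) * bdet e x W := by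
  classical
  have h1 : big x (fun i => Q i * W i) =
      Matrix.blockDiagonal' (fun q : (Σ i, Fin (s i)) => Q q.1) * big x W := by
    ext r c
    rw [Matrix.mul_apply, Fintype.sum_sigma]
    rw [Finset.sum_eq_single r.1]
    · simp only [big, Matrix.of_apply, Matrix.mul_apply, Matrix.blockDiagonal'_apply, dif_pos]
      rw [Finset.mul_sum]
      refine Finset.sum_congr rfl fun l _ => ?_
      rw [cast_eq]
      ring
    · intro q _ hq
      refine Finset.sum_eq_zero fun l _ => ?_
      rw [Matrix.blockDiagonal'_apply, dif_neg (Ne.symm hq), zero_mul]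
    · intro h
      exact absurd (Finset.mem_univ _) h
  unfold bdet
  rw [h1]
  have h2 : (Matrix.blockDiagonal' (fun q : (Σ i, Fin (s i)) => Q q.1) * big x W).submatrix
      e id = (Matrix.blockDiagonal' (fun q : (Σ i, Fin (s i)) => Q q.1)).submatrix e e *
        (big x W).submatrix e id := by
    ext r c
    rw [Matrix.mul_apply, Matrix.submatrix_apply, Matrix.mul_apply, ← Equiv.sum_comp e]
    rfl
  rw [h2, Matrix.det_mul, Matrix.det_submatrix_equiv_self, det_blockDiag, Fintype.prod_sigma]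
  congr 1
  refine Finset.prod_congr rfl fun i _ => ?_
  change ∏ _y : Fin (s i), (Q i).det = _
  rw [Finset.prod_const, Finset.card_univ, Fintype.card_fin]

end

section

variable {k K : Type} [Field k] [Field K] [Algebra k K]

theorem ge_det_rows (P : Place k K) {m : Type} [Fintype m] [DecidableEq m] (M : Matrix m m K)
    (c : m → ℤ) (h : ∀ i j, Ge P (c i) (M i j)) : Ge P (∑ i, c i) M.det := by
  classical
  rw [Matrix.det_apply']
  refine Ge.sum _ _ fun σ _ => ?_
  have h1 := (Ge.intCast (P := P) (Equiv.Perm.sign σ : ℤ)).mul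
    (Ge.prod Finset.univ (fun i => M (σ i) i) (fun i => c (σ i)) (fun i _ => h _ _))
  rw [zero_add, Equiv.sum_comp σ] at h1
  exact h1

/-- lower bound for the order of the determinant -/
theorem ge_bdet {ι : Type} [Fintype ι] {n B : ℕ} {d s : ι → ℕ} (P : Place k K)
    (e : Fin n × Fin B ≃ (Σ q : (Σ i, Fin (s i)), Fin (d q.1)))
    (x : (Σ i, Fin (s i)) × Fin B → k) (W : ∀ i, Matrix (Fin (d i)) (Fin n) K)
    (c : ∀ i, Fin (d i) → ℤ) (h : ∀ i r l, Ge P (c i r) (W i r l)) :
    Ge P (∑ i, (s i : ℤ) * ∑ r, c i r) (bdet e (fun q => algebraMap k K (x q)) W) := by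
  classical
  have h1 := ge_det_rows P ((big (fun q => algebraMap k K (x q)) W).submatrix e id)
    (fun p => c (e p).1.1 (e p).2) (fun p p' => by
      rw [Matrix.submatrix_apply]
      change Ge P _ (algebraMap k K _ * W _ _ _)
      have h2 := (Ge.const (P := P) (x ((e p).1, (id p').2))).mul
        (h (e p).1.1 (e p).2 (id p').1)
      rwa [zero_add] at h2)
  have h2 : ∑ p, c (e p).1.1 (e p).2 = ∑ i, (s i : ℤ) * ∑ r, c i r := by
    rw [Equiv.sum_comp e (fun q => c q.1.1 q.2), Fintype.sum_sigma, Fintype.sum_sigma]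
    refine Finset.sum_congr rfl fun i _ => ?_
    change ∑ _x : Fin (s i), ∑ r, c i r = _
    rw [Finset.sum_const, Finset.card_univ, Fintype.card_fin, nsmul_eq_mul]
  rw [h2] at h1
  exact h1

end

end Pool.Agent.Helper12.BL
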