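import Pool.Agent.Helper12.BL.Desc

/-!
The Brascamp-Lieb condition: an invertible block matrix.
-/

set_option autoImplicit false

open Module TensorProduct

namespace Pool.Agent.Helper12.BL

/-- The block matrix with the blocks `x (q, m) • J q.1`, where the `J i` are matrices with `d i`
rows and `n` columns and `q` runs over `s i` copies of `i`, and `m` over `B` copies. -/
def big {A ι : Type} [CommRing A] {n B : ℕ} {d s : ι → ℕ}
    (x : (Σ i, Fin (s i)) × Fin B → A) (J : ∀ i, Matrix (Fin (d i)) (Fin n) A) :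
    Matrix (Σ q : (Σ i, Fin (s i)), Fin (d q.1)) (Fin n × Fin B) A :=
  Matrix.of fun r c => x (r.1, c.2) * J r.1.1 r.2 c.1

theorem big_map {A A' ι : Type} [CommRing A] [CommRing A'] {n B : ℕ} {d s : ι → ℕ}
    (φ : A →+* A') (x : (Σ i, Fin (s i)) × Fin B → A) (J : ∀ i, Matrix (Fin (d i)) (Fin n) A) :
    (big x J).map φ = big (fun q => φ (x q)) (fun i => (J i).map φ) := by
  ext r c
  simp [big]

theorem big_mulVec {A ι : Type} [CommRing A] {n B : ℕ} {d s : ι → ℕ}
    (x : (Σ i, Fin (s i)) × Fin B → A) (J : ∀ i, Matrix (Fin (d i)) (Fin n) A)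
    (v : Fin n × Fin B → A) (i : ι) (j : Fin (s i)) (r : Fin (d i)) :
    (big x J).mulVec v ⟨⟨i, j⟩, r⟩ =
      (J i * (Matrix.of fun l m => v (l, m))).mulVec (fun m => x (⟨i, j⟩, m)) r := by
  simp only [Matrix.mulVec, dotProduct, big, Matrix.of_apply, Matrix.mul_apply,
    Fintype.sum_prod_type]
  rw [Finset.sum_comm]
  refine Finset.sum_congr rfl fun m _ => ?_
  rw [Finset.sum_mul]
  refine Finset.sum_congr rfl fun l _ => ?_
  ring

/-- the matrix is invertible for generic vectors -/
theorem big_inj {K E Ω ι : Type} [Field K] [Field E] [IsAlgClosed E] [Algebra K E] [Field Ω]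
    [Algebra E Ω] [Algebra K Ω] [IsScalarTower K E Ω] [Fintype ι] {n : ℕ} {d : ι → ℕ}
    (Bm : ∀ i, Matrix (Fin (d i)) (Fin n) K) {a : ι → ℕ} {b N : ℕ}
    (h1 : Semi a b (fun i => ((Bm i).map (algebraMap K E)).mulVecLin)) (hN : n * n ≤ N)
    {x : (Σ i, Fin (a i * N)) × Fin (b * N) → Ω} (hx : AlgebraicIndependent E x)
    (v : Fin n × Fin (b * N) → Ω)
    (hv : (big x fun i => (Bm i).map (algebraMap K Ω)).mulVec v = 0) : v = 0 := by
  classical
  have h3 := generic_zero hx n hN (Fin n → E) (fun i => Fin (d i) → E)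
    (fun i => ((Bm i).map (algebraMap K E)).mulVecLin)
    (by rw [Module.finrank_fintype_fun_eq_card, Fintype.card_fin]) h1
  obtain ⟨β, hβ⟩ : ∃ β, β = Algebra.TensorProduct.basis Ω (Pi.basisFun E (Fin n)) := ⟨_, rfl⟩
  have h4 := h3 (fun m => ∑ l, v (l, m) • β l) (by
    intro i j
    have h5 : ∀ m, ((((Bm i).map (algebraMap K E)).mulVecLin).baseChange Ω)
        (∑ l, v (l, m) • β l) = ∑ r, ((((Bm i).map (algebraMap K Ω)) *
          (Matrix.of fun l m => v (l, m)) : Matrix (Fin (d i)) (Fin (b * N)) Ω) r m) •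
          Algebra.TensorProduct.basis Ω (Pi.basisFun E (Fin (d i))) r := by
      intro m
      rw [map_sum]
      have h6 : ∀ l, ((((Bm i).map (algebraMap K E)).mulVecLin).baseChange Ω)
        (β l) = ∑ r, (algebraMap K Ω (Bm i r l)) •
          Algebra.TensorProduct.basis Ω (Pi.basisFun E (Fin (d i))) r := by
        intro l
        rw [hβ, Algebra.TensorProduct.basis_apply, LinearMap.baseChange_tmul,
          Pi.basisFun_apply, Matrix.mulVecLin_apply, Matrix.mulVec_single_one]
        have h7 : ((Bm i).map (algebraMap K E)).col l =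
            ∑ r, algebraMap K E (Bm i r l) • (Pi.basisFun E (Fin (d i)) r) := by
          funext r
          rw [Finset.sum_apply]
          simp [Pi.single_apply]
        rw [h7, TensorProduct.tmul_sum]
        refine Finset.sum_congr rfl fun r _ => ?_
        rw [Algebra.TensorProduct.basis_apply, ← TensorProduct.smul_tmul,
          TensorProduct.smul_tmul', IsScalarTower.algebraMap_apply K E Ω,
          Algebra.algebraMap_eq_smul_one (R := E) (A := Ω), smul_eq_mul, mul_one]
      simp only [map_smul, h6]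
      simp only [Finset.smul_sum, smul_smul]
      rw [Finset.sum_comm]
      refine Finset.sum_congr rfl fun r _ => ?_
      rw [← Finset.sum_smul, Matrix.mul_apply]
      congr 1
      refine Finset.sum_congr rfl fun l _ => ?_
      rw [Matrix.map_apply, Matrix.of_apply, mul_comm]
    simp only [h5]
    simp only [Finset.smul_sum, smul_smul]
    rw [Finset.sum_comm]
    refine Finset.sum_eq_zero fun r _ => ?_
    rw [← Finset.sum_smul]
    have h8 := congrFun hv ⟨⟨i, j⟩, r⟩
    rw [big_mulVec, Matrix.mulVec, dotProduct, Pi.zero_apply] at h8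
    have h9 : ∑ m, x (⟨i, j⟩, m) * ((((Bm i).map (algebraMap K Ω)) *
          (Matrix.of fun l m => v (l, m)) : Matrix (Fin (d i)) (Fin (b * N)) Ω) r m) = 0 := by
      rw [← h8]
      refine Finset.sum_congr rfl fun m _ => mul_comm _ _
    rw [h9, zero_smul])
  funext ⟨l, m⟩
  have h5 := congrFun h4 m
  have h6 := congrArg (fun t => β.repr t l) h5
  simp only [Pi.zero_apply, map_zero, Finsupp.coe_zero] at h6
  rw [β.repr_sum_self] at h6
  exact h6

theorem big_generic {K ι : Type} [Field K] [CharZero K] [Fintype ι] {n : ℕ} {d : ι → ℕ}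
    (Bm : ∀ i, Matrix (Fin (d i)) (Fin n) K) {a : ι → ℕ} {b N : ℕ}
    (h : Semi a b (fun i => (Bm i).mulVecLin)) (hN : n * n ≤ N) :
    ∃ (Ω : Type) (_ : Field Ω) (_ : Algebra K Ω) (x : (Σ i, Fin (a i * N)) × Fin (b * N) → Ω),
      ∀ v : Fin n × Fin (b * N) → Ω,
        (big x fun i => (Bm i).map (algebraMap K Ω)).mulVec v = 0 → v = 0 := by
  have h1 := semi_descent (E := AlgebraicClosure K) Bm a b h
  have hx : AlgebraicIndependent (AlgebraicClosure K)
      (fun s : (Σ i, Fin (a i * N)) × Fin (b * N) => algebraMap (MvPolynomial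
        ((Σ i, Fin (a i * N)) × Fin (b * N)) (AlgebraicClosure K))
        (FractionRing (MvPolynomial ((Σ i, Fin (a i * N)) × Fin (b * N)) (AlgebraicClosure K)))
        (MvPolynomial.X s)) := by
    have h2 := MvPolynomial.algebraicIndependent_X ((Σ i, Fin (a i * N)) × Fin (b * N))
      (AlgebraicClosure K)
    exact h2.map' (f := IsScalarTower.toAlgHom (AlgebraicClosure K) _ _)
      (IsFractionRing.injective _ _)
  exact ⟨_, inferInstance, inferInstance, _, fun v hv => big_inj Bm h1 hN hx v hv⟩

/-- **The Brascamp-Lieb condition gives an invertible block matrix**, with complex coefficients. -/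
theorem certificate {k K ι : Type} [Field k] [Infinite k] [Field K] [CharZero K] [Algebra k K]
    [Fintype ι] {n : ℕ} {d : ι → ℕ} (Bm : ∀ i, Matrix (Fin (d i)) (Fin n) K) {a : ι → ℕ}
    {b N : ℕ} (h : Semi a b (fun i => (Bm i).mulVecLin)) (hN : n * n ≤ N)
    (e : Fin n × Fin (b * N) ≃ (Σ q : (Σ i, Fin (a i * N)), Fin (d q.1))) :
    ∃ x : (Σ i, Fin (a i * N)) × Fin (b * N) → k,
      ((big (fun q => algebraMap k K (x q)) Bm).submatrix e id).det ≠ 0 := by
  classical
  obtain ⟨Ω, _, _, x, hx⟩ := big_generic Bm h hN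
  obtain ⟨p, hp⟩ : ∃ p : MvPolynomial ((Σ i, Fin (a i * N)) × Fin (b * N)) K,
    p = ((big (fun q => MvPolynomial.X q) (fun i => (Bm i).map MvPolynomial.C)).submatrix
      e id).det := ⟨_, rfl⟩
  have hev : ∀ (A : Type) [CommRing A] (φ : MvPolynomial ((Σ i, Fin (a i * N)) ×
      Fin (b * N)) K →+* A), φ p = ((big (fun q => φ (MvPolynomial.X q))
        (fun i => (Bm i).map (fun c => φ (MvPolynomial.C c)))).submatrix e id).det := by
    intro A _ φ
    rw [hp, RingHom.map_det]
    congr 1
    ext r c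
    simp [big]
  have hp0 : p ≠ 0 := by
    intro h0
    have h1 := hev Ω (MvPolynomial.aeval x).toRingHom
    rw [h0, map_zero] at h1
    have h2 := h1.symm
    rw [← Matrix.exists_mulVec_eq_zero_iff] at h2
    obtain ⟨v, hv0, hv⟩ := h2
    apply hv0
    refine hx v ?_
    funext r
    have h4 := congrFun hv (e.symm r)
    rw [Matrix.mulVec, dotProduct] at h4 ⊢
    rw [Pi.zero_apply] at h4 ⊢
    rw [← h4]
    refine Finset.sum_congr rfl fun c _ => ?_
    simp [big]
  by_contra hcon
  push Not at hcon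
  apply hp0
  refine MvPolynomial.funext_set (fun _ => Set.range (algebraMap k K)) (fun _ =>
    Set.infinite_range_of_injective (algebraMap k K).injective) fun y hy => ?_
  have hy' : ∀ q, ∃ c : k, algebraMap k K c = y q := fun q => hy q trivial
  choose c hc using hy'
  rw [map_zero, hev K (MvPolynomial.eval y), ← hcon c]
  congr 2
  ext r c'
  simp [big, hc]

end Pool.Agent.Helper12.BL
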