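import Pool.Agent.Helper12.BL.Piv

/-!
A parameter count: linear maps which send many generic vectors into given subspaces.
-/

set_option autoImplicit false

open Module

namespace Pool.Agent.Helper12.BL

section

variable {E Ω ι : Type} [Field E] [Field Ω] [Algebra E Ω] [Fintype ι] {n B : ℕ} {d s : ι → ℕ}

theorem count1 (Bm : ∀ i, Matrix (Fin (d i)) (Fin n) E)
    {x : (Σ i, Fin (s i)) × Fin B → Ω} (hx : AlgebraicIndependent E x)
    (z : Matrix (Fin n) (Fin B) Ω) (l0 : Fin n) (m0 : Fin B) (hz1 : z l0 m0 = 1)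
    (hz : ∀ i j, (((Bm i).map (algebraMap E Ω)) * z).mulVec (fun m => x (⟨i, j⟩, m)) = 0) :
    ∑ i, s i * (((Bm i).map (algebraMap E Ω)) * z).rank + 1 ≤
      z.rank * B + (n - z.rank) * z.rank := by
  classical
  have h0 : LinearIndepOn Ω (fun l => z l) (({l0} : Finset (Fin n)) : Set (Fin n)) := by
    rw [Finset.coe_singleton, linearIndepOn_singleton_iff]
    intro h
    have := congrFun h m0
    rw [hz1] at this
    exact one_ne_zero this
  obtain ⟨R, hR0, -, hR2, hR3⟩ := exists_pivot (K := Ω) (fun l => z l) {l0} h0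
  have hl0 : l0 ∈ R := hR0 (Finset.mem_singleton_self l0)
  have hRr : R.card = z.rank := by
    rw [hR3, Matrix.rank_eq_finrank_span_row]
    rfl
  choose c hc using hR2
  obtain ⟨S1, hS1⟩ : ∃ S1 : Finset Ω, S1 = ((R ×ˢ (Finset.univ : Finset (Fin B))).erase
    (l0, m0)).image (fun p => z p.1 p.2) := ⟨_, rfl⟩
  obtain ⟨S2, hS2⟩ : ∃ S2 : Finset Ω, S2 = (Rᶜ ×ˢ R).image (fun p => c p.1 p.2) := ⟨_, rfl⟩
  have hS1c : S1.card + 1 ≤ z.rank * B := by
    have h1 : S1.card ≤ ((R ×ˢ (Finset.univ : Finset (Fin B))).erase (l0, m0)).card := by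
      rw [hS1]
      exact Finset.card_image_le
    have hm : (l0, m0) ∈ R ×ˢ (Finset.univ : Finset (Fin B)) := by simp [hl0]
    have h2 := Finset.card_erase_add_one hm
    rw [Finset.card_product, hRr, Finset.card_univ, Fintype.card_fin] at h2
    omega
  have hS2c : S2.card ≤ (n - z.rank) * z.rank := by
    rw [hS2]
    refine Finset.card_image_le.trans ?_
    rw [Finset.card_product, Finset.card_compl, Fintype.card_fin, hRr]
  have hent : ∀ l m, z l m ∈ IntermediateField.adjoin E ((S1 ∪ S2 : Finset Ω) : Set Ω) := by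
    have hR : ∀ r ∈ R, ∀ m, z r m ∈
        IntermediateField.adjoin E ((S1 ∪ S2 : Finset Ω) : Set Ω) := by
      intro r hr m
      by_cases h : (r, m) = (l0, m0)
      · have h1 : r = l0 := congrArg Prod.fst h
        have h2 : m = m0 := congrArg Prod.snd h
        rw [h1, h2, hz1]
        exact one_mem _
      · refine IntermediateField.subset_adjoin _ _ ?_
        rw [Finset.mem_coe, Finset.mem_union]
        left
        rw [hS1, Finset.mem_image]
        exact ⟨(r, m), by simp [h, hr], rfl⟩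
    intro l m
    by_cases hl : l ∈ R
    · exact hR l hl m
    · have h1 := congrFun (hc l) m
      rw [← h1, Finset.sum_apply]
      refine sum_mem fun r hr => ?_
      rw [Pi.smul_apply, smul_eq_mul]
      refine mul_mem (IntermediateField.subset_adjoin _ _ ?_) (hR r hr m)
      rw [Finset.mem_coe, Finset.mem_union]
      right
      rw [hS2, Finset.mem_image]
      exact ⟨(l, r), by simp [hl, hr], rfl⟩
  obtain ⟨L, hL⟩ : ∃ L : IntermediateField E Ω,
    L = IntermediateField.adjoin E ((S1 ∪ S2 : Finset Ω) : Set Ω) := ⟨_, rfl⟩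
  rw [← hL] at hent
  have hentQ : ∀ i r m, (((Bm i).map (algebraMap E Ω)) * z) r m ∈ L := by
    intro i r m
    rw [Matrix.mul_apply]
    refine sum_mem fun l _ => mul_mem ?_ (hent l m)
    rw [Matrix.map_apply]
    exact L.algebraMap_mem _
  have hpiv : ∀ i, ∃ P : Finset (Fin B), P.card = (((Bm i).map (algebraMap E Ω)) * z).rank ∧
      ∀ y : Fin B → Ω, (((Bm i).map (algebraMap E Ω)) * z).mulVec y = 0 → ∀ m ∈ P,
        ∃ e : Fin B → L, y m = ∑ m' ∈ Pᶜ, (e m' : Ω) * y m' := by
    intro i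
    obtain ⟨Q, hQ⟩ : ∃ Q : Matrix (Fin (d i)) (Fin B) L,
      Q = Matrix.of fun r m => ⟨_, hentQ i r m⟩ := ⟨_, rfl⟩
    have hQm : Q.map (algebraMap L Ω) = ((Bm i).map (algebraMap E Ω)) * z := by
      ext r m
      rw [Matrix.map_apply, hQ]
      rfl
    obtain ⟨P, hP1, hP2⟩ := pivot (Ω := Ω) Q
    rw [hQm] at hP1 hP2
    exact ⟨P, hP1, hP2⟩
  choose P hP1 hP2 using hpiv
  obtain ⟨S3, hS3⟩ : ∃ S3 : Finset Ω, S3 = (Finset.univ : Finset (Σ i, Fin (s i))).biUnion
    (fun q => (P q.1)ᶜ.image (fun m => x (q, m))) := ⟨_, rfl⟩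
  have hS3c : S3.card ≤ ∑ i, s i * (B - (((Bm i).map (algebraMap E Ω)) * z).rank) := by
    rw [hS3]
    refine Finset.card_biUnion_le.trans ?_
    rw [Fintype.sum_sigma]
    refine Finset.sum_le_sum fun i _ => ?_
    have h1 : ∀ j : Fin (s i), ((P (⟨i, j⟩ : Σ i, Fin (s i)).1)ᶜ.image
        (fun m => x (⟨i, j⟩, m))).card ≤ B - (((Bm i).map (algebraMap E Ω)) * z).rank := by
      intro j
      refine Finset.card_image_le.trans ?_
      rw [Finset.card_compl, Fintype.card_fin, hP1]
    refine (Finset.sum_le_sum fun j _ => h1 j).trans ?_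
    rw [Finset.sum_const, Finset.card_univ, Fintype.card_fin, smul_eq_mul]
  have hall : ∀ q, x q ∈ IntermediateField.adjoin E (((S1 ∪ S2) ∪ S3 : Finset Ω) : Set Ω) := by
    rintro ⟨⟨i, j⟩, m⟩
    have hout : ∀ m, m ∉ P i → x (⟨i, j⟩, m) ∈
        IntermediateField.adjoin E (((S1 ∪ S2) ∪ S3 : Finset Ω) : Set Ω) := by
      intro m hm
      refine IntermediateField.subset_adjoin _ _ ?_
      rw [Finset.mem_coe, Finset.mem_union]
      right
      rw [hS3, Finset.mem_biUnion]
      exact ⟨⟨i, j⟩, Finset.mem_univ _, Finset.mem_image.2 ⟨m, by simpa using hm, rfl⟩⟩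
    by_cases hm : m ∈ P i
    · obtain ⟨e, he⟩ := hP2 i _ (hz i j) m hm
      rw [he]
      refine sum_mem fun m' hm' => mul_mem ?_ (hout m' (by simpa using hm'))
      have h1 : L ≤ IntermediateField.adjoin E (((S1 ∪ S2) ∪ S3 : Finset Ω) : Set Ω) := by
        rw [hL]
        refine IntermediateField.adjoin.mono _ _ _ ?_
        intro y hy
        rw [Finset.mem_coe] at hy ⊢
        exact Finset.mem_union_left _ hy
      exact h1 (e m').2
    · exact hout m hm
  have hcard := card_le hx _ hall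
  have h1 : Fintype.card ((Σ i, Fin (s i)) × Fin B) = ∑ i, s i * B := by
    rw [Fintype.card_prod, Fintype.card_sigma, Finset.sum_mul, Fintype.card_fin]
    simp
  rw [h1] at hcard
  have h2 : ((S1 ∪ S2) ∪ S3).card ≤ S1.card + S2.card + S3.card :=
    (Finset.card_union_le _ _).trans (Nat.add_le_add_right (Finset.card_union_le _ _) _)
  have h3 : ∑ i, s i * B = ∑ i, s i * (((Bm i).map (algebraMap E Ω)) * z).rank +
      ∑ i, s i * (B - (((Bm i).map (algebraMap E Ω)) * z).rank) := by
    rw [← Finset.sum_add_distrib]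
    refine Finset.sum_congr rfl fun i _ => ?_
    rw [← mul_add]
    congr 1
    have h4 : (((Bm i).map (algebraMap E Ω)) * z).rank ≤ B := by
      have := Matrix.rank_le_card_width (((Bm i).map (algebraMap E Ω)) * z)
      rwa [Fintype.card_fin] at this
    omega
  omega

theorem count (Bm : ∀ i, Matrix (Fin (d i)) (Fin n) E)
    {x : (Σ i, Fin (s i)) × Fin B → Ω} (hx : AlgebraicIndependent E x)
    (z : Matrix (Fin n) (Fin B) Ω) (hz0 : z ≠ 0)
    (hz : ∀ i j, (((Bm i).map (algebraMap E Ω)) * z).mulVec (fun m => x (⟨i, j⟩, m)) = 0) :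
    ∑ i, s i * (((Bm i).map (algebraMap E Ω)) * z).rank + 1 ≤
      z.rank * B + (n - z.rank) * z.rank := by
  classical
  obtain ⟨l0, m0, hne⟩ : ∃ l0 m0, z l0 m0 ≠ 0 := by
    by_contra h
    push Not at h
    exact hz0 (by ext l m; exact h l m)
  have hu : IsUnit (z l0 m0)⁻¹ := (inv_ne_zero hne).isUnit
  have hrk : ∀ {p q : ℕ} (A : Matrix (Fin p) (Fin q) Ω), ((z l0 m0)⁻¹ • A).rank = A.rank := by
    intro p q A
    exact Matrix.rank_smul_of_mem_nonZeroDivisors A
      (mem_nonZeroDivisors_of_ne_zero (inv_ne_zero hne))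
  have key := count1 Bm hx ((z l0 m0)⁻¹ • z) l0 m0 (by
    rw [Matrix.smul_apply, smul_eq_mul, inv_mul_cancel₀ hne]) (by
    intro i j
    rw [Matrix.mul_smul, Matrix.smul_mulVec, hz, smul_zero])
  rw [hrk] at key
  simp only [Matrix.mul_smul, hrk] at key
  exact key

end

end Pool.Agent.Helper12.BL
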