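import Pool.Agent.Helper12.BL.Jh

/-!
Semistability descends: it is enough to test subspaces over the ground field.
-/

set_option autoImplicit false

open Module

namespace Pool.Agent.Helper12.BL

section

variable {K E : Type} [Field K] [Field E] [Algebra K E] {n : ℕ}

/-- extension of scalars of a subspace of the coordinate space -/
def ext (E : Type) [Field E] [Algebra K E] (S : Submodule K (Fin n → K)) :
    Submodule E (Fin n → E) :=
  Submodule.span E ((fun v : Fin n → K => (algebraMap K E) ∘ v) '' (S : Set (Fin n → K)))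

theorem finrank_ext (S : Submodule K (Fin n → K)) : finrank E (ext E S) = finrank K S := by
  classical
  obtain ⟨b⟩ : Nonempty (Basis (Fin (finrank K S)) K S) := ⟨finBasis K S⟩
  have hli : LinearIndependent K (fun k => (b k : Fin n → K)) :=
    b.linearIndependent.map' (Submodule.subtype _) (Submodule.ker_subtype _)
  have hli' : LinearIndependent E (fun k => algebraMap K E ∘ (b k : Fin n → K)) :=
    linearIndependent_algebraMap_comp_iff.2 hli
  have h1 : ext E S = Submodule.span E (Set.range fun k => algebraMap K E ∘ (b k : Fin n → K)) := by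
    apply le_antisymm
    · unfold ext
      rw [Submodule.span_le]
      rintro _ ⟨v, hv, rfl⟩
      have h2 := b.sum_repr ⟨v, hv⟩
      have h3 := congrArg (fun w : S => algebraMap K E ∘ (w : Fin n → K)) h2
      dsimp only at h3
      change algebraMap K E ∘ v ∈ _
      rw [← h3]
      have h4 : (algebraMap K E ∘ ((∑ i, b.repr ⟨v, hv⟩ i • b i : S) : Fin n → K)) =
          ∑ i, algebraMap K E (b.repr ⟨v, hv⟩ i) • (algebraMap K E ∘ (b i : Fin n → K)) := by
        funext l
        rw [Function.comp_apply, Submodule.coe_sum, Finset.sum_apply, map_sum, Finset.sum_apply]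
        refine Finset.sum_congr rfl fun i _ => ?_
        rw [Submodule.coe_smul, Pi.smul_apply, Pi.smul_apply, smul_eq_mul, smul_eq_mul, map_mul]
        rfl
      rw [h4]
      exact Submodule.sum_mem _ fun i _ => Submodule.smul_mem _ _
        (Submodule.subset_span ⟨i, rfl⟩)
    · refine Submodule.span_mono ?_
      rintro _ ⟨k, rfl⟩
      exact ⟨b k, (b k).2, rfl⟩
  rw [h1, finrank_span_eq_card hli', Fintype.card_fin]

theorem map_ext {d : ℕ} (M : Matrix (Fin d) (Fin n) K) (S : Submodule K (Fin n → K)) :
    (ext E S).map (M.map (algebraMap K E)).mulVecLin = ext E (S.map M.mulVecLin) := by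
  unfold ext
  rw [Submodule.map_span]
  congr 1
  ext w
  constructor
  · rintro ⟨_, ⟨v, hv, rfl⟩, rfl⟩
    refine ⟨M.mulVec v, ⟨v, hv, rfl⟩, ?_⟩
    funext r
    simp only [Function.comp_apply, Matrix.mulVecLin_apply, Matrix.mulVec, dotProduct, map_sum,
      map_mul, Matrix.map_apply]
  · rintro ⟨_, ⟨v, hv, rfl⟩, rfl⟩
    refine ⟨_, ⟨v, hv, rfl⟩, ?_⟩
    funext r
    simp only [Function.comp_apply, Matrix.mulVecLin_apply, Matrix.mulVec, dotProduct, map_sum,
      map_mul, Matrix.map_apply]

/-- the image of a subspace under a Galois automorphism -/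
def tw (σ : E ≃ₐ[K] E) (U : Submodule E (Fin n → E)) : Submodule E (Fin n → E) where
  carrier := {v | (fun i => σ (v i)) ∈ U}
  add_mem' := by
    intro v w hv hw
    have h := U.add_mem hv hw
    change (fun i => σ ((v + w) i)) ∈ U
    convert h using 1
    funext i
    simp
  zero_mem' := by
    change (fun i => σ ((0 : Fin n → E) i)) ∈ U
    have h : (fun i => σ ((0 : Fin n → E) i)) = 0 := by
      funext i
      simp
    rw [h]
    exact U.zero_mem
  smul_mem' := by
    intro c v hv
    have h := U.smul_mem (σ c) hv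
    change (fun i => σ ((c • v) i)) ∈ U
    convert h using 1
    funext i
    simp

theorem mem_tw {σ : E ≃ₐ[K] E} {U : Submodule E (Fin n → E)} {v : Fin n → E} :
    v ∈ tw σ U ↔ (fun i => σ (v i)) ∈ U := Iff.rfl

theorem finrank_tw (σ : E ≃ₐ[K] E) (U : Submodule E (Fin n → E)) :
    finrank E (tw σ U) = finrank E U := by
  let j : tw σ U ≃+ U :=
    { toFun := fun v => ⟨fun i => σ ((v : Fin n → E) i), v.2⟩
      invFun := fun v => ⟨fun i => σ.symm ((v : Fin n → E) i), by
        rw [mem_tw]
        have h : (fun i => σ (σ.symm ((v : Fin n → E) i))) = v := by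
          funext i
          simp
        rw [h]
        exact v.2⟩
      left_inv := by
        intro v
        ext i
        simp
      right_inv := by
        intro v
        ext i
        simp
      map_add' := by
        intro v w
        ext i
        simp }
  have h := rank_eq_of_equiv_equiv (R := E) (R' := E) (M := tw σ U) (M₁ := U) σ j σ.bijective (by
    intro r m
    ext i
    simp [j])
  exact congrArg Cardinal.toNat h

theorem map_tw {d : ℕ} (M : Matrix (Fin d) (Fin n) K) (σ : E ≃ₐ[K] E)
    (U : Submodule E (Fin n → E)) :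
    (tw σ U).map (M.map (algebraMap K E)).mulVecLin =
      tw σ (U.map (M.map (algebraMap K E)).mulVecLin) := by
  have key : ∀ (τ : E ≃ₐ[K] E) (v : Fin n → E),
      (fun r => τ ((M.map (algebraMap K E)).mulVec v r)) =
        (M.map (algebraMap K E)).mulVec (fun i => τ (v i)) := by
    intro τ v
    funext r
    simp only [Matrix.mulVec, dotProduct, map_sum, map_mul, Matrix.map_apply, AlgEquiv.commutes]
  ext w
  constructor
  · rintro ⟨v, hv, rfl⟩
    rw [mem_tw]
    refine ⟨fun i => σ (v i), hv, ?_⟩
    exact (key σ v).symm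
  · intro hw
    rw [mem_tw] at hw
    obtain ⟨u, hu, hu2⟩ := hw
    refine ⟨fun i => σ.symm (u i), ?_, ?_⟩
    · change (fun i => σ (σ.symm (u i))) ∈ U
      have h : (fun i => σ (σ.symm (u i))) = u := by
        funext i
        simp
      rw [h]
      exact hu
    · have h1 := key σ.symm u
      rw [Matrix.mulVecLin_apply] at hu2 ⊢
      rw [← h1, hu2]
      funext r
      simp

/-- the rational points of a subspace -/
def pts (U : Submodule E (Fin n → E)) : Submodule K (Fin n → K) where
  carrier := {v | algebraMap K E ∘ v ∈ U}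
  add_mem' := by
    intro v w hv hw
    have h := U.add_mem hv hw
    change algebraMap K E ∘ (v + w) ∈ U
    convert h using 1
    funext i
    simp
  zero_mem' := by
    change algebraMap K E ∘ (0 : Fin n → K) ∈ U
    have h : (algebraMap K E ∘ (0 : Fin n → K)) = 0 := by
      funext i
      simp
    rw [h]
    exact U.zero_mem
  smul_mem' := by
    intro c v hv
    have h := U.smul_mem (algebraMap K E c) hv
    change algebraMap K E ∘ (c • v) ∈ U
    convert h using 1
    funext i
    simp

theorem ext_pts_le (U : Submodule E (Fin n → E)) : ext E (pts (K := K) U) ≤ U := by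
  unfold ext
  rw [Submodule.span_le]
  rintro _ ⟨v, hv, rfl⟩
  exact hv

/-- **Galois descent for subspaces of the coordinate space.** -/
theorem descent [IsGalois K E] : ∀ (m : ℕ) (U : Submodule E (Fin n → E)), finrank E U ≤ m →
    (∀ σ : E ≃ₐ[K] E, U ≤ tw σ U) → U ≤ ext E (pts (K := K) U) := by
  classical
  intro m
  induction m with
  | zero =>
    intro U hU _
    have h1 : U = ⊥ := by
      rw [← Submodule.finrank_eq_zero (R := E)]
      omega
    rw [h1]
    exact bot_le
  | succ m ih =>
    intro U hU hσ
    by_cases hbot : U = ⊥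
    · rw [hbot]
      exact bot_le
    -- a vector of minimal support
    obtain ⟨v0, hv0, hv0n⟩ := Submodule.exists_mem_ne_zero_of_ne_bot hbot
    obtain ⟨v, ⟨hvU, hvn⟩, hmin⟩ : ∃ v : Fin n → E, (v ∈ U ∧ v ≠ 0) ∧ ∀ w : Fin n → E,
        w ∈ U → w ≠ 0 → (Finset.univ.filter fun i => v i ≠ 0).card ≤
          (Finset.univ.filter fun i => w i ≠ 0).card := by
      have hex : ∃ k, ∃ v : Fin n → E, (v ∈ U ∧ v ≠ 0) ∧
          (Finset.univ.filter fun i => v i ≠ 0).card = k := ⟨_, v0, ⟨hv0, hv0n⟩, rfl⟩
      obtain ⟨v, hv, hvk⟩ := Nat.find_spec hex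
      refine ⟨v, hv, fun w hw hw0 => ?_⟩
      rw [hvk]
      exact Nat.find_min' hex ⟨w, ⟨hw, hw0⟩, rfl⟩
    obtain ⟨i0, hi0⟩ : ∃ i0, v i0 ≠ 0 := by
      by_contra h
      push Not at h
      exact hvn (funext h)
    obtain ⟨w, hw⟩ : ∃ w, w = (v i0)⁻¹ • v := ⟨_, rfl⟩
    have hwU : w ∈ U := by
      rw [hw]
      exact U.smul_mem _ hvU
    have hwi : w i0 = 1 := by
      rw [hw, Pi.smul_apply, smul_eq_mul, inv_mul_cancel₀ hi0]
    have hws : ∀ i, w i ≠ 0 ↔ v i ≠ 0 := by
      intro i
      rw [hw, Pi.smul_apply, smul_eq_mul]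
      simp [hi0]
    have hfix : ∀ σ : E ≃ₐ[K] E, (fun i => σ (w i)) = w := by
      intro σ
      by_contra hne
      have hd : (fun i => σ (w i)) - w ∈ U := U.sub_mem (hσ σ hwU) hwU
      have hd0 : (fun i => σ (w i)) - w ≠ 0 := sub_ne_zero.2 hne
      have h1 := hmin _ hd hd0
      have h2 : (Finset.univ.filter fun i => ((fun i => σ (w i)) - w) i ≠ 0) ⊂
          (Finset.univ.filter fun i => v i ≠ 0) := by
        rw [Finset.ssubset_iff_of_subset]
        · refine ⟨i0, by simp [hi0], ?_⟩
          simp [hwi]
        · intro i hi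
          rw [Finset.mem_filter] at hi ⊢
          refine ⟨Finset.mem_univ _, fun h0 => hi.2 ?_⟩
          have h3 : w i = 0 := by
            by_contra h4
            exact (hws i).1 h4 h0
          rw [Pi.sub_apply, h3, map_zero, sub_zero]
      exact absurd (Finset.card_lt_card h2) (not_lt.2 h1)
    have hrat : ∀ i, ∃ c : K, algebraMap K E c = w i := by
      intro i
      have h1 := (InfiniteGalois.mem_range_algebraMap_iff_fixed (k := K) (w i)).2
        fun σ => congrFun (hfix σ) i
      exact h1
    choose c hc using hrat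
    have hcw : algebraMap K E ∘ c = w := funext hc
    have hwp : w ∈ ext E (pts (K := K) U) := by
      refine Submodule.subset_span ⟨c, ?_, hcw⟩
      change algebraMap K E ∘ c ∈ U
      rw [hcw]
      exact hwU
    -- the complement
    obtain ⟨U', hU'⟩ : ∃ U' : Submodule E (Fin n → E), U' = U ⊓ LinearMap.ker
      (LinearMap.proj i0 : (Fin n → E) →ₗ[E] E) := ⟨_, rfl⟩
    have hmem : ∀ t, t ∈ U' ↔ t ∈ U ∧ t i0 = 0 := by
      intro t
      rw [hU', Submodule.mem_inf, LinearMap.mem_ker, LinearMap.proj_apply]
    have hlt : finrank E U' < finrank E U := by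
      apply Submodule.finrank_lt_finrank_of_lt
      rw [lt_iff_le_and_ne]
      refine ⟨fun t ht => ((hmem t).1 ht).1, fun h => ?_⟩
      have h1 : w ∈ U' := by
        rw [h]
        exact hwU
      have h2 := ((hmem w).1 h1).2
      rw [hwi] at h2
      exact one_ne_zero h2
    have hσ' : ∀ σ : E ≃ₐ[K] E, U' ≤ tw σ U' := by
      intro σ t ht
      rw [hmem] at ht
      rw [mem_tw, hmem]
      exact ⟨hσ σ ht.1, by rw [ht.2, map_zero]⟩
    have h3 := ih U' (by omega) hσ'
    have h4 : ext E (pts (K := K) U') ≤ ext E (pts (K := K) U) := by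
      refine Submodule.span_mono (Set.image_mono ?_)
      intro t ht
      exact ((hmem _).1 ht).1
    intro t ht
    have h5 : t - t i0 • w ∈ U' := by
      rw [hmem]
      refine ⟨U.sub_mem ht (U.smul_mem _ hwU), ?_⟩
      rw [Pi.sub_apply, Pi.smul_apply, hwi, smul_eq_mul, mul_one, sub_self]
    have h6 := (ext E (pts (K := K) U)).add_mem (h4 (h3 h5))
      ((ext E (pts (K := K) U)).smul_mem (t i0) hwp)
    rwa [sub_add_cancel] at h6

end

/-- **Descent of semistability.** -/
theorem semi_descent {K E ι : Type} [Field K] [Field E] [Algebra K E] [IsGalois K E] [Fintype ι]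
    {n : ℕ} {d : ι → ℕ} (Bm : ∀ i, Matrix (Fin (d i)) (Fin n) K) (a : ι → ℕ) (b : ℕ)
    (h : Semi a b (fun i => (Bm i).mulVecLin)) :
    Semi a b (fun i => ((Bm i).map (algebraMap K E)).mulVecLin) := by
  classical
  refine ⟨?_, ?_⟩
  swap
  · have h1 := h.2
    have e1 : ext E (⊤ : Submodule K (Fin n → K)) = ⊤ := by
      apply Submodule.eq_top_of_finrank_eq
      rw [finrank_ext, finrank_top, Module.finrank_fintype_fun_eq_card,
        Module.finrank_fintype_fun_eq_card]
    rw [Module.finrank_fintype_fun_eq_card] at h1 ⊢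
    rw [h1]
    refine Finset.sum_congr rfl fun i _ => ?_
    rw [← e1, map_ext, finrank_ext]
  · by_contra hcon
    push Not at hcon
    obtain ⟨U0, hU0⟩ := hcon
    obtain ⟨ψ, hψ⟩ : ∃ ψ : Submodule E (Fin n → E) → ℤ, ∀ U, ψ U = b * finrank E U -
      ∑ i, (a i : ℤ) * finrank E (U.map ((Bm i).map (algebraMap K E)).mulVecLin) :=
      ⟨_, fun _ => rfl⟩
    have hfr : ∀ U : Submodule E (Fin n → E), finrank E U ≤ n := by
      intro U
      have := Submodule.finrank_le U
      rwa [Module.finrank_fintype_fun_eq_card, Fintype.card_fin] at this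
    have hψb : ∀ U, ψ U ≤ b * n := by
      intro U
      rw [hψ]
      have h1 : (0 : ℤ) ≤ ∑ i, (a i : ℤ) *
          finrank E (U.map ((Bm i).map (algebraMap K E)).mulVecLin) :=
        Finset.sum_nonneg fun i _ => by positivity
      have h2 : (b : ℤ) * finrank E U ≤ b * n :=
        mul_le_mul_of_nonneg_left (by exact_mod_cast hfr U) (by positivity)
      linarith
    have hsup : ∀ U U', ψ U + ψ U' ≤ ψ (U ⊔ U') + ψ (U ⊓ U') := by
      intro U U'
      simp only [hψ]
      have h1 : (finrank E (U ⊔ U' : Submodule E (Fin n → E)) : ℤ) +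
          finrank E (U ⊓ U' : Submodule E (Fin n → E)) = finrank E U + finrank E U' := by
        exact_mod_cast Submodule.finrank_sup_add_finrank_inf_eq U U'
      have h2 : ∀ i, (finrank E ((U ⊔ U').map ((Bm i).map (algebraMap K E)).mulVecLin) : ℤ) +
          finrank E ((U ⊓ U').map ((Bm i).map (algebraMap K E)).mulVecLin) ≤
          finrank E (U.map ((Bm i).map (algebraMap K E)).mulVecLin) +
          finrank E (U'.map ((Bm i).map (algebraMap K E)).mulVecLin) := by
        intro i
        have h3 := Submodule.finrank_sup_add_finrank_inf_eq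
          (U.map ((Bm i).map (algebraMap K E)).mulVecLin)
          (U'.map ((Bm i).map (algebraMap K E)).mulVecLin)
        rw [← Submodule.map_sup] at h3
        have h4 : finrank E ((U ⊓ U').map ((Bm i).map (algebraMap K E)).mulVecLin) ≤
            finrank E (U.map ((Bm i).map (algebraMap K E)).mulVecLin ⊓
              U'.map ((Bm i).map (algebraMap K E)).mulVecLin :
                Submodule E (Fin (d i) → E)) :=
          Submodule.finrank_mono (Submodule.map_inf_le _)
        have h5 : finrank E ((U ⊔ U').map ((Bm i).map (algebraMap K E)).mulVecLin) +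
          finrank E ((U ⊓ U').map ((Bm i).map (algebraMap K E)).mulVecLin) ≤
          finrank E (U.map ((Bm i).map (algebraMap K E)).mulVecLin) +
          finrank E (U'.map ((Bm i).map (algebraMap K E)).mulVecLin) := by omega
        exact_mod_cast h5
      have h6 : ∑ i, ((a i : ℤ) *
          finrank E ((U ⊔ U').map ((Bm i).map (algebraMap K E)).mulVecLin)) +
          ∑ i, ((a i : ℤ) * finrank E ((U ⊓ U').map ((Bm i).map (algebraMap K E)).mulVecLin)) ≤
          ∑ i, ((a i : ℤ) * finrank E (U.map ((Bm i).map (algebraMap K E)).mulVecLin)) +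
          ∑ i, ((a i : ℤ) * finrank E (U'.map ((Bm i).map (algebraMap K E)).mulVecLin)) := by
        rw [← Finset.sum_add_distrib, ← Finset.sum_add_distrib]
        refine Finset.sum_le_sum fun i _ => ?_
        rw [← mul_add, ← mul_add]
        exact mul_le_mul_of_nonneg_left (h2 i) (by positivity)
      have h7 : (b : ℤ) * finrank E (U ⊔ U' : Submodule E (Fin n → E)) +
          b * finrank E (U ⊓ U' : Submodule E (Fin n → E)) =
          b * finrank E U + b * finrank E U' := by
        rw [← mul_add, h1, mul_add]
      linarith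
    obtain ⟨f, hf⟩ : ∃ f : Submodule E (Fin n → E) → ℤ, ∀ U, f U = ψ U * (n + 1) + finrank E U :=
      ⟨_, fun _ => rfl⟩
    obtain ⟨M, ⟨U, hUM⟩, hmax⟩ := Int.exists_greatest_of_bdd (P := fun v => ∃ U, f U = v)
      ⟨b * n * (n + 1) + n, by
        rintro _ ⟨U, rfl⟩
        rw [hf]
        have h1 := hψb U
        have h2 : (finrank E U : ℤ) ≤ n := by exact_mod_cast hfr U
        have h3 : ψ U * (n + 1) ≤ b * n * (n + 1) :=
          mul_le_mul_of_nonneg_right h1 (by positivity)
        linarith⟩ ⟨_, ⊥, rfl⟩
    have hmax' : ∀ U', f U' ≤ f U := by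
      intro U'
      rw [hUM]
      exact hmax _ ⟨U', rfl⟩
    have hlex : ∀ U', f U' = f U → ψ U' = ψ U ∧ finrank E U' = finrank E U := by
      intro U' h1
      rw [hf, hf] at h1
      have h2 : (finrank E U : ℤ) ≤ n := by exact_mod_cast hfr U
      have h3 : (finrank E U' : ℤ) ≤ n := by exact_mod_cast hfr U'
      have h4 : (0 : ℤ) ≤ finrank E U := by positivity
      have h5 : (0 : ℤ) ≤ finrank E U' := by positivity
      have h6 : ψ U' = ψ U := by
        by_contra hne
        rcases lt_or_gt_of_ne hne with h7 | h7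
        · nlinarith
        · nlinarith
      refine ⟨h6, ?_⟩
      rw [h6] at h1
      have h7 : (finrank E U' : ℤ) = finrank E U := by linarith
      exact_mod_cast h7
    have huniq : ∀ U', f U' = f U → U' = U := by
      intro U' h1
      have h2 : f U + f U' ≤ f (U ⊔ U') + f (U ⊓ U') := by
        have h3 := hsup U U'
        have h4 : (finrank E (U ⊔ U' : Submodule E (Fin n → E)) : ℤ) +
          finrank E (U ⊓ U' : Submodule E (Fin n → E)) = finrank E U + finrank E U' := by
          exact_mod_cast Submodule.finrank_sup_add_finrank_inf_eq U U'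
        simp only [hf]
        nlinarith
      have h3 : f (U ⊔ U') = f U := by
        have h4 := hmax' (U ⊔ U')
        have h5 := hmax' (U ⊓ U')
        linarith
      have h4 := (hlex _ h3).2
      have h5 : U = U ⊔ U' := Submodule.eq_of_le_of_finrank_eq le_sup_left h4.symm
      have h6 : U' ≤ U := by
        rw [h5]
        exact le_sup_right
      exact Submodule.eq_of_le_of_finrank_eq h6 (hlex _ h1).2
    have htw : ∀ σ : E ≃ₐ[K] E, tw σ U = U := by
      intro σ
      apply huniq
      have e1 : ∀ i, finrank E ((tw σ U).map ((Bm i).map (algebraMap K E)).mulVecLin) =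
          finrank E (U.map ((Bm i).map (algebraMap K E)).mulVecLin) := by
        intro i
        rw [map_tw, finrank_tw]
      have e2 : ∑ i, (a i : ℤ) *
          finrank E ((tw σ U).map ((Bm i).map (algebraMap K E)).mulVecLin) =
          ∑ i, (a i : ℤ) * finrank E (U.map ((Bm i).map (algebraMap K E)).mulVecLin) :=
        Finset.sum_congr rfl fun i _ => by rw [e1]
      rw [hf, hf, hψ, hψ, finrank_tw, e2]
    have hdesc : ext E (pts (K := K) U) = U :=
      le_antisymm (ext_pts_le U) (descent n U (hfr U) fun σ => (htw σ).ge)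
    have hpos : 0 < ψ U := by
      have h1 : 0 < ψ U0 := by
        rw [hψ]
        have h2 : ((∑ i, a i * finrank E (U0.map ((Bm i).map (algebraMap K E)).mulVecLin) : ℕ) : ℤ) <
            ((b * finrank E U0 : ℕ) : ℤ) := by exact_mod_cast hU0
        push_cast at h2
        linarith
      by_contra h2
      have h3 := hmax' U0
      rw [hf, hf] at h3
      have h4 : (finrank E U : ℤ) ≤ n := by exact_mod_cast hfr U
      have h5 : (0 : ℤ) ≤ finrank E U0 := by positivity
      nlinarith
    have h1 := h.1 (pts (K := K) U)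
    have e1 : ∀ i, finrank E (U.map ((Bm i).map (algebraMap K E)).mulVecLin) =
        finrank K ((pts (K := K) U).map (Bm i).mulVecLin) := by
      intro i
      conv_lhs => rw [← hdesc]
      rw [map_ext, finrank_ext]
    have e2 : ∑ i, (a i : ℤ) * finrank E (U.map ((Bm i).map (algebraMap K E)).mulVecLin) =
        ∑ i, (a i : ℤ) * finrank K ((pts (K := K) U).map (Bm i).mulVecLin) :=
      Finset.sum_congr rfl fun i _ => by rw [e1]
    have e3 : finrank E U = finrank K (pts (K := K) U) := by
      conv_lhs => rw [← hdesc]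
      rw [finrank_ext]
    rw [hψ, e2, e3] at hpos
    have h2 : ((b * finrank K (pts (K := K) U) : ℕ) : ℤ) ≤
      ((∑ i, a i * finrank K ((pts (K := K) U).map (Bm i).mulVecLin) : ℕ) : ℤ) := by
      exact_mod_cast h1
    push_cast at h2
    linarith

end Pool.Agent.Helper12.BL
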