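import Pool.Agent.Helper12.BL.Loc

/-!
The order of the product of the block determinant and of forms on the subfields.
-/

set_option autoImplicit false

open Module FF Pool.Agent.W602.GT Pool.Agent.W603.LV Pool.Agent.TH143.GT Pool.Agent.Y220.OG

namespace Pool.Agent.Helper12.BL

section

variable {K : Type} [Field K] [Algebra ℂ K] {n : ℕ}

/-- local factorisation of the Jacobian matrix of the functions `t` of a subfield -/
theorem factor (hn : Algebra.trdeg ℂ K = n) (F : IntermediateField ℂ K)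
    [Algebra.EssFiniteType ℂ F] {d : ℕ} (hd : Algebra.trdeg ℂ F = d) (t : Fin d → F)
    (P : Place ℂ K) (hP : Divisorial n P) (δ : ℝ) (Y : Set (Place ℂ F)) (δY : Place ℂ F → ℝ)
    (hmap : ∀ (v : Place ℂ F) (e : ℕ), Over P v e → v ∈ Y ∧ 1 - δ ≤ e * (1 - δY v))
    (M : ℕ) (g : F)
    (hg : ∀ v ∈ Y, Divisorial d v → ∀ D : Fin d → Derivation ℂ F F,
      (∀ i, DerReg v (D i)) → jac t D ^ M * g = 0 ∨
        -(M * δY v) ≤ (v.ord (jac t D ^ M * g) : ℝ)) :
    ∃ (Q : Matrix (Fin d) (Fin d) F) (W : (Fin n → Derivation ℂ K K) → Matrix (Fin d) (Fin n) K)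
      (τ : ℕ) (c : Fin d → ℤ),
      (∀ D : Fin n → Derivation ℂ K K, (Matrix.of fun r l => D l (t r : K)) =
        Q.map (algebraMap F K) * W D) ∧
      (∀ (A : Matrix (Fin n) (Fin n) K) (D : Fin n → Derivation ℂ K K),
        W (fun l => ∑ l', A l l' • D l') = W D * A.transpose) ∧
      (∀ D : Fin n → Derivation ℂ K K, (∀ l, DerLog P (D l)) → ∀ r l, Ge P 0 (W D r l)) ∧
      (∀ D : Fin n → Derivation ℂ K K, (∀ l, DerReg P (D l)) → ∀ r l, Ge P (c r) (W D r l)) ∧
      ∑ r, c r = -τ ∧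
      ((algebraMap F K (Q.det ^ M * g)) = 0 ∨
        τ * (M * (1 - δ)) ≤ (P.ord (algebraMap F K (Q.det ^ M * g)) : ℝ)) := by
  classical
  by_cases htriv : ∀ z : F, P.ord (algebraMap F K z) = 0
  · refine ⟨1, fun D => Matrix.of fun r l => D l (t r : K), 0, fun _ => 0, fun D => ?_,
      fun A D => ?_, fun D hD r l => ?_, fun D hD r l => ?_, ?_, ?_⟩
    · have h1 : (1 : Matrix (Fin d) (Fin d) F).map (algebraMap F K) = 1 :=
        Matrix.map_one _ (map_zero _) (map_one _)
      rw [h1, Matrix.one_mul]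
    · ext r l
      rw [Matrix.mul_apply]
      change (∑ l', A l l' • D l') (t r : K) = ∑ l', D l' (t r : K) * A.transpose l' l
      rw [der_sum]
      refine Finset.sum_congr rfl fun l' _ => ?_
      rw [Matrix.transpose_apply, smul_eq_mul, mul_comm]
    · exact ge_der_log (hD l) (Or.inr (htriv (t r)).ge)
    · exact hD l _ (Or.inr (htriv (t r)).ge)
    · simp
    · by_cases h0 : algebraMap F K ((1 : Matrix (Fin d) (Fin d) F).det ^ M * g) = 0
      · exact Or.inl h0
      · right
        rw [htriv]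
        simp
  · push Not at htriv
    obtain ⟨e, v, hov⟩ := exists_over (K := F) P htriv
    have hv : Divisorial d v := Pool.Agent.W419.PG.main ℂ F K d n v P e hd hn hov hP
    obtain ⟨y', s, i0, T, hs0, h1, h2, h3⟩ := loc_data hd t v hv
    refine ⟨T * Matrix.diagonal s,
      fun D => Matrix.of fun r l => D l (algebraMap F K (y' r)) / algebraMap F K (s r), 1,
      fun r => if r = i0 then -1 else 0, fun D => ?_, fun A D => ?_, fun D hD r l => ?_,
      fun D hD r l => ?_, ?_, ?_⟩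
    · ext r l
      rw [Matrix.mul_apply]
      have h4 := h1 K (D l) r
      change D l (algebraMap F K (t r)) = _
      rw [h4]
      refine Finset.sum_congr rfl fun r' _ => ?_
      rw [Matrix.map_apply, Matrix.mul_diagonal]
      rfl
    · ext r l
      rw [Matrix.mul_apply]
      change (∑ l', A l l' • D l') (algebraMap F K (y' r)) / algebraMap F K (s r) =
        ∑ l', (D l' (algebraMap F K (y' r)) / algebraMap F K (s r)) * A.transpose l' l
      rw [der_sum, Finset.sum_div]
      refine Finset.sum_congr rfl fun l' _ => ?_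
      rw [Matrix.transpose_apply, smul_eq_mul]
      ring
    · exact (h2 K P e hov (D l)).1 (hD l) r
    · exact (h2 K P e hov (D l)).2 (hD l) r
    · rw [Finset.sum_ite_eq' Finset.univ i0]
      simp
    · have h4 := h3 M (δY v) g (hg v (hmap v e hov).1 hv)
      rw [Matrix.det_mul, Matrix.det_diagonal]
      rcases h4 with h4 | h4
      · left
        rw [h4, map_zero]
      · right
        rw [hov.2]
        have h5 := (hmap v e hov).2
        have h6 : (0 : ℝ) ≤ M := Nat.cast_nonneg _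
        have h7 : (0 : ℝ) ≤ e := Nat.cast_nonneg _
        have h8 := mul_le_mul_of_nonneg_left h4 h7
        have h9 := mul_le_mul_of_nonneg_left h5 h6
        push_cast
        linarith

/-- **The estimate.** -/
theorem main_ord {ι : Type} [Fintype ι] {B : ℕ} {d s : ι → ℕ} (hn : Algebra.trdeg ℂ K = n)
    (F : ι → IntermediateField ℂ K) [∀ i, Algebra.EssFiniteType ℂ (F i)]
    (hd : ∀ i, Algebra.trdeg ℂ (F i) = d i) (t : ∀ i, Fin (d i) → F i)
    (e : Fin n × Fin B ≃ (Σ q : (Σ i, Fin (s i)), Fin (d q.1)))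
    (x : (Σ i, Fin (s i)) × Fin B → ℂ)
    (P : Place ℂ K) (hP : Divisorial n P) (δ : ℝ) (hδ0 : 0 ≤ δ) (hδ1 : δ ≤ 1)
    (Y : ∀ i, Set (Place ℂ (F i))) (δY : ∀ i, Place ℂ (F i) → ℝ)
    (hmap : ∀ i (v : Place ℂ (F i)) (e : ℕ), Over P v e → v ∈ Y i ∧ 1 - δ ≤ e * (1 - δY i v))
    (m : ℕ) (hm : 0 < m) (g : ∀ i, F i)
    (hg : ∀ i, ∀ v ∈ Y i, Divisorial (d i) v →
      ∀ D : Fin (d i) → Derivation ℂ (F i) (F i), (∀ j, DerReg v (D j)) →
        jac (t i) D ^ (s i * m) * g i = 0 ∨
          -(((s i * m : ℕ) : ℝ) * δY i v) ≤ (v.ord (jac (t i) D ^ (s i * m) * g i) : ℝ))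
    (D : Fin n → Derivation ℂ K K) (hD : ∀ l, DerReg P (D l)) :
    bdet e (fun q => algebraMap ℂ K (x q)) (fun i => Matrix.of fun r l => D l (t i r : K)) ^ m *
        ∏ i, (g i : K) = 0 ∨
      -(((B * m : ℕ) : ℝ) * δ) ≤ (P.ord (bdet e (fun q => algebraMap ℂ K (x q))
        (fun i => Matrix.of fun r l => D l (t i r : K)) ^ m * ∏ i, (g i : K)) : ℝ) := by
  classical
  have hf := fun i => factor hn (F i) (hd i) (t i) P hP δ (Y i) (δY i) (hmap i) (s i * m) (g i) (hg i)
  choose Q W τ c hQ hWA hWlog hWreg hc hY using hf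
  have e1 : bdet e (fun q => algebraMap ℂ K (x q))
      (fun i => Matrix.of fun r l => D l (t i r : K)) =
      (∏ i, ((Q i).map (algebraMap (F i) K)).det ^ s i) *
        bdet e (fun q => algebraMap ℂ K (x q)) (fun i => W i D) := by
    rw [← bdet_left]
    congr 1
    funext i
    exact hQ i D
  obtain ⟨X, hX⟩ : ∃ X, X = bdet e (fun q => algebraMap ℂ K (x q)) (fun i => W i D) :=
    ⟨_, rfl⟩
  obtain ⟨Y, hYd⟩ : ∃ Y : ι → K, ∀ i, Y i = algebraMap (F i) K ((Q i).det ^ (s i * m) * g i) :=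
    ⟨_, fun _ => rfl⟩
  have e2 : bdet e (fun q => algebraMap ℂ K (x q))
      (fun i => Matrix.of fun r l => D l (t i r : K)) ^ m * ∏ i, (g i : K) =
      X ^ m * ∏ i, Y i := by
    rw [e1, ← hX, mul_pow, mul_comm (_ ^ m) (X ^ m), mul_assoc]
    congr 1
    rw [← Finset.prod_pow, ← Finset.prod_mul_distrib]
    refine Finset.prod_congr rfl fun i _ => ?_
    rw [hYd, map_mul, map_pow, pow_mul]
    congr 3
    have h1 := (RingHom.map_det (algebraMap (F i) K) (Q i)).symm
    exact h1
  rw [e2]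
  have hX1 : Ge P (-∑ i, (s i : ℤ) * τ i) X := by
    have h1 := ge_bdet P e x (fun i => W i D) c (fun i r l => hWreg i D hD r l)
    rw [← hX] at h1
    have h2 : ∑ i, (s i : ℤ) * ∑ r, c i r = -∑ i, (s i : ℤ) * τ i := by
      rw [← Finset.sum_neg_distrib]
      refine Finset.sum_congr rfl fun i _ => ?_
      rw [hc]
      ring
    rwa [h2] at h1
  have hX2 : Ge P (-(B : ℤ)) X := by
    obtain ⟨M, D', hD', hDM, hM⟩ := reg_to_log hD
    have h1 : X = bdet e (fun q => algebraMap ℂ K (x q)) (fun i => W i D') *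
        M.transpose.det ^ B := by
      rw [hX, ← bdet_right]
      congr 1
      funext i
      have h2 : D = fun l => ∑ l', M l l' • D' l' := funext hDM
      conv_lhs => rw [h2]
      exact hWA i M D'
    rw [h1, Matrix.det_transpose]
    have h2 := ge_bdet P e x (fun i => W i D') (fun _ _ => 0) (fun i r l => hWlog i D' hD' r l)
    simp only [Finset.sum_const_zero, mul_zero] at h2
    have h3 := h2.mul (hM.pow B)
    exact h3.mono (by omega)
  by_cases hX0 : X = 0
  · left
    rw [hX0, zero_pow hm.ne', zero_mul]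
  by_cases hY0 : ∃ i, Y i = 0
  · obtain ⟨i, hi⟩ := hY0
    left
    rw [Finset.prod_eq_zero (Finset.mem_univ i) hi, mul_zero]
  push Not at hY0
  right
  have hprod : ∀ S : Finset ι, (P.ord (∏ i ∈ S, Y i) : ℤ) = ∑ i ∈ S, P.ord (Y i) := by
    intro S
    induction S using Finset.induction_on with
    | empty => simp [P.ord_one]
    | insert i S hi ih =>
      rw [Finset.prod_insert hi, Finset.sum_insert hi, P.ord_mul (hY0 i)
        (Finset.prod_ne_zero_iff.2 fun j _ => hY0 j), ih]
  rw [P.ord_mul (pow_ne_zero _ hX0) (Finset.prod_ne_zero_iff.2 fun j _ => hY0 j), P.ord_pow,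
    hprod]
  have h1 : -∑ i, (s i : ℝ) * τ i ≤ (P.ord X : ℝ) := by
    have := hX1.resolve_left hX0
    exact_mod_cast this
  have h2 : -(B : ℝ) ≤ (P.ord X : ℝ) := by
    have := hX2.resolve_left hX0
    exact_mod_cast this
  have h3 : (m : ℝ) * ((∑ i, (s i : ℝ) * τ i) * (1 - δ)) ≤ ∑ i, (P.ord (Y i) : ℝ) := by
    rw [Finset.sum_mul, Finset.mul_sum]
    refine Finset.sum_le_sum fun i _ => ?_
    have h4 := hY i
    rw [← hYd] at h4
    have h5 := h4.resolve_left (hY0 i)
    push_cast at h5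
    linarith
  have hm0 : (0 : ℝ) < m := by exact_mod_cast hm
  obtain ⟨S, hS⟩ : ∃ S, S = ∑ i, (s i : ℝ) * τ i := ⟨_, rfl⟩
  rw [← hS] at h1 h3
  have hS0 : 0 ≤ S := by
    rw [hS]
    exact Finset.sum_nonneg fun i _ => by positivity
  have h4 : -((B : ℝ) * δ) ≤ (P.ord X : ℝ) + S * (1 - δ) := by
    rcases le_total S B with h5 | h5
    · nlinarith
    · nlinarith
  push_cast
  have h5 := mul_le_mul_of_nonneg_left h4 hm0.le
  linarith

end

end Pool.Agent.Helper12.BL
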