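import Pool.Agent.Helper12.BL.Sct

/-!
The Brascamp-Lieb criterion: final assembly.
-/

set_option autoImplicit false

open Module FF Pool.Agent.W602.GT Pool.Agent.W603.LV Pool.Agent.TH143.GT Pool.Agent.Y220.OG

namespace Pool.Agent.Helper12.BL

variable {K : Type} [Field K] [Algebra ℂ K]

/-- **The Brascamp-Lieb criterion.** -/
theorem main {n : ℕ} (hn : Algebra.trdeg ℂ K = n)
    {ι : Type} [Fintype ι] (F : ι → IntermediateField ℂ K)
    [∀ i, Algebra.EssFiniteType ℂ (F i)] {d : ι → ℕ} (hd : ∀ i, Algebra.trdeg ℂ (F i) = d i)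
    (c : ι → ℚ) (hc : ∀ i, 0 < c i) (hsum : ∑ i, c i * d i = n)
    (hBL : ∀ V : Submodule K (Derivation ℂ K K),
      (finrank K V : ℚ) ≤ ∑ i, c i * finrank K (V.map (restr (F i))))
    (X : Set (Place ℂ K)) (δ : Place ℂ K → ℝ) (hδ : ∀ P ∈ X, 0 ≤ δ P ∧ δ P ≤ 1)
    (Y : ∀ i, Set (Place ℂ (F i))) (δY : ∀ i, Place ℂ (F i) → ℝ)
    (hmap : ∀ P ∈ X, Divisorial n P → ∀ i (v : Place ℂ (F i)) (e : ℕ), Over P v e →
      v ∈ Y i ∧ 1 - δ P ≤ e * (1 - δY i v))
    (hb : ∀ i, ∃ M : ℕ, 0 < M ∧ ∃ ω : (Fin (d i) → Derivation ℂ (F i) (F i)) → F i,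
      (IsPluri M ω ∧ ∀ v ∈ Y i, Divisorial (d i) v → ∀ D, (∀ j, DerReg v (D j)) →
        ω D = 0 ∨ -((M : ℝ) * δY i v) ≤ (v.ord (ω D) : ℝ)) ∧ ∃ D, ω D ≠ 0)
    {h : ℕ} (z : Fin h → K) (hz : AlgebraicIndependent ℂ z)
    (hq : ∀ j, ∃ i, ∃ M : ℕ, 0 < M ∧ ∃ ω ω' : (Fin (d i) → Derivation ℂ (F i) (F i)) → F i,
      (IsPluri M ω ∧ ∀ v ∈ Y i, Divisorial (d i) v → ∀ D, (∀ j, DerReg v (D j)) →
        ω D = 0 ∨ -((M : ℝ) * δY i v) ≤ (v.ord (ω D) : ℝ)) ∧
      (IsPluri M ω' ∧ ∀ v ∈ Y i, Divisorial (d i) v → ∀ D, (∀ j, DerReg v (D j)) →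
        ω' D = 0 ∨ -((M : ℝ) * δY i v) ≤ (v.ord (ω' D) : ℝ)) ∧
      ∃ D, ω D ≠ 0 ∧ z j = ((ω' D / ω D : F i) : K)) :
    ∃ N : ℕ, 0 < N ∧ ∃ ω : Fin (h + 1) → (Fin n → Derivation ℂ K K) → K,
      (∀ j, IsPluri N (ω j) ∧ ∀ P ∈ X, Divisorial n P → ∀ D, (∀ l, DerReg P (D l)) →
        ω j D = 0 ∨ -((N : ℝ) * δ P) ≤ (P.ord (ω j D) : ℝ)) ∧
      ∃ D, ω 0 D ≠ 0 ∧ AlgebraicIndependent ℂ (fun j : Fin h => ω j.succ D / ω 0 D) := by
  classical
  obtain ⟨y, hy⟩ := basis_of_trdeg hn
  have hex : ∀ l : Fin n, ∃ D : Derivation ℂ K K, ∀ j, D (y j) = if l = j then 1 else 0 :=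
    fun l => exists_der y hy _
  choose E hE using hex
  have hdual : Dual y E := ⟨hy, hE⟩
  have hbas := fun i => basis_of_trdeg (hd i)
  choose t ht using hbas
  obtain ⟨b, a, hb0, ha0, ha⟩ := exists_weights c hc
  have hsemi := semi_jac hdual F t ht c hsum hBL ha
  have : CharZero K := charZero_of_injective_algebraMap (algebraMap ℂ K).injective
  obtain ⟨N, hN⟩ : ∃ N, N = n * n + 1 := ⟨_, rfl⟩
  have hN0 : 0 < N := by omega
  obtain ⟨e⟩ := exists_equiv c hsum ha N
  obtain ⟨x, hx⟩ := certificate (k := ℂ) _ hsemi (show n * n ≤ N by omega) e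
  have hcoord := fun i => pluri_coord (F := F i) (ht i)
  choose Et hEt using hcoord
  -- coordinates of the sections
  have hsec : ∀ i (M : ℕ) (ω : (Fin (d i) → Derivation ℂ (F i) (F i)) → F i),
      (IsPluri M ω ∧ ∀ v ∈ Y i, Divisorial (d i) v → ∀ D, (∀ j, DerReg v (D j)) →
        ω D = 0 ∨ -((M : ℝ) * δY i v) ≤ (v.ord (ω D) : ℝ)) →
      Sec (t i) (Y i) (δY i) M (ω (Et i)) := by
    intro i M ω hω v hv hdv D hD
    have h1 := hω.2 v hv hdv D hD
    rwa [hEt i M ω hω.1 D] at h1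
  have hb' : ∀ i, ∃ M : ℕ, 0 < M ∧ ∃ g : F i, g ≠ 0 ∧ Sec (t i) (Y i) (δY i) M g := by
    intro i
    obtain ⟨M, hM, ω, hω, D, hD⟩ := hb i
    refine ⟨M, hM, ω (Et i), fun h0 => hD ?_, hsec i M ω hω⟩
    rw [hEt i M ω hω.1 D, h0, mul_zero]
  have hq' : ∀ j, Quo F t Y δY a (z j) := by
    intro j
    obtain ⟨i, M, hM, ω, ω', hω, hω', D, hD, hzj⟩ := hq j
    have h1 := hEt i M ω hω.1 D
    have h2 := hEt i M ω' hω'.1 D
    have h3 : jac (t i) D ^ M ≠ 0 := by
      intro h0
      rw [h0, zero_mul] at h1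
      exact hD h1
    have h4 : ω (Et i) ≠ 0 := by
      intro h0
      rw [h0, mul_zero] at h1
      exact hD h1
    have h5 : z j = ((ω' (Et i) : F i) : K) / (ω (Et i) : F i) := by
      rw [hzj, h1, h2, mul_div_mul_left _ _ h3]
      rfl
    rw [h5]
    exact quo_of_ratio hb' ha0 i hM h4 (hsec i M ω hω) (hsec i M ω' hω')
  obtain ⟨m, hm, G, hG0, hG, hGz⟩ := common_mul hb' z hq' hN0
  -- the sections
  obtain ⟨Φ, hΦ⟩ : ∃ Φ : K → (Fin n → Derivation ℂ K K) → K, ∀ g D, Φ g D =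
      bdet e (fun q => algebraMap ℂ K (x q)) (fun i => Matrix.of fun r l => D l (t i r : K)) ^ m *
        g := ⟨_, fun _ _ => rfl⟩
  have hpl : ∀ g, IsPluri (b * N * m) (Φ g) := by
    intro g A D
    rw [hΦ, hΦ]
    have h1 : (fun i => Matrix.of fun (r : Fin (d i)) (l : Fin n) =>
        (∑ j, A l j • D j) (t i r : K)) =
        fun i => (Matrix.of fun (r : Fin (d i)) (l : Fin n) => D l (t i r : K)) *
          A.transpose := by
      funext i
      ext r l
      rw [Matrix.mul_apply]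
      change (∑ j, A l j • D j) (t i r : K) = ∑ j, D j (t i r : K) * A.transpose j l
      rw [der_sum]
      refine Finset.sum_congr rfl fun j _ => ?_
      rw [Matrix.transpose_apply, smul_eq_mul, mul_comm]
    rw [h1, bdet_right, Matrix.det_transpose, mul_pow, ← pow_mul]
    ring
  have hbound : ∀ g, Tot F t Y δY (fun i => a i * N * m) g → ∀ P ∈ X, Divisorial n P →
      ∀ D : Fin n → Derivation ℂ K K, (∀ l, DerReg P (D l)) →
        Φ g D = 0 ∨ -(((b * N * m : ℕ) : ℝ) * δ P) ≤ (P.ord (Φ g D) : ℝ) := by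
    rintro g ⟨g', hg', rfl⟩ P hPX hP D hD
    rw [hΦ]
    exact main_ord hn F hd t e x P hP (δ P) (hδ P hPX).1 (hδ P hPX).2 Y δY
      (fun i v e' hov => hmap P hPX hP i v e' hov) m hm g' hg' D hD
  have hne : bdet e (fun q => algebraMap ℂ K (x q))
      (fun i => Matrix.of fun r l => E l (t i r : K)) ≠ 0 := hx
  refine ⟨b * N * m, by positivity, Fin.cons (Φ G) (fun j => Φ (z j * G)), fun j => ?_,
    E, ?_, ?_⟩
  · refine Fin.cases ?_ (fun j => ?_) j
    · rw [Fin.cons_zero]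
      exact ⟨hpl G, hbound G hG⟩
    · rw [Fin.cons_succ]
      exact ⟨hpl _, hbound _ (hGz j)⟩
  · rw [Fin.cons_zero, hΦ]
    exact mul_ne_zero (pow_ne_zero _ hne) hG0
  · have h1 : (fun j : Fin h => (Fin.cons (Φ G) (fun j => Φ (z j * G)) :
        Fin (h + 1) → (Fin n → Derivation ℂ K K) → K) j.succ E /
        (Fin.cons (Φ G) (fun j => Φ (z j * G)) :
        Fin (h + 1) → (Fin n → Derivation ℂ K K) → K) 0 E) = z := by
      funext j
      rw [Fin.cons_succ, Fin.cons_zero, hΦ, hΦ]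
      have h2 := pow_ne_zero m hne
      rw [mul_div_mul_left _ _ h2, mul_div_cancel_right₀ _ hG0]
    rw [h1]
    exact hz

omit [Algebra ℂ K] in
/-- The Brascamp-Lieb condition when the tangent space is the direct sum of the kernels. -/
theorem split_bl {V ι : Type} [Fintype ι] [AddCommGroup V] [Module K V] [FiniteDimensional K V]
    {W : ι → Type} [∀ i, AddCommGroup (W i)] [∀ i, Module K (W i)] (f : ∀ i, V →ₗ[K] W i)
    (hind : iSupIndep fun i => LinearMap.ker (f i)) (U : Submodule K V) :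
    (Fintype.card ι - 1 : ℚ) * finrank K U ≤ ∑ i, (finrank K (U.map (f i)) : ℚ) := by
  classical
  have h1 : ∀ i, (finrank K (U.map (f i)) : ℚ) =
      finrank K U - finrank K (U ⊓ LinearMap.ker (f i) : Submodule K V) := by
    intro i
    have h2 := LinearMap.finrank_range_add_finrank_ker ((f i).domRestrict U)
    have h3 : LinearMap.range ((f i).domRestrict U) = U.map (f i) := by
      rw [LinearMap.domRestrict, LinearMap.range_comp, Submodule.range_subtype]
    have h4 : finrank K (LinearMap.ker ((f i).domRestrict U)) =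
        finrank K (U ⊓ LinearMap.ker (f i) : Submodule K V) := by
      have h5 : (LinearMap.ker ((f i).domRestrict U)).map U.subtype =
          U ⊓ LinearMap.ker (f i) := by
        rw [LinearMap.domRestrict, LinearMap.ker_comp, Submodule.map_comap_subtype]
      rw [← finrank_map_inj (Submodule.subtype_injective U), h5]
    rw [h3, h4] at h2
    have h6 : (finrank K (U.map (f i)) : ℚ) +
        finrank K (U ⊓ LinearMap.ker (f i) : Submodule K V) = finrank K U := by
      exact_mod_cast h2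
    linarith
  have h2 : ∑ i, finrank K (U ⊓ LinearMap.ker (f i) : Submodule K V) ≤ finrank K U := by
    have h3 : iSupIndep fun i => (U ⊓ LinearMap.ker (f i) : Submodule K V) :=
      hind.mono fun i => inf_le_right
    have h4 : finrank K (⨆ i, (U ⊓ LinearMap.ker (f i) : Submodule K V) : Submodule K V) =
        ∑ i, finrank K (U ⊓ LinearMap.ker (f i) : Submodule K V) := by
      rw [Submodule.iSup_eq_range_dfinsupp_lsum,
        LinearMap.finrank_range_of_inj h3.dfinsupp_lsum_injective]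
      exact Module.finrank_directSum K
        (fun i => (U ⊓ LinearMap.ker (f i) : Submodule K V))
    rw [← h4]
    exact Submodule.finrank_mono (iSup_le fun i => inf_le_left)
  have h3 : (∑ i, (finrank K (U ⊓ LinearMap.ker (f i) : Submodule K V) : ℚ)) ≤
      finrank K U := by exact_mod_cast h2
  rw [Finset.sum_congr rfl fun i _ => h1 i, Finset.sum_sub_distrib, Finset.sum_const,
    Finset.card_univ, nsmul_eq_mul]
  linarith

open scoped IntermediateField.algebraAdjoinAdjoin in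
/-- algebraically independent elements of a generating set -/
theorem exists_indep (S : Set K) (h : ℕ)
    (hh : (h : Cardinal) ≤ Algebra.trdeg ℂ (IntermediateField.adjoin ℂ S)) :
    ∃ z : Fin h → K, AlgebraicIndependent ℂ z ∧ ∀ j, z j ∈ S := by
  classical
  obtain ⟨L, hL⟩ : ∃ L, L = IntermediateField.adjoin ℂ S := ⟨_, rfl⟩
  rw [← hL] at hh
  obtain ⟨S', hS'⟩ : ∃ S' : Set L, S' = {x : L | (x : K) ∈ S} := ⟨_, rfl⟩
  have h1 : IntermediateField.adjoin ℂ S' = ⊤ := by
    rw [eq_top_iff]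
    rintro ⟨x, hx⟩ -
    have h2 : x ∈ (IntermediateField.adjoin ℂ S').map L.val := by
      rw [IntermediateField.adjoin_map]
      have h3 : S = L.val '' S' := by
        ext s
        constructor
        · intro hs
          have h4 : s ∈ L := by
            rw [hL]
            exact IntermediateField.subset_adjoin ℂ S hs
          refine ⟨⟨s, h4⟩, ?_, rfl⟩
          rw [hS']
          exact hs
        · rintro ⟨s', hs', rfl⟩
          rw [hS'] at hs'
          exact hs'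
      rw [← h3, ← hL]
      exact hx
    obtain ⟨x', hx', hxx⟩ := h2
    have h3 : x' = ⟨x, hx⟩ := Subtype.ext hxx
    rw [← h3]
    exact hx'
  have h2 : Algebra.IsAlgebraic (Algebra.adjoin ℂ S') L := by
    have h3 : Algebra.IsAlgebraic (IntermediateField.adjoin ℂ S') L := by
      constructor
      intro x
      have h4 : x ∈ IntermediateField.adjoin ℂ S' := by rw [h1]; trivial
      exact isAlgebraic_algebraMap (⟨x, h4⟩ : IntermediateField.adjoin ℂ S')
    exact (IsFractionRing.comap_isAlgebraic_iff (A := Algebra.adjoin ℂ S')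
      (K := IntermediateField.adjoin ℂ S') (C := L)).2 h3
  obtain ⟨B, hBS, hB⟩ := exists_isTranscendenceBasis_subset (R := ℂ) S'
  have h3 := hB.cardinalMk_eq_trdeg
  rw [← h3] at hh
  have h4 : Cardinal.mk (Fin h) ≤ Cardinal.mk B := by rwa [Cardinal.mk_fin]
  obtain ⟨φ⟩ := h4
  refine ⟨fun j => ((φ j : L) : K), ?_, fun j => ?_⟩
  · have h5 := hB.1.comp φ φ.injective
    exact h5.map' (f := L.val) L.val.injective
  · have h5 := hBS (φ j).2
    rw [hS'] at h5
    exact h5

end Pool.Agent.Helper12.BL
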