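import Pool.Agent.Helper12.BL.Stab

/-!
Generic vectors for semistable data.
-/

set_option autoImplicit false

open Module TensorProduct

namespace Pool.Agent.Helper12.BL

section

variable {E Ω ι : Type} [Field E] [Field Ω] [Algebra E Ω] [Fintype ι]

theorem finrank_map_inj {F V W : Type} [Field F] [AddCommGroup V] [Module F V] [AddCommGroup W]
    [Module F W] {f : V →ₗ[F] W} (hf : Function.Injective f) (U : Submodule F V) :
    finrank F (U.map f) = finrank F U :=
  (LinearEquiv.finrank_eq (Submodule.equivMapOfInjective f hf U)).symm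

/-- The data are semistable: `b dim U ≤ ∑ i, a i dim (B i U)` for all subspaces `U`, with equality
for the whole space. -/
def Semi (a : ι → ℕ) (b : ℕ) {V : Type} [AddCommGroup V] [Module E V] {W : ι → Type}
    [∀ i, AddCommGroup (W i)] [∀ i, Module E (W i)] (Bf : ∀ i, V →ₗ[E] W i) : Prop :=
  (∀ U : Submodule E V, b * finrank E U ≤ ∑ i, a i * finrank E (U.map (Bf i))) ∧
    b * finrank E V = ∑ i, a i * finrank E ((⊤ : Submodule E V).map (Bf i))

/-- The condition for vectors in the base change. -/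
def Zero (a : ι → ℕ) (b N : ℕ) (x : (Σ i, Fin (a i * N)) × Fin (b * N) → Ω) {V : Type}
    [AddCommGroup V] [Module E V] {W : ι → Type}
    [∀ i, AddCommGroup (W i)] [∀ i, Module E (W i)] (Bf : ∀ i, V →ₗ[E] W i) : Prop :=
  ∀ z : Fin (b * N) → Ω ⊗[E] V,
    (∀ i j, ∑ m, x (⟨i, j⟩, m) • (Bf i).baseChange Ω (z m) = 0) → z = 0

variable {a : ι → ℕ} {b N : ℕ} {x : (Σ i, Fin (a i * N)) × Fin (b * N) → Ω} {V : Type}
    [AddCommGroup V] [Module E V] {W : ι → Type}
    [∀ i, AddCommGroup (W i)] [∀ i, Module E (W i)] {Bf : ∀ i, V →ₗ[E] W i}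

omit [Fintype ι] in
theorem zero_of_sub_quot (U : Submodule E V)
    (h1 : Zero a b N x (fun i => (Bf i) ∘ₗ U.subtype))
    (h2 : Zero a b N x (fun i => U.mapQ (U.map (Bf i)) (Bf i) (Submodule.le_comap_map _ _))) :
    Zero a b N x Bf := by
  intro z hz
  have h3 := h2 (fun m => (U.mkQ).baseChange Ω (z m)) (by
    intro i j
    have e1 : ∀ m, (U.mapQ (U.map (Bf i)) (Bf i) (Submodule.le_comap_map _ _)).baseChange Ω
        ((U.mkQ).baseChange Ω (z m)) =
        ((U.map (Bf i)).mkQ).baseChange Ω ((Bf i).baseChange Ω (z m)) := by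
      intro m
      rw [← LinearMap.comp_apply, ← LinearMap.comp_apply, ← LinearMap.baseChange_comp,
        ← LinearMap.baseChange_comp, Submodule.mapQ_mkQ]
    simp only [e1]
    rw [← map_zero (((U.map (Bf i)).mkQ).baseChange Ω), ← hz i j, map_sum]
    simp only [map_smul])
  have h4 : ∀ m, ∃ y, (U.subtype).baseChange Ω y = z m := by
    intro m
    have h5 := congrFun h3 m
    have hex : Function.Exact (U.subtype.lTensor Ω) (U.mkQ.lTensor Ω) := by
      refine lTensor_exact Ω ?_ (Submodule.mkQ_surjective U)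
      rw [LinearMap.exact_iff, Submodule.ker_mkQ, Submodule.range_subtype]
    exact (hex (z m)).1 h5
  choose y hy using h4
  have h5 := h1 y (by
    intro i j
    have e1 : ∀ m, ((Bf i) ∘ₗ U.subtype).baseChange Ω (y m) = (Bf i).baseChange Ω (z m) := by
      intro m
      rw [LinearMap.baseChange_comp, LinearMap.comp_apply, hy]
    simp only [e1]
    exact hz i j)
  funext m
  rw [← hy m, h5, Pi.zero_apply, map_zero]
  rfl

variable [FiniteDimensional E V] [∀ i, FiniteDimensional E (W i)]

theorem semi_sub (U : Submodule E V) (h : Semi a b Bf)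
    (hU : b * finrank E U = ∑ i, a i * finrank E (U.map (Bf i))) :
    Semi a b (fun i => (Bf i) ∘ₗ U.subtype) := by
  refine ⟨fun U' => ?_, ?_⟩
  · have h1 := h.1 (U'.map U.subtype)
    rw [finrank_map_inj (Submodule.subtype_injective U)] at h1
    refine h1.trans_eq (Finset.sum_congr rfl fun i _ => ?_)
    rw [Submodule.map_comp]
  · rw [hU]
    refine Finset.sum_congr rfl fun i _ => ?_
    rw [Submodule.map_comp, Submodule.map_top, Submodule.range_subtype]

theorem finrank_map_mkQ (S T : Submodule E V) (h : S ≤ T) :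
    finrank E (T.map S.mkQ) + finrank E S = finrank E T := by
  have h1 := LinearMap.finrank_range_add_finrank_ker (S.mkQ.domRestrict T)
  have h2 : LinearMap.range (S.mkQ.domRestrict T) = T.map S.mkQ := by
    rw [LinearMap.range_domRestrict]
  have h3 : LinearMap.ker (S.mkQ.domRestrict T) = S.comap T.subtype := by
    rw [LinearMap.ker_domRestrict, Submodule.ker_mkQ]
  rw [h2, h3] at h1
  have h4 : finrank E (S.comap T.subtype) = finrank E S := by
    rw [← finrank_map_inj (Submodule.subtype_injective T)]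
    rw [Submodule.map_comap_subtype, inf_eq_right.2 h]
  omega

theorem semi_quot (U : Submodule E V) (h : Semi a b Bf)
    (hU : b * finrank E U = ∑ i, a i * finrank E (U.map (Bf i))) :
    Semi a b (fun i => U.mapQ (U.map (Bf i)) (Bf i) (Submodule.le_comap_map _ _)) := by
  have key : ∀ T : Submodule E V, U ≤ T → ∀ i,
      finrank E ((T.map U.mkQ).map (U.mapQ (U.map (Bf i)) (Bf i)
        (Submodule.le_comap_map _ _))) + finrank E (U.map (Bf i)) =
      finrank E (T.map (Bf i)) := by
    intro T hT i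
    rw [← Submodule.map_comp, Submodule.mapQ_mkQ, Submodule.map_comp]
    exact finrank_map_mkQ _ _ (Submodule.map_mono hT)
  have key2 : ∀ T : Submodule E V, U ≤ T →
      ∑ i, a i * finrank E ((T.map U.mkQ).map (U.mapQ (U.map (Bf i)) (Bf i)
        (Submodule.le_comap_map _ _))) + b * finrank E U =
      ∑ i, a i * finrank E (T.map (Bf i)) := by
    intro T hT
    rw [hU, ← Finset.sum_add_distrib]
    refine Finset.sum_congr rfl fun i _ => ?_
    rw [← mul_add, key T hT i]
  refine ⟨fun T => ?_, ?_⟩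
  · have h1 : (T.comap U.mkQ).map U.mkQ = T :=
      Submodule.map_comap_eq_of_surjective (Submodule.mkQ_surjective U) T
    have h2 : U ≤ T.comap U.mkQ := by
      intro v hv
      rw [Submodule.mem_comap]
      have : U.mkQ v = 0 := by simpa using hv
      rw [this]
      exact T.zero_mem
    have h3 := key2 _ h2
    rw [h1] at h3
    have h4 := h.1 (T.comap U.mkQ)
    have h5 := finrank_map_mkQ U (T.comap U.mkQ) h2
    rw [h1] at h5
    have h6 : b * finrank E (T.comap U.mkQ) = b * finrank E T + b * finrank E U := by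
      rw [← mul_add, h5]
    beta_reduce
    omega
  · have h3 := key2 ⊤ le_top
    have h1 : (⊤ : Submodule E V).map U.mkQ = ⊤ := by
      rw [Submodule.map_top, Submodule.range_mkQ]
    rw [h1, ← h.2] at h3
    have h5 := finrank_map_mkQ U ⊤ le_top
    rw [h1, finrank_top, finrank_top] at h5
    have h6 : b * finrank E V = b * finrank E (V ⧸ U) + b * finrank E U := by
      rw [← mul_add, h5]
    beta_reduce
    omega

end

section

variable {E Ω ι : Type} [Field E] [IsAlgClosed E] [Field Ω] [Algebra E Ω] [Fintype ι]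
  {a : ι → ℕ} {b N : ℕ} {x : (Σ i, Fin (a i * N)) × Fin (b * N) → Ω} {V : Type}
    [AddCommGroup V] [Module E V] {W : ι → Type}
    [∀ i, AddCommGroup (W i)] [∀ i, Module E (W i)] {Bf : ∀ i, V →ₗ[E] W i}
    [FiniteDimensional E V] [∀ i, FiniteDimensional E (W i)]

theorem zero_of_stable (hx : AlgebraicIndependent E x) (hN : finrank E V * finrank E V ≤ N)
    (h : Semi a b Bf) (hst : ∀ U : Submodule E V, U ≠ ⊥ → U ≠ ⊤ →
      b * finrank E U ≠ ∑ i, a i * finrank E (U.map (Bf i))) : Zero a b N x Bf := by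
  classical
  intro z hz
  obtain ⟨n, hn⟩ : ∃ n, n = finrank E V := ⟨_, rfl⟩
  obtain ⟨v⟩ : Nonempty (Basis (Fin n) E V) := ⟨finBasisOfFinrankEq E V hn.symm⟩
  obtain ⟨d, hd⟩ : ∃ d : ι → ℕ, ∀ i, d i = finrank E (W i) := ⟨fun i => finrank E (W i),
    fun _ => rfl⟩
  have hw : ∀ i, Nonempty (Basis (Fin (d i)) E (W i)) := fun i =>
    ⟨finBasisOfFinrankEq E (W i) (hd i).symm⟩
  obtain ⟨w⟩ : Nonempty (∀ i, Basis (Fin (d i)) E (W i)) := Classical.nonempty_pi.2 hw
  obtain ⟨Bm, hBm⟩ : ∃ Bm : ∀ i, Matrix (Fin (d i)) (Fin n) E,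
    ∀ i, Bm i = LinearMap.toMatrix v (w i) (Bf i) := ⟨_, fun _ => rfl⟩
  have hcomp : ∀ i, (Bm i).mulVecLin =
      ((w i).equivFun.toLinearMap ∘ₗ (Bf i)) ∘ₗ v.equivFun.symm.toLinearMap := by
    intro i
    rw [hBm]
    apply LinearMap.ext
    intro t
    have h1 := LinearMap.toMatrix_mulVec_repr v (w i) (Bf i) (v.equivFun.symm t)
    have h2 : (v.repr (v.equivFun.symm t) : Fin n → E) = t := by
      have := v.equivFun.apply_symm_apply t
      exact this
    rw [h2] at h1
    rw [Matrix.mulVecLin_apply, h1]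
    rfl
  have htr : ∀ (U : Submodule E (Fin n → E)) i, finrank E (U.map (Bm i).mulVecLin) =
      finrank E ((U.map v.equivFun.symm.toLinearMap).map (Bf i)) := by
    intro U i
    rw [hcomp, Submodule.map_comp, Submodule.map_comp]
    exact finrank_map_inj (w i).equivFun.injective _
  have htr2 : ∀ (U : Submodule E (Fin n → E)), finrank E (U.map v.equivFun.symm.toLinearMap) =
      finrank E U := fun U =>
    finrank_map_inj v.equivFun.symm.injective _
  have htop : (⊤ : Submodule E (Fin n → E)).map v.equivFun.symm.toLinearMap = ⊤ := by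
    rw [Submodule.map_top, LinearEquiv.range]
  obtain ⟨Z, hZ⟩ : ∃ Z : Matrix (Fin n) (Fin (b * N)) Ω,
    ∀ l m, Z l m = (Algebra.TensorProduct.basis Ω v).repr (z m) l :=
    ⟨Matrix.of fun l m => (Algebra.TensorProduct.basis Ω v).repr (z m) l, fun _ _ => rfl⟩
  have hZ0 := stable_zero Bm a b N (by rw [hn]; exact hN) (by
    intro U hU1 hU2
    simp only [htr]
    rw [← htr2 U]
    refine lt_of_le_of_ne (h.1 _) (hst _ ?_ ?_)
    · intro h0
      apply hU1
      rw [← Submodule.finrank_eq_zero (R := E), ← htr2 U, h0, finrank_bot]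
    · intro h0
      apply hU2
      apply Submodule.eq_top_of_finrank_eq
      rw [← htr2 U, h0, finrank_top, ← hn, Module.finrank_fintype_fun_eq_card,
        Fintype.card_fin]) (by
    simp only [htr]
    rw [htop, hn]
    exact h.2.le) hx Z (by
    intro i j
    have h1 := hz i j
    have h2 := congrArg (Algebra.TensorProduct.basis Ω (w i)).repr h1
    rw [map_sum, map_zero] at h2
    funext r
    have h3 := congrArg (fun g : Fin (d i) →₀ Ω => g r) h2
    simp only [Finsupp.coe_zero, Pi.zero_apply] at h3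
    rw [Finsupp.finsetSum_apply] at h3
    rw [Pi.zero_apply, ← h3, Matrix.mulVec, dotProduct]
    refine Finset.sum_congr rfl fun m _ => ?_
    rw [map_smul, Finsupp.smul_apply, smul_eq_mul, mul_comm]
    congr 1
    have h4 := LinearMap.toMatrix_mulVec_repr (Algebra.TensorProduct.basis Ω v) (Algebra.TensorProduct.basis Ω (w i))
      ((Bf i).baseChange Ω) (z m)
    rw [← h4, LinearMap.toMatrix_baseChange, ← hBm, Matrix.mulVec, dotProduct, Matrix.mul_apply]
    refine Finset.sum_congr rfl fun l _ => ?_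
    rw [hZ])
  funext m
  apply (Algebra.TensorProduct.basis Ω v).repr.injective
  rw [Pi.zero_apply, map_zero]
  ext l
  rw [← hZ l m, hZ0]
  rfl

end

/-- **Generic vectors for semistable data.** -/
theorem generic_zero {E Ω ι : Type} [Field E] [IsAlgClosed E] [Field Ω] [Algebra E Ω]
    [Fintype ι] {a : ι → ℕ} {b N : ℕ} {x : (Σ i, Fin (a i * N)) × Fin (b * N) → Ω}
    (hx : AlgebraicIndependent E x) : ∀ (n : ℕ), n * n ≤ N → ∀ (V : Type)
    [AddCommGroup V] [Module E V] [FiniteDimensional E V] (W : ι → Type)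
    [∀ i, AddCommGroup (W i)] [∀ i, Module E (W i)] [∀ i, FiniteDimensional E (W i)]
    (Bf : ∀ i, V →ₗ[E] W i), finrank E V ≤ n → Semi a b Bf → Zero a b N x Bf := by
  intro n
  induction n with
  | zero =>
    intro _ V _ _ _ W _ _ _ Bf hV _ z _
    have h1 : finrank E V = 0 := by omega
    have : Subsingleton V := finrank_zero_iff.1 h1
    have : Subsingleton (Ω ⊗[E] V) := inferInstance
    funext m
    exact Subsingleton.elim _ _
  | succ n ih =>
    intro hN V _ _ _ W _ _ _ Bf hV h
    have hN' : n * n ≤ N := (Nat.mul_le_mul (Nat.le_succ n) (Nat.le_succ n)).trans hN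
    by_cases hst : ∃ U : Submodule E V, U ≠ ⊥ ∧ U ≠ ⊤ ∧
      b * finrank E U = ∑ i, a i * finrank E (U.map (Bf i))
    · obtain ⟨U, hU1, hU2, hU3⟩ := hst
      have h1 : finrank E U < finrank E V := Submodule.finrank_lt hU2
      have h2 : finrank E (V ⧸ U) + finrank E U = finrank E V := Submodule.finrank_quotient_add_finrank U
      have h3 : 0 < finrank E U := by
        rw [Nat.pos_iff_ne_zero]
        intro h0
        exact hU1 (Submodule.finrank_eq_zero.1 h0)
      refine zero_of_sub_quot U ?_ ?_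
      · exact ih hN' U W _ (by omega) (semi_sub U h hU3)
      · exact ih hN' (V ⧸ U) (fun i => W i ⧸ U.map (Bf i)) _ (by omega) (semi_quot U h hU3)
    · refine zero_of_stable hx ?_ h fun U h1 h2 h3 => hst ⟨U, h1, h2, h3⟩
      exact (Nat.mul_le_mul hV hV).trans hN

end Pool.Agent.Helper12.BL
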