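import Pool.Agent.Helper12.BL.Bdet

/-!
Local coordinates at a place below.
-/

set_option autoImplicit false

open Module FF Pool.Agent.W602.GT Pool.Agent.W603.LV Pool.Agent.TH143.GT Pool.Agent.Y220.OG

namespace Pool.Agent.Helper12.BL

section

variable {k K : Type} [Field k] [Field K] [Algebra k K]

theorem log_of_reg {P : Place k K} {D : Derivation k K K} (hD : DerReg P D) {t : K}
    (ht0 : t ≠ 0) (ht : P.ord t = 1) (h : Ge P 1 (D t)) : DerLog P D := by
  refine pl_log hD ht ?_
  rw [reg_iff_ge]
  have := ge_div ht0 h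
  rwa [ht, sub_self] at this

theorem derReg_smul {P : Place k K} {D : Derivation k K K} (hD : DerReg P D) {c : K}
    (hc : P.Reg c) : DerReg P (c • D) := fun f hf => P.reg_mul hc (hD f hf)

theorem derReg_sub {P : Place k K} {D D' : Derivation k K K} (hD : DerReg P D)
    (hD' : DerReg P D') : DerReg P (D - D') := by
  intro f hf
  change P.Reg (D f - D' f)
  rw [sub_eq_add_neg]
  exact P.reg_add (hD f hf) (P.reg_neg (hD' f hf))

/-- regular vector fields in terms of logarithmic ones -/
theorem reg_to_log {w : ℕ} {P : Place k K} {D : Fin w → Derivation k K K}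
    (hD : ∀ i, DerReg P (D i)) : ∃ (M : Matrix (Fin w) (Fin w) K) (D' : Fin w → Derivation k K K),
      (∀ i, DerLog P (D' i)) ∧ (∀ i, D i = ∑ j, M i j • D' j) ∧ Ge P (-1) M.det := by
  classical
  obtain ⟨t, ht0, ht⟩ := P.surj
  have htr : P.Reg t := Or.inr (by rw [ht]; norm_num)
  by_cases hall : ∀ i, Ge P 1 (D i t)
  · refine ⟨1, D, fun i => log_of_reg (hD i) ht0 ht (hall i), fun i => ?_, ?_⟩
    · rw [Finset.sum_eq_single i]
      · rw [Matrix.one_apply_eq, one_smul]
      · intro j _ hj
        rw [Matrix.one_apply_ne hj.symm, zero_smul]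
      · simp
    · rw [Matrix.det_one]
      right
      rw [P.ord_one]
      norm_num
  · push Not at hall
    obtain ⟨i0, hi0⟩ := hall
    have hne : D i0 t ≠ 0 := fun h => hi0 (Or.inl h)
    have ho : P.ord (D i0 t) = 0 := by
      have h1 := (hD i0 t htr).resolve_left hne
      have h2 : ¬ 1 ≤ P.ord (D i0 t) := fun h => hi0 (Or.inr h)
      omega
    obtain ⟨c, hc⟩ : ∃ c : Fin w → K, ∀ i, c i = D i t / D i0 t := ⟨_, fun _ => rfl⟩
    have hcr : ∀ i, P.Reg (c i) := by
      intro i
      rw [hc, reg_iff_ge]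
      have := ge_div hne (hD i t htr)
      rwa [ho, sub_zero] at this
    have hc0 : c i0 = 1 := by rw [hc, div_self hne]
    obtain ⟨M, hM⟩ : ∃ M : Matrix (Fin w) (Fin w) K,
      M = (1 : Matrix (Fin w) (Fin w) K).updateCol i0 fun i => c i * t⁻¹ := ⟨_, rfl⟩
    refine ⟨M, fun i => if i = i0 then t • D i0 else D i - c i • D i0, fun i => ?_,
      fun i => ?_, ?_⟩
    · dsimp only
      split_ifs with hi
      · refine log_of_reg (derReg_smul (hD i0) htr) ht0 ht ?_
        rw [Derivation.smul_apply, smul_eq_mul]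
        right
        rw [P.ord_mul ht0 hne, ht, ho]
        norm_num
      · refine log_of_reg (derReg_sub (hD i) (derReg_smul (hD i0) (hcr i))) ht0 ht (Or.inl ?_)
        rw [Derivation.sub_apply, Derivation.smul_apply, smul_eq_mul, hc, div_mul_cancel₀ _ hne,
          sub_self]
    · rw [← Finset.add_sum_erase _ _ (Finset.mem_univ i0), hM, Matrix.updateCol_self]
      beta_reduce
      rw [if_pos rfl]
      have h1 : ∀ j ∈ Finset.univ.erase i0, (1 : Matrix (Fin w) (Fin w) K).updateCol i0
          (fun i => c i * t⁻¹) i j • (if j = i0 then t • D i0 else D j - c j • D i0) =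
            if i = j then D i - c i • D i0 else 0 := by
        intro j hj
        rw [Matrix.updateCol_ne (Finset.ne_of_mem_erase hj), Matrix.one_apply,
          if_neg (Finset.ne_of_mem_erase hj)]
        split_ifs with h
        · rw [one_smul, h]
        · rw [zero_smul]
      rw [Finset.sum_congr rfl h1, Finset.sum_ite_eq, smul_smul, mul_assoc,
        inv_mul_cancel₀ ht0, mul_one]
      by_cases hi : i = i0
      · rw [if_neg (by rw [hi]; exact Finset.notMem_erase _ _), hi, hc0, one_smul, add_zero]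
      · rw [if_pos (Finset.mem_erase.mpr ⟨hi, Finset.mem_univ _⟩)]
        abel
    · have h1 : M.det = t⁻¹ := by
        rw [hM]
        have h2 : (fun i => c i * t⁻¹) = t⁻¹ • c := by
          funext i
          rw [Pi.smul_apply, smul_eq_mul, mul_comm]
        rw [h2, Matrix.det_updateCol_smul]
        have h3 : ((1 : Matrix (Fin w) (Fin w) K).updateCol i0 c).det = c i0 := by
          rw [← Matrix.cramer_apply, Matrix.cramer_one]
          rfl
        rw [h3, hc0, mul_one]
      rw [h1]
      right
      rw [P.ord_inv, ht]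

end

/-- **Local coordinates at a divisorial place.** -/
theorem loc_data {F : Type} [Field F] [Algebra ℂ F] [Algebra.EssFiniteType ℂ F] {d : ℕ}
    (hd : Algebra.trdeg ℂ F = d) (t : Fin d → F)
    (v : Place ℂ F) (hv : Divisorial d v) :
    ∃ (y' s : Fin d → F) (i0 : Fin d) (T : Matrix (Fin d) (Fin d) F),
      (∀ r, s r ≠ 0) ∧
      (∀ (L : Type) [Field L] [Algebra ℂ L] [Algebra F L] [IsScalarTower ℂ F L]
        (D : Derivation ℂ L L) (r : Fin d), D (algebraMap F L (t r)) =
          ∑ r', algebraMap F L (T r r' * s r') *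
            (D (algebraMap F L (y' r')) / algebraMap F L (s r'))) ∧
      (∀ (L : Type) [Field L] [Algebra ℂ L] [Algebra F L] [IsScalarTower ℂ F L]
        (P : Place ℂ L) (e : ℕ), Over P v e → ∀ D : Derivation ℂ L L,
          (DerLog P D → ∀ r, Ge P 0 (D (algebraMap F L (y' r)) / algebraMap F L (s r))) ∧
          (DerReg P D → ∀ r, Ge P (if r = i0 then -1 else 0)
            (D (algebraMap F L (y' r)) / algebraMap F L (s r)))) ∧
      (∀ (m : ℕ) (δ : ℝ) (f : F), (∀ D : Fin d → Derivation ℂ F F, (∀ i, DerReg v (D i)) →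
          jac t D ^ m * f = 0 ∨ -(m * δ) ≤ (v.ord (jac t D ^ m * f) : ℝ)) →
        (T.det * ∏ r, s r) ^ m * f = 0 ∨
          m * (1 - δ) ≤ (v.ord ((T.det * ∏ r, s r) ^ m * f) : ℝ)) := by
  classical
  obtain ⟨y', E', i0, hb', hE', hi0, hy'r, hpres⟩ := Pool.Agent.W240.PG.Frame.main
    Pool.Agent.W762.PG.main ℂ F d hd (fun y hy => fin_adjoin y hy) v hv
  have h' : Dual y' E' := ⟨hb', hE'⟩
  have hy0 : y' i0 ≠ 0 := by
    intro h0
    rw [h0, v.ord_zero] at hi0
    omega
  obtain ⟨s, hs⟩ : ∃ s : Fin d → F, ∀ j, s j = if j = i0 then y' i0 else 1 :=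
    ⟨_, fun _ => rfl⟩
  have hs0 : ∀ j, s j ≠ 0 := by
    intro j
    rw [hs]
    split_ifs
    · exact hy0
    · exact one_ne_zero
  have hsp : ∏ j, s j = y' i0 := by
    simp only [hs]
    rw [Finset.prod_ite_eq' Finset.univ i0 (fun _ => y' i0), if_pos (Finset.mem_univ _)]
  refine ⟨y', s, i0, Matrix.of fun r r' => E' r' (t r), hs0, ?_, ?_, ?_⟩
  · intro L _ _ _ _ D r
    rw [h'.chain D (t r)]
    refine Finset.sum_congr rfl fun r' _ => ?_
    have h1 : algebraMap F L (s r') ≠ 0 := by simpa using hs0 r'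
    rw [Matrix.of_apply, map_mul]
    field_simp
  · intro L _ _ _ _ P e hov D
    have hreg : ∀ r, P.Reg (algebraMap F L (y' r)) := fun r => hov.reg.2 (hy'r r)
    have hy0L : algebraMap F L (y' i0) ≠ 0 := by simpa using hy0
    refine ⟨fun hD r => ?_, fun hD r => ?_⟩
    · rw [hs]
      split_ifs with hr
      · rw [hr]
        exact hD _
      · rw [map_one, div_one]
        exact ge_der_log hD (hreg r)
    · rw [hs]
      split_ifs with hr
      · rw [hr]
        have h1 := ge_der hD (ge_ord P (algebraMap F L (y' i0)))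
        have h2 := ge_div hy0L h1
        exact h2.mono (by omega)
      · rw [map_one, div_one]
        exact hD _ (hreg r)
  · intro m δ f hf
    have h1 := hf E' hpres
    have h2 : jac t E' = (Matrix.of fun r r' => E' r' (t r) : Matrix (Fin d) (Fin d) F).det := by
      unfold jac
      rw [← Matrix.det_transpose]
      rfl
    rw [h2] at h1
    rw [hsp]
    by_cases h0 : (Matrix.of fun r r' => E' r' (t r) : Matrix (Fin d) (Fin d) F).det ^ m * f = 0
    · left
      rw [mul_pow, mul_right_comm, h0, zero_mul]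
    · right
      have h3 := h1.resolve_left h0
      have h4 : ((Matrix.of fun r r' => E' r' (t r) : Matrix (Fin d) (Fin d) F).det *
          y' i0) ^ m * f = (Matrix.of fun r r' => E' r' (t r) :
            Matrix (Fin d) (Fin d) F).det ^ m * f * y' i0 ^ m := by ring
      rw [h4, v.ord_mul h0 (pow_ne_zero _ hy0), v.ord_pow, hi0]
      push_cast
      linarith

end Pool.Agent.Helper12.BL
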