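import Pool.Agent.Helper12.BL.Desc

/-!
Semistability of the conjugates of a matrix: it is enough to test rational subspaces.
-/

set_option autoImplicit false

open Module

namespace Pool.Agent.Helper12.BL

section

variable {K E : Type} [Field K] [Field E] [Algebra K E] {n : ℕ}

/-- the largest subspace with the largest defect is rational -/
theorem exists_rational [IsGalois K E] (ψ : Submodule E (Fin n → E) → ℤ) {B : ℤ} (hψb : ∀ U, ψ U ≤ B) (hsup : ∀ U U', ψ U + ψ U' ≤ ψ (U ⊔ U') + ψ (U ⊓ U'))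
    (hψt : ∀ (σ : E ≃ₐ[K] E) U, ψ (tw σ U) = ψ U) (U0 : Submodule E (Fin n → E))
    (h0 : 0 < ψ U0) : ∃ V : Submodule K (Fin n → K), 0 < ψ (ext E V) := by
  classical
  have hfr : ∀ U : Submodule E (Fin n → E), finrank E U ≤ n := by
    intro U
    have := Submodule.finrank_le U
    rwa [Module.finrank_fintype_fun_eq_card, Fintype.card_fin] at this
  obtain ⟨f, hf⟩ : ∃ f : Submodule E (Fin n → E) → ℤ, ∀ U, f U = ψ U * (n + 1) + finrank E U :=
    ⟨_, fun _ => rfl⟩
  obtain ⟨M, ⟨U, hUM⟩, hmax⟩ := Int.exists_greatest_of_bdd (P := fun v => ∃ U, f U = v)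
    ⟨B * (n + 1) + n, by
      rintro _ ⟨U, rfl⟩
      rw [hf]
      have h1 := hψb U
      have h2 : (finrank E U : ℤ) ≤ n := by exact_mod_cast hfr U
      have h3 : ψ U * (n + 1) ≤ B * (n + 1) :=
        mul_le_mul_of_nonneg_right h1 (by positivity)
      linarith⟩ ⟨_, ⊥, rfl⟩
  have hmax' : ∀ U', f U' ≤ f U := by
    intro U'
    rw [hUM]
    exact hmax _ ⟨U', rfl⟩
  have hlex : ∀ U', f U' = f U → ψ U' = ψ U ∧ finrank E U' = finrank E U := by
    intro U' h1
    rw [hf, hf] at h1
    have h2 : (finrank E U : ℤ) ≤ n := by exact_mod_cast hfr U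
    have h3 : (finrank E U' : ℤ) ≤ n := by exact_mod_cast hfr U'
    have h4 : (0 : ℤ) ≤ finrank E U := by positivity
    have h5 : (0 : ℤ) ≤ finrank E U' := by positivity
    have h6 : ψ U' = ψ U := by
      by_contra hne
      rcases lt_or_gt_of_ne hne with h7 | h7
      · nlinarith
      · nlinarith
    refine ⟨h6, ?_⟩
    rw [h6] at h1
    have h7 : (finrank E U' : ℤ) = finrank E U := by linarith
    exact_mod_cast h7
  have huniq : ∀ U', f U' = f U → U' = U := by
    intro U' h1
    have h2 : f U + f U' ≤ f (U ⊔ U') + f (U ⊓ U') := by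
      have h3 := hsup U U'
      have h4 : (finrank E (U ⊔ U' : Submodule E (Fin n → E)) : ℤ) +
        finrank E (U ⊓ U' : Submodule E (Fin n → E)) = finrank E U + finrank E U' := by
        exact_mod_cast Submodule.finrank_sup_add_finrank_inf_eq U U'
      simp only [hf]
      nlinarith
    have h3 : f (U ⊔ U') = f U := by
      have h4 := hmax' (U ⊔ U')
      have h5 := hmax' (U ⊓ U')
      linarith
    have h4 := (hlex _ h3).2
    have h5 : U = U ⊔ U' := Submodule.eq_of_le_of_finrank_eq le_sup_left h4.symm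
    have h6 : U' ≤ U := by
      rw [h5]
      exact le_sup_right
    exact Submodule.eq_of_le_of_finrank_eq h6 (hlex _ h1).2
  have htw : ∀ σ : E ≃ₐ[K] E, tw σ U = U := by
    intro σ
    apply huniq
    rw [hf, hf, hψt, finrank_tw]
  have hdesc : ext E (pts (K := K) U) = U :=
    le_antisymm (ext_pts_le U) (descent n U (hfr U) fun σ => (htw σ).ge)
  refine ⟨pts (K := K) U, ?_⟩
  rw [hdesc]
  by_contra h2
  have h3 := hmax' U0
  rw [hf, hf] at h3
  have h4 : (finrank E U : ℤ) ≤ n := by exact_mod_cast hfr U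
  have h5 : (0 : ℤ) ≤ finrank E U0 := by positivity
  nlinarith

/-- conjugation of the image -/
theorem map_tw' {d : ℕ} (M : Matrix (Fin d) (Fin n) E) (τ : E ≃ₐ[K] E)
    (U : Submodule E (Fin n → E)) :
    (tw τ U).map M.mulVecLin = tw τ (U.map (M.map τ).mulVecLin) := by
  have key : ∀ (v : Fin n → E),
      (fun r => τ (M.mulVec v r)) = (M.map τ).mulVec (fun i => τ (v i)) := by
    intro v
    funext r
    simp only [Matrix.mulVec, dotProduct, map_sum, map_mul, Matrix.map_apply]
  ext w
  constructor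
  · rintro ⟨v, hv, rfl⟩
    rw [mem_tw]
    refine ⟨fun i => τ (v i), hv, ?_⟩
    exact (key v).symm
  · intro hw
    rw [mem_tw] at hw
    obtain ⟨u, hu, hu2⟩ := hw
    have e1 : (fun i => τ (τ.symm (u i))) = u := by
      funext i
      simp
    refine ⟨fun i => τ.symm (u i), ?_, ?_⟩
    · change (fun i => τ (τ.symm (u i))) ∈ U
      rw [e1]
      exact hu
    · have h1 := key fun i => τ.symm (u i)
      rw [e1] at h1
      rw [Matrix.mulVecLin_apply] at hu2 ⊢
      rw [hu2] at h1
      funext r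
      exact τ.injective (congrFun h1 r)

theorem tw_ext (σ : E ≃ₐ[K] E) (V : Submodule K (Fin n → K)) : tw σ (ext E V) = ext E V := by
  have key : ∀ τ : E ≃ₐ[K] E, ext E V ≤ tw τ (ext E V) := by
    intro τ
    unfold ext
    rw [Submodule.span_le]
    rintro _ ⟨v, hv, rfl⟩
    change (fun i => τ ((algebraMap K E ∘ v) i)) ∈ Submodule.span E
      ((fun v : Fin n → K => (algebraMap K E) ∘ v) '' (V : Set (Fin n → K)))
    have h1 : (fun i => τ ((algebraMap K E ∘ v) i)) = algebraMap K E ∘ v := by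
      funext i
      simp
    rw [h1]
    exact Submodule.subset_span ⟨v, hv, rfl⟩
  apply (Submodule.eq_of_le_of_finrank_eq (key σ) _).symm
  rw [finrank_tw]

/-- **Semistability of the conjugates of a matrix.** -/
theorem semi_orbit [FiniteDimensional K E] [IsGalois K E] {d : ℕ} (J : Matrix (Fin d) (Fin n) E)
    (hJ : ∀ V : Submodule K (Fin n → K),
      d * finrank K V ≤ n * finrank E ((ext E V).map J.mulVecLin)) :
    Semi (fun _ : E ≃ₐ[K] E => n) (d * Fintype.card (E ≃ₐ[K] E))
      (fun σ : E ≃ₐ[K] E => (J.map σ).mulVecLin) := by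
  classical
  have hext : ∀ (σ : E ≃ₐ[K] E) (V : Submodule K (Fin n → K)),
      finrank E ((ext E V).map (J.map σ).mulVecLin) = finrank E ((ext E V).map J.mulVecLin) := by
    intro σ V
    have h1 := map_tw' J σ (ext E V)
    rw [tw_ext] at h1
    rw [h1, finrank_tw]
  have hle : ∀ U : Submodule E (Fin n → E), d * Fintype.card (E ≃ₐ[K] E) * finrank E U ≤
      ∑ σ : E ≃ₐ[K] E, n * finrank E (U.map (J.map σ).mulVecLin) := by
    by_contra hcon
    push Not at hcon
    obtain ⟨U0, hU0⟩ := hcon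
    obtain ⟨ψ, hψ⟩ : ∃ ψ : Submodule E (Fin n → E) → ℤ, ∀ U, ψ U =
        (d * Fintype.card (E ≃ₐ[K] E) : ℕ) * finrank E U -
        ∑ σ : E ≃ₐ[K] E, (n : ℤ) * finrank E (U.map (J.map σ).mulVecLin) :=
      ⟨_, fun _ => rfl⟩
    have hfr : ∀ U : Submodule E (Fin n → E), finrank E U ≤ n := by
      intro U
      have := Submodule.finrank_le U
      rwa [Module.finrank_fintype_fun_eq_card, Fintype.card_fin] at this
    have hψb : ∀ U, ψ U ≤ (d * Fintype.card (E ≃ₐ[K] E) : ℕ) * n := by
      intro U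
      rw [hψ]
      have h1 : (0 : ℤ) ≤ ∑ σ : E ≃ₐ[K] E, (n : ℤ) *
          finrank E (U.map (J.map σ).mulVecLin) :=
        Finset.sum_nonneg fun i _ => by positivity
      have h2 : ((d * Fintype.card (E ≃ₐ[K] E) : ℕ) : ℤ) * finrank E U ≤
          (d * Fintype.card (E ≃ₐ[K] E) : ℕ) * n :=
        mul_le_mul_of_nonneg_left (by exact_mod_cast hfr U) (by positivity)
      linarith
    have hsup : ∀ U U', ψ U + ψ U' ≤ ψ (U ⊔ U') + ψ (U ⊓ U') := by
      intro U U'
      simp only [hψ]
      have h1 : (finrank E (U ⊔ U' : Submodule E (Fin n → E)) : ℤ) +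
          finrank E (U ⊓ U' : Submodule E (Fin n → E)) = finrank E U + finrank E U' := by
        exact_mod_cast Submodule.finrank_sup_add_finrank_inf_eq U U'
      have h2 : ∀ σ : E ≃ₐ[K] E, (finrank E ((U ⊔ U').map (J.map σ).mulVecLin) : ℤ) +
          finrank E ((U ⊓ U').map (J.map σ).mulVecLin) ≤
          finrank E (U.map (J.map σ).mulVecLin) +
          finrank E (U'.map (J.map σ).mulVecLin) := by
        intro σ
        have h3 := Submodule.finrank_sup_add_finrank_inf_eq
          (U.map (J.map σ).mulVecLin) (U'.map (J.map σ).mulVecLin)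
        rw [← Submodule.map_sup] at h3
        have h4 : finrank E ((U ⊓ U').map (J.map σ).mulVecLin) ≤
            finrank E (U.map (J.map σ).mulVecLin ⊓ U'.map (J.map σ).mulVecLin :
                Submodule E (Fin d → E)) :=
          Submodule.finrank_mono (Submodule.map_inf_le _)
        have h5 : finrank E ((U ⊔ U').map (J.map σ).mulVecLin) +
          finrank E ((U ⊓ U').map (J.map σ).mulVecLin) ≤
          finrank E (U.map (J.map σ).mulVecLin) +
          finrank E (U'.map (J.map σ).mulVecLin) := by omega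
        exact_mod_cast h5
      have h6 : ∑ σ : E ≃ₐ[K] E, ((n : ℤ) * finrank E ((U ⊔ U').map (J.map σ).mulVecLin)) +
          ∑ σ : E ≃ₐ[K] E, ((n : ℤ) * finrank E ((U ⊓ U').map (J.map σ).mulVecLin)) ≤
          ∑ σ : E ≃ₐ[K] E, ((n : ℤ) * finrank E (U.map (J.map σ).mulVecLin)) +
          ∑ σ : E ≃ₐ[K] E, ((n : ℤ) * finrank E (U'.map (J.map σ).mulVecLin)) := by
        rw [← Finset.sum_add_distrib, ← Finset.sum_add_distrib]
        refine Finset.sum_le_sum fun i _ => ?_
        rw [← mul_add, ← mul_add]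
        exact mul_le_mul_of_nonneg_left (h2 i) (by positivity)
      have h7 : ((d * Fintype.card (E ≃ₐ[K] E) : ℕ) : ℤ) *
            finrank E (U ⊔ U' : Submodule E (Fin n → E)) +
          (d * Fintype.card (E ≃ₐ[K] E) : ℕ) * finrank E (U ⊓ U' : Submodule E (Fin n → E)) =
          (d * Fintype.card (E ≃ₐ[K] E) : ℕ) * finrank E U +
          (d * Fintype.card (E ≃ₐ[K] E) : ℕ) * finrank E U' := by
        rw [← mul_add, h1, mul_add]
      linarith
    have hψt : ∀ (τ : E ≃ₐ[K] E) U, ψ (tw τ U) = ψ U := by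
      intro τ U
      rw [hψ, hψ, finrank_tw]
      congr 1
      have e1 : ∀ σ : E ≃ₐ[K] E, finrank E ((tw τ U).map (J.map σ).mulVecLin) =
          finrank E (U.map (J.map (τ * σ : E ≃ₐ[K] E)).mulVecLin) := by
        intro σ
        rw [map_tw', finrank_tw]
        rfl
      simp only [e1]
      exact Fintype.sum_equiv (Equiv.mulLeft τ) _ _ fun σ => rfl
    have hpos : 0 < ψ U0 := by
      rw [hψ]
      have h2 : ((∑ σ : E ≃ₐ[K] E, n * finrank E (U0.map (J.map σ).mulVecLin) : ℕ) : ℤ) <
          ((d * Fintype.card (E ≃ₐ[K] E) * finrank E U0 : ℕ) : ℤ) := by exact_mod_cast hU0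
      push_cast at h2 ⊢
      linarith
    obtain ⟨V, hV⟩ := exists_rational ψ hψb hsup hψt U0 hpos
    rw [hψ, finrank_ext] at hV
    simp only [hext] at hV
    rw [Finset.sum_const, Finset.card_univ, nsmul_eq_mul] at hV
    have h1 := Nat.mul_le_mul_left (Fintype.card (E ≃ₐ[K] E)) (hJ V)
    have h2 : ((Fintype.card (E ≃ₐ[K] E) * (d * finrank K V) : ℕ) : ℤ) ≤
      ((Fintype.card (E ≃ₐ[K] E) * (n * finrank E ((ext E V).map J.mulVecLin)) : ℕ) : ℤ) := by
      exact_mod_cast h1
    push_cast at h2 hV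
    nlinarith
  refine ⟨hle, le_antisymm ?_ ?_⟩
  · have h1 := hle ⊤
    rwa [finrank_top] at h1
  · have h1 : ∀ σ : E ≃ₐ[K] E, finrank E ((⊤ : Submodule E (Fin n → E)).map
        (J.map σ).mulVecLin) ≤ d := by
      intro σ
      refine (Submodule.finrank_le _).trans ?_
      rw [Module.finrank_fin_fun]
    refine (Finset.sum_le_sum fun σ _ => Nat.mul_le_mul_left n (h1 σ)).trans ?_
    rw [Module.finrank_fin_fun, Finset.sum_const, Finset.card_univ, smul_eq_mul]
    apply le_of_eq
    ring

end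

end Pool.Agent.Helper12.BL
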