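import Pool.Agent.Helper12.BL.Trd

/-!
Pivot columns.
-/

set_option autoImplicit false

open Module

namespace Pool.Agent.Helper12.BL

theorem exists_pivot {K V m : Type} [Field K] [AddCommGroup V] [Module K V] [Fintype m]
    (v : m → V) (S0 : Finset m) (h0 : LinearIndepOn K v (S0 : Set m)) :
    ∃ P : Finset m, S0 ⊆ P ∧ LinearIndepOn K v (P : Set m) ∧
      (∀ i, ∃ c : m → K, ∑ j ∈ P, c j • v j = v i) ∧
      P.card = finrank K (Submodule.span K (Set.range v)) := by
  classical
  obtain ⟨b, -, hb1, hb2, hb3⟩ := exists_linearIndepOn_extension h0 (Set.subset_univ _)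
  have hfin : b.Finite := Set.toFinite b
  refine ⟨hfin.toFinset, ?_, ?_, ?_, ?_⟩
  · intro i hi
    rw [Set.Finite.mem_toFinset]
    exact hb1 hi
  · rwa [Set.Finite.coe_toFinset]
  · intro i
    rw [← Submodule.mem_span_image_finset_iff_exists_fun', Set.Finite.coe_toFinset]
    exact hb2 ⟨i, Set.mem_univ _, rfl⟩
  · have h1 : Submodule.span K (Set.range v) = Submodule.span K (v '' b) := by
      apply le_antisymm
      · rw [Submodule.span_le]
        rw [← Set.image_univ]
        exact hb2
      · exact Submodule.span_mono (Set.image_subset_range _ _)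
    rw [h1]
    have : Fintype b := hfin.fintype
    have h2 : v '' b = Set.range (fun i : b => v i) := by
      rw [Set.image_eq_range]
    rw [h2, finrank_span_eq_card (hb3 : LinearIndependent K (fun i : b => v i))]
    rw [Set.Finite.card_toFinset]

/-- If a matrix with entries in a subfield kills a vector, then the coordinates at the pivot
columns are determined by the others. -/
theorem pivot {L Ω : Type} [Field L] [Field Ω] [Algebra L Ω] {d B : ℕ}
    (Q : Matrix (Fin d) (Fin B) L) :
    ∃ P : Finset (Fin B), P.card = (Q.map (algebraMap L Ω)).rank ∧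
      ∀ y : Fin B → Ω, (Q.map (algebraMap L Ω)).mulVec y = 0 → ∀ m ∈ P, ∃ e : Fin B → L,
        y m = ∑ m' ∈ Pᶜ, algebraMap L Ω (e m') * y m' := by
  classical
  obtain ⟨P, -, hP1, hP2, hP3⟩ := exists_pivot (K := L) (fun m => Q.transpose m) ∅ (by simp)
  choose c hc using hP2
  have hind : LinearIndepOn Ω (fun m => (Q.map (algebraMap L Ω)).transpose m) (P : Set (Fin B)) := by
    have h1 := (linearIndependent_algebraMap_comp_iff (S := Ω)).2
      (hP1 : LinearIndependent L (fun m : (P : Set (Fin B)) => Q.transpose m))
    exact h1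
  have hcΩ : ∀ i, (Q.map (algebraMap L Ω)).transpose i =
      ∑ j ∈ P, algebraMap L Ω (c i j) • (Q.map (algebraMap L Ω)).transpose j := by
    intro i
    funext r
    have h1 := congrFun (hc i) r
    rw [Finset.sum_apply] at h1 ⊢
    have h2 := congrArg (algebraMap L Ω) h1
    rw [map_sum] at h2
    rw [Matrix.transpose_apply, Matrix.map_apply]
    rw [Matrix.transpose_apply] at h2
    rw [← h2]
    refine Finset.sum_congr rfl fun j _ => ?_
    rw [Pi.smul_apply, Pi.smul_apply, smul_eq_mul, smul_eq_mul, map_mul]
    rfl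
  refine ⟨P, ?_, ?_⟩
  · rw [Matrix.rank_eq_finrank_span_cols]
    have h1 : Submodule.span Ω (Set.range (Q.map (algebraMap L Ω)).col) =
        Submodule.span Ω ((fun m => (Q.map (algebraMap L Ω)).transpose m) '' (P : Set (Fin B))) := by
      apply le_antisymm
      · rw [Submodule.span_le]
        rintro _ ⟨i, rfl⟩
        have h2 : (Q.map (algebraMap L Ω)).col i = (Q.map (algebraMap L Ω)).transpose i := rfl
        rw [h2, hcΩ]
        exact Submodule.sum_mem _ fun j hj => Submodule.smul_mem _ _
          (Submodule.subset_span ⟨j, hj, rfl⟩)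
      · refine Submodule.span_mono ?_
        rintro _ ⟨j, -, rfl⟩
        exact ⟨j, rfl⟩
    rw [h1, Set.image_eq_range]
    have h3 := finrank_span_eq_card (hind : LinearIndependent Ω
      (fun m : (P : Set (Fin B)) => (Q.map (algebraMap L Ω)).transpose m))
    rw [h3]
    simp
  · intro y hy m hm
    have h1 : ∑ j ∈ P, (y j + ∑ m' ∈ Pᶜ, algebraMap L Ω (c m' j) * y m') •
        (Q.map (algebraMap L Ω)).transpose j = 0 := by
      have h2 : ∑ m', y m' • (Q.map (algebraMap L Ω)).transpose m' = 0 := by
        funext r
        rw [Finset.sum_apply]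
        have h3 := congrFun hy r
        rw [Matrix.mulVec, dotProduct] at h3
        rw [← h3]
        refine Finset.sum_congr rfl fun m' _ => ?_
        rw [Pi.smul_apply, smul_eq_mul, mul_comm]
        rfl
      rw [← Finset.sum_add_sum_compl P] at h2
      rw [← h2]
      have h4 : ∑ m' ∈ Pᶜ, y m' • (Q.map (algebraMap L Ω)).transpose m' =
          ∑ j ∈ P, (∑ m' ∈ Pᶜ, algebraMap L Ω (c m' j) * y m') •
            (Q.map (algebraMap L Ω)).transpose j := by
        simp only [Finset.sum_smul]
        rw [Finset.sum_comm]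
        refine Finset.sum_congr rfl fun m' _ => ?_
        rw [hcΩ m', Finset.smul_sum]
        refine Finset.sum_congr rfl fun j _ => ?_
        rw [smul_smul, mul_comm]
      rw [h4, ← Finset.sum_add_distrib]
      refine Finset.sum_congr rfl fun j _ => ?_
      rw [add_smul]
    have h5 := (linearIndepOn_finset_iff.1 hind) _ h1 m hm
    refine ⟨fun m' => - c m' m, ?_⟩
    rw [add_eq_zero_iff_eq_neg] at h5
    rw [h5, ← Finset.sum_neg_distrib]
    refine Finset.sum_congr rfl fun m' _ => ?_
    rw [map_neg, neg_mul]

end Pool.Agent.Helper12.BL
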