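import Pool.Agent.Helper12.BL.Loc
import Pool.Agent.Helper12.BL.Orb

/-!
Bounds with real exponents, contents, and places of finite extensions.
-/

set_option autoImplicit false

open Module FF Pool.Agent.W602.GT Pool.Agent.W603.LV Pool.Agent.TH143.GT Pool.Agent.Y220.OG

namespace Pool.Agent.Helper12.BL

section

variable {k K : Type} [Field k] [Field K] [Algebra k K]

/-- the order of `f` is at least the real number `c` -/
def GeR (P : Place k K) (c : ℝ) (f : K) : Prop := f = 0 ∨ c ≤ (P.ord f : ℝ)

namespace GeR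

variable {P : Place k K} {c c' : ℝ} {f g : K}

theorem zero : GeR P c 0 := Or.inl rfl

theorem mono (h : c' ≤ c) (hf : GeR P c f) : GeR P c' f := by
  rcases hf with hf | hf
  · exact Or.inl hf
  · exact Or.inr (h.trans hf)

theorem of_ge {N : ℤ} (h : Ge P N f) : GeR P N f := by
  rcases h with h | h
  · exact Or.inl h
  · exact Or.inr (by exact_mod_cast h)

theorem add (hf : GeR P c f) (hg : GeR P c g) : GeR P c (f + g) := by
  by_cases h1 : f = 0
  · rwa [h1, zero_add]
  by_cases h2 : g = 0
  · rwa [h2, add_zero]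
  by_cases h3 : f + g = 0
  · exact Or.inl h3
  · right
    have h4 := P.ord_add h1 h2 h3
    have h5 : ((min (P.ord f) (P.ord g) : ℤ) : ℝ) ≤ P.ord (f + g) := by exact_mod_cast h4
    have h6 : c ≤ ((min (P.ord f) (P.ord g) : ℤ) : ℝ) := by
      rw [Int.cast_min]
      exact le_min (hf.resolve_left h1) (hg.resolve_left h2)
    exact h6.trans h5

theorem mul (hf : GeR P c f) (hg : GeR P c' g) : GeR P (c + c') (f * g) := by
  by_cases h1 : f = 0
  · left; simp [h1]
  by_cases h2 : g = 0
  · left; simp [h2]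
  right
  rw [P.ord_mul h1 h2]
  push_cast
  exact add_le_add (hf.resolve_left h1) (hg.resolve_left h2)

theorem sum {ι : Type*} (s : Finset ι) (F : ι → K) (h : ∀ i ∈ s, GeR P c (F i)) :
    GeR P c (∑ i ∈ s, F i) := by
  classical
  induction s using Finset.induction_on with
  | empty => simpa using GeR.zero (P := P)
  | insert a s ha ih =>
    rw [Finset.sum_insert ha]
    exact (h a (Finset.mem_insert_self a s)).add (ih fun i hi => h i (Finset.mem_insert_of_mem hi))

theorem one : GeR P 0 (1 : K) := by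
  right
  rw [P.ord_one]
  simp

theorem prod {ι : Type*} (s : Finset ι) (F : ι → K) (n : ι → ℝ) (h : ∀ i ∈ s, GeR P (n i) (F i)) :
    GeR P (∑ i ∈ s, n i) (∏ i ∈ s, F i) := by
  classical
  induction s using Finset.induction_on with
  | empty => simpa using GeR.one (P := P)
  | insert a s ha ih =>
    rw [Finset.prod_insert ha, Finset.sum_insert ha]
    exact (h a (Finset.mem_insert_self a s)).mul (ih fun i hi => h i (Finset.mem_insert_of_mem hi))

theorem pow (hf : GeR P c f) (m : ℕ) : GeR P (m * c) (f ^ m) := by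
  have h := GeR.prod (P := P) (Finset.range m) (fun _ => f) (fun _ => c) fun _ _ => hf
  simpa using h

end GeR

theorem ger_det (P : Place k K) {m : Type} [Fintype m] [DecidableEq m] (M : Matrix m m K)
    (c β : m → ℝ) (h : ∀ i j, GeR P (c i + β j) (M i j)) :
    GeR P (∑ i, c i + ∑ j, β j) M.det := by
  classical
  rw [Matrix.det_apply']
  refine GeR.sum _ _ fun σ _ => ?_
  have h0 : GeR P 0 (((Equiv.Perm.sign σ : ℤˣ) : ℤ) : K) := by
    have := GeR.of_ge (Ge.intCast (P := P) ((Equiv.Perm.sign σ : ℤˣ) : ℤ))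
    simpa using this
  have h1 := h0.mul (GeR.prod Finset.univ (fun i => M (σ i) i) (fun i => c (σ i) + β i)
    (fun i _ => h _ _))
  rw [zero_add, Finset.sum_add_distrib, Equiv.sum_comp σ] at h1
  exact h1

/-- lower bound for the order of the determinant -/
theorem ger_bdet {ι : Type} [Fintype ι] {n B : ℕ} {d s : ι → ℕ} (P : Place k K)
    (e : Fin n × Fin B ≃ (Σ q : (Σ i, Fin (s i)), Fin (d q.1)))
    (x : (Σ i, Fin (s i)) × Fin B → k) (W : ∀ i, Matrix (Fin (d i)) (Fin n) K)
    (c : ∀ i, Fin (d i) → ℝ) (β : Fin n → ℝ) (h : ∀ i r l, GeR P (c i r + β l) (W i r l)) :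
    GeR P (∑ i, (s i : ℝ) * ∑ r, c i r + B * ∑ l, β l)
      (bdet e (fun q => algebraMap k K (x q)) W) := by
  classical
  have h1 := ger_det P ((big (fun q => algebraMap k K (x q)) W).submatrix e id)
    (fun p => c (e p).1.1 (e p).2) (fun p => β p.1) (fun p p' => by
      rw [Matrix.submatrix_apply]
      change GeR P _ (algebraMap k K _ * W _ _ _)
      have h0 := GeR.of_ge (Ge.const (P := P) (x ((e p).1, (id p').2)))
      have h2 := h0.mul (h (e p).1.1 (e p).2 (id p').1)
      have e1 : ((0 : ℤ) : ℝ) + (c (e p).1.1 (e p).2 + β (id p').1) =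
          c (e p).1.1 (e p).2 + β p'.1 := by
        push_cast
        rw [zero_add]
        rfl
      rwa [e1] at h2)
  have h2 : ∑ p, c (e p).1.1 (e p).2 = ∑ i, (s i : ℝ) * ∑ r, c i r := by
    rw [Equiv.sum_comp e (fun q => c q.1.1 q.2), Fintype.sum_sigma, Fintype.sum_sigma]
    refine Finset.sum_congr rfl fun i _ => ?_
    change ∑ _x : Fin (s i), ∑ r, c i r = _
    rw [Finset.sum_const, Finset.card_univ, Fintype.card_fin, nsmul_eq_mul]
  have h3 : ∑ p : Fin n × Fin B, β p.1 = B * ∑ l, β l := by
    rw [Fintype.sum_prod_type, Finset.mul_sum]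
    refine Finset.sum_congr rfl fun l _ => ?_
    change ∑ _y : Fin B, β l = _
    rw [Finset.sum_const, Finset.card_univ, Fintype.card_fin, nsmul_eq_mul]
  rw [h2, h3] at h1
  exact h1

/-- a maximal minor of smallest weighted order, and the corresponding factorisation -/
theorem content (Q : Place k K) {d n : ℕ} (J : Matrix (Fin d) (Fin n) K)
    (hJ : ∃ I : Fin d → Fin n, (J.submatrix id I).det ≠ 0) (i0 : Fin n) (t : ℝ) :
    ∃ (I : Fin d → Fin n) (W : Matrix (Fin d) (Fin n) K), (J.submatrix id I).det ≠ 0 ∧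
      J = J.submatrix id I * W ∧
      ∀ r l, GeR Q ((if I r = i0 then t else 0) + (-(if l = i0 then t else 0))) (W r l) := by
  classical
  obtain ⟨w, hw⟩ : ∃ w : (Fin d → Fin n) → ℝ, ∀ I, w I =
      Q.ord (J.submatrix id I).det + ∑ r, (if I r = i0 then t else 0) := ⟨_, fun _ => rfl⟩
  obtain ⟨I, hI, hmin⟩ := Finset.exists_min_image
    (Finset.univ.filter fun I : Fin d → Fin n => (J.submatrix id I).det ≠ 0) w (by
      obtain ⟨I, hI⟩ := hJ
      exact ⟨I, by simp [hI]⟩)
  rw [Finset.mem_filter] at hI
  obtain ⟨T, hT⟩ : ∃ T, T = J.submatrix id I := ⟨_, rfl⟩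
  have hT0 : T.det ≠ 0 := by
    rw [hT]
    exact hI.2
  obtain ⟨W, hW⟩ : ∃ W : Matrix (Fin d) (Fin n) K, ∀ r l, W r l =
      (J.submatrix id (Function.update I r l)).det / T.det :=
    ⟨Matrix.of fun r l => (J.submatrix id (Function.update I r l)).det / T.det,
      fun _ _ => rfl⟩
  have hcr : ∀ r l, (J.submatrix id (Function.update I r l)).det =
      Matrix.cramer T (fun k => J k l) r := by
    intro r l
    rw [Matrix.cramer_apply, hT]
    congr 1
    ext k r'
    by_cases h : r' = r
    · subst h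
      simp
    · simp [h]
  refine ⟨I, W, hI.2, ?_, fun r l => ?_⟩
  · ext k l
    rw [← hT, Matrix.mul_apply]
    have h1 := congrFun (Matrix.mulVec_cramer T (fun k => J k l)) k
    rw [Matrix.mulVec, dotProduct, Pi.smul_apply, smul_eq_mul] at h1
    have h2 : ∑ r, T k r * W r l = (∑ r, T k r * Matrix.cramer T (fun k => J k l) r) / T.det := by
      rw [Finset.sum_div]
      refine Finset.sum_congr rfl fun r _ => ?_
      rw [hW, hcr, mul_div_assoc]
    rw [h2, h1, mul_div_cancel_left₀ _ hT0]
  · rw [hW]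
    by_cases h0 : (J.submatrix id (Function.update I r l)).det = 0
    · left
      rw [h0, zero_div]
    right
    have h1 := hmin (Function.update I r l) (Finset.mem_filter.2 ⟨Finset.mem_univ _, h0⟩)
    rw [hw, hw, ← hT] at h1
    have h2 : ∑ r', (if Function.update I r l r' = i0 then t else 0) =
        (if l = i0 then t else 0) +
          ∑ r' ∈ Finset.univ.erase r, (if I r' = i0 then t else 0) := by
      rw [← Finset.add_sum_erase _ _ (Finset.mem_univ r), Function.update_self]
      congr 1
      refine Finset.sum_congr rfl fun r' hr' => ?_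
      rw [Function.update_of_ne (Finset.ne_of_mem_erase hr')]
    have h3 : ∑ r', (if I r' = i0 then t else 0) =
        (if I r = i0 then t else 0) +
          ∑ r' ∈ Finset.univ.erase r, (if I r' = i0 then t else 0) := by
      rw [← Finset.add_sum_erase _ _ (Finset.mem_univ r)]
    rw [h2, h3] at h1
    rw [Q.ord_div h0 hT0]
    push_cast
    linarith

/-- places of finite extensions -/
theorem exists_above {L : Type} [Field L] [Algebra k L] [Algebra K L] [IsScalarTower k K L]
    [CharZero k] [FiniteDimensional K L] (q : Place k K) :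
    ∃ (w : Place k L) (e : ℕ), Over w q e := by
  classical
  by_contra hcon
  push Not at hcon
  obtain ⟨t, ht0, ht⟩ := q.surj
  let iA : Algebra q.O L := Pool.Agent.W619.PQ.algO q
  have h1 : IsIntegral q.O (algebraMap K L t⁻¹) :=
    Pool.Agent.W619.PQ.isIntegral_of_reg q _ fun w e hwe => absurd hwe (hcon w e)
  have h3 : IsScalarTower q.O K L := IsScalarTower.of_algebraMap_eq fun _ => rfl
  have h2 : IsIntegral q.O (t⁻¹) :=
    (isIntegral_algebraMap_iff (algebraMap K L).injective).1 h1
  have : IsDiscreteValuationRing q.O := q.isDVR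
  obtain ⟨a, ha⟩ := IsIntegrallyClosed.isIntegral_iff.1 h2
  have h4 : q.Reg (t⁻¹) := by
    rw [← ha]
    exact a.2
  have h5 := (q.reg_iff (inv_ne_zero ht0)).1 h4
  rw [q.ord_inv, ht] at h5
  omega

end

end Pool.Agent.Helper12.BL
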