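import Pool.Agent.Helper12.BL.Wts

/-!
Sections of the pairs on the subfields, and the products of their coordinates.
-/

set_option autoImplicit false

open Module FF Pool.Agent.W602.GT Pool.Agent.W603.LV Pool.Agent.TH143.GT Pool.Agent.Y220.OG

namespace Pool.Agent.Helper12.BL

section

variable {F : Type} [Field F] [Algebra ℂ F] {d : ℕ}

/-- `g` is the coordinate of a section of `N (K_Y + Δ)` -/
def Sec (t : Fin d → F) (Y : Set (Place ℂ F)) (δ : Place ℂ F → ℝ) (N : ℕ) (g : F) : Prop :=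
  ∀ v ∈ Y, Divisorial d v → ∀ D : Fin d → Derivation ℂ F F, (∀ j, DerReg v (D j)) →
    jac t D ^ N * g = 0 ∨ -((N : ℝ) * δ v) ≤ (v.ord (jac t D ^ N * g) : ℝ)

variable {t : Fin d → F} {Y : Set (Place ℂ F)} {δ : Place ℂ F → ℝ}

theorem Sec.one : Sec t Y δ 0 1 := by
  intro v _ _ D _
  right
  rw [pow_zero, one_mul, v.ord_one]
  simp

theorem Sec.mul {N M : ℕ} {g g' : F} (h : Sec t Y δ N g) (h' : Sec t Y δ M g') :
    Sec t Y δ (N + M) (g * g') := by
  intro v hv hd D hD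
  have h1 := h v hv hd D hD
  have h2 := h' v hv hd D hD
  have e : jac t D ^ (N + M) * (g * g') = (jac t D ^ N * g) * (jac t D ^ M * g') := by ring
  rw [e]
  by_cases h3 : jac t D ^ N * g = 0
  · left
    rw [h3, zero_mul]
  by_cases h4 : jac t D ^ M * g' = 0
  · left
    rw [h4, mul_zero]
  right
  rw [v.ord_mul h3 h4]
  have h5 := h1.resolve_left h3
  have h6 := h2.resolve_left h4
  push_cast
  linarith

theorem Sec.pow {N : ℕ} {g : F} (h : Sec t Y δ N g) (j : ℕ) : Sec t Y δ (j * N) (g ^ j) := by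
  induction j with
  | zero =>
    rw [zero_mul, pow_zero]
    exact Sec.one
  | succ j ih =>
    rw [pow_succ, Nat.succ_mul]
    exact ih.mul h

/-- the value of a pluricanonical form in coordinates -/
theorem pluri_coord (ht : IsTranscendenceBasis ℂ t) :
    ∃ E : Fin d → Derivation ℂ F F, ∀ (N : ℕ) (ω : (Fin d → Derivation ℂ F F) → F),
      IsPluri N ω → ∀ D, ω D = jac t D ^ N * ω E := by
  classical
  have hex : ∀ i : Fin d, ∃ D : Derivation ℂ F F, ∀ j, D (t j) = if i = j then 1 else 0 :=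
    fun i => exists_der t ht _
  choose E hE using hex
  refine ⟨E, fun N ω hω D => ?_⟩
  have h1 : D = fun i => ∑ j, (Matrix.of fun i j => D i (t j)) i j • E j := by
    funext i
    exact Dual.expand (⟨ht, hE⟩ : Dual t E) (D i)
  conv_lhs => rw [h1]
  rw [hω]
  rfl

end

section

variable {K : Type} [Field K] [Algebra ℂ K] {ι : Type} [Fintype ι]
  (F : ι → IntermediateField ℂ K) {d : ι → ℕ} (t : ∀ i, Fin (d i) → F i)
  (Y : ∀ i, Set (Place ℂ (F i))) (δ : ∀ i, Place ℂ (F i) → ℝ)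

/-- products of coordinates of sections -/
def Tot (w : ι → ℕ) (G : K) : Prop :=
  ∃ g : ∀ i, F i, (∀ i, Sec (t i) (Y i) (δ i) (w i) (g i)) ∧ G = ∏ i, (g i : K)

variable {F t Y δ}

theorem Tot.one : Tot F t Y δ 0 1 :=
  ⟨fun _ => 1, fun _ => Sec.one, by simp⟩

theorem Tot.mul {w w' : ι → ℕ} {G G' : K} (h : Tot F t Y δ w G) (h' : Tot F t Y δ w' G') :
    Tot F t Y δ (w + w') (G * G') := by
  obtain ⟨g, hg, rfl⟩ := h
  obtain ⟨g', hg', rfl⟩ := h'
  refine ⟨fun i => g i * g' i, fun i => (hg i).mul (hg' i), ?_⟩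
  rw [← Finset.prod_mul_distrib]
  rfl

theorem Tot.pow {w : ι → ℕ} {G : K} (h : Tot F t Y δ w G) (j : ℕ) :
    Tot F t Y δ (j • w) (G ^ j) := by
  induction j with
  | zero =>
    rw [zero_smul, pow_zero]
    exact Tot.one
  | succ j ih =>
    rw [pow_succ, succ_nsmul]
    exact ih.mul h

/-- sections coming from one of the subfields -/
theorem Tot.single [DecidableEq ι] (i0 : ι) {N : ℕ} {g : F i0}
    (h : Sec (t i0) (Y i0) (δ i0) N g) : Tot F t Y δ (Pi.single i0 N) (g : K) := by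
  refine ⟨Function.update (fun _ => 1) i0 g, fun i => ?_, ?_⟩
  · by_cases hi : i = i0
    · subst hi
      rw [Pi.single_eq_same, Function.update_self]
      exact h
    · rw [Pi.single_eq_of_ne hi, Function.update_of_ne hi]
      exact Sec.one
  · rw [Finset.prod_eq_single i0]
    · rw [Function.update_self]
    · intro i _ hi
      rw [Function.update_of_ne hi]
      rfl
    · intro h
      exact absurd (Finset.mem_univ _) h

/-- sections of arbitrary weight, if all subfields have sections -/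
theorem Tot.base (hb : ∀ i, ∃ M : ℕ, 0 < M ∧ ∃ g : F i, g ≠ 0 ∧
    Sec (t i) (Y i) (δ i) M g) : ∃ M : ℕ, 0 < M ∧ ∀ w : ι → ℕ, ∃ G : K, G ≠ 0 ∧
      Tot F t Y δ (M • w) G := by
  classical
  choose M hM g hg hs using hb
  refine ⟨∏ i, M i, Finset.prod_pos fun i _ => hM i, fun w => ?_⟩
  refine ⟨∏ i, ((g i ^ ((∏ j ∈ Finset.univ.erase i, M j) * w i) : F i) : K),
    Finset.prod_ne_zero_iff.2 fun i _ => ?_, fun i => g i ^ ((∏ j ∈ Finset.univ.erase i, M j) * w i),
    fun i => ?_, rfl⟩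
  · have h1 : g i ^ ((∏ j ∈ Finset.univ.erase i, M j) * w i) ≠ 0 := pow_ne_zero _ (hg i)
    intro h2
    exact h1 (Subtype.ext h2)
  · have h1 := (hs i).pow ((∏ j ∈ Finset.univ.erase i, M j) * w i)
    have h2 : ((∏ j, M j) • w) i = (∏ j ∈ Finset.univ.erase i, M j) * w i * M i := by
      rw [Pi.smul_apply, smul_eq_mul, ← Finset.mul_prod_erase Finset.univ M (Finset.mem_univ i)]
      ring
    rw [h2]
    exact h1

/-- `z` is a quotient of sections of the weight `ℓ a` -/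
def Quo (F : ι → IntermediateField ℂ K) (t : ∀ i, Fin (d i) → F i)
    (Y : ∀ i, Set (Place ℂ (F i))) (δ : ∀ i, Place ℂ (F i) → ℝ) (a : ι → ℕ) (z : K) : Prop :=
  ∃ l : ℕ, 0 < l ∧ ∃ G : K, G ≠ 0 ∧ Tot F t Y δ (l • a) G ∧ Tot F t Y δ (l • a) (z * G)

theorem quo_of_ratio (hb : ∀ i, ∃ M : ℕ, 0 < M ∧ ∃ g : F i, g ≠ 0 ∧
    Sec (t i) (Y i) (δ i) M g) {a : ι → ℕ} (ha : ∀ i, 0 < a i) (i0 : ι) {N : ℕ} (hN : 0 < N)
    {g g' : F i0} (hg : g ≠ 0) (h : Sec (t i0) (Y i0) (δ i0) N g)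
    (h' : Sec (t i0) (Y i0) (δ i0) N g') : Quo F t Y δ a ((g' : K) / g) := by
  classical
  obtain ⟨M, hM, hbase⟩ := Tot.base hb
  obtain ⟨B, hB0, hB⟩ := hbase (N • (Function.update a i0 0))
  have hgK : (g : K) ≠ 0 := fun h2 => hg (Subtype.ext h2)
  have ha0 := ha i0
  have e0 : (M * N) • a = M • (N • (Function.update a i0 0)) +
      (M * a i0) • (Pi.single i0 N : ι → ℕ) := by
    funext i
    simp only [Pi.smul_apply, Pi.add_apply, smul_eq_mul]
    by_cases hi : i = i0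
    · subst hi
      rw [Function.update_self, Pi.single_eq_same]
      ring
    · rw [Function.update_of_ne hi, Pi.single_eq_of_ne hi]
      ring
  obtain ⟨q, hq⟩ : ∃ q, M * a i0 = q + 1 := ⟨M * a i0 - 1, by
    have : 0 < M * a i0 := Nat.mul_pos hM ha0
    omega⟩
  refine ⟨M * N, Nat.mul_pos hM hN, B * (g : K) ^ (M * a i0),
    mul_ne_zero hB0 (pow_ne_zero _ hgK), ?_, ?_⟩
  · rw [e0]
    exact hB.mul ((Tot.single i0 h).pow _)
  · have e1 : (g' : K) / g * (B * (g : K) ^ (M * a i0)) = B * ((g : K) ^ q * g') := by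
      rw [hq, pow_succ]
      field_simp
    rw [e1, e0, hq, succ_nsmul]
    exact hB.mul (((Tot.single i0 h).pow q).mul (Tot.single i0 h'))

/-- a common denominator -/
theorem common (hb : ∀ i, ∃ M : ℕ, 0 < M ∧ ∃ g : F i, g ≠ 0 ∧
    Sec (t i) (Y i) (δ i) M g) {a : ι → ℕ} {κ : Type} [Fintype κ] (z : κ → K)
    (hz : ∀ j, Quo F t Y δ a (z j)) :
    ∃ l : ℕ, 0 < l ∧ ∃ G : K, G ≠ 0 ∧ Tot F t Y δ (l • a) G ∧
      ∀ j, Tot F t Y δ (l • a) (z j * G) := by
  classical
  have key : ∀ S : Finset κ, ∃ l : ℕ, 0 < l ∧ ∃ G : K, G ≠ 0 ∧ Tot F t Y δ (l • a) G ∧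
      ∀ j ∈ S, Tot F t Y δ (l • a) (z j * G) := by
    intro S
    induction S using Finset.induction_on with
    | empty =>
      obtain ⟨M, hM, hbase⟩ := Tot.base hb
      obtain ⟨B, hB0, hB⟩ := hbase a
      exact ⟨M, hM, B, hB0, hB, fun j hj => absurd hj (Finset.notMem_empty j)⟩
    | insert j S hj ih =>
      obtain ⟨l, hl, G, hG0, hG, hGz⟩ := ih
      obtain ⟨l', hl', G', hG0', hG', hGz'⟩ := hz j
      refine ⟨l + l', by omega, G * G', mul_ne_zero hG0 hG0', ?_, fun i hi => ?_⟩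
      · rw [add_smul]
        exact hG.mul hG'
      · rw [add_smul]
        rcases Finset.mem_insert.1 hi with rfl | hi
        · have e1 : z i * (G * G') = G * (z i * G') := by ring
          rw [e1]
          exact hG.mul hGz'
        · rw [← mul_assoc]
          exact (hGz i hi).mul hG'
  obtain ⟨l, hl, G, hG0, hG, hGz⟩ := key Finset.univ
  exact ⟨l, hl, G, hG0, hG, fun j => hGz j (Finset.mem_univ j)⟩

/-- a common denominator, with a multiple weight -/
theorem common_mul (hb : ∀ i, ∃ M : ℕ, 0 < M ∧ ∃ g : F i, g ≠ 0 ∧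
    Sec (t i) (Y i) (δ i) M g) {a : ι → ℕ} {κ : Type} [Fintype κ] (z : κ → K)
    (hz : ∀ j, Quo F t Y δ a (z j)) {N : ℕ} (hN : 0 < N) :
    ∃ l : ℕ, 0 < l ∧ ∃ G : K, G ≠ 0 ∧ Tot F t Y δ (fun i => a i * N * l) G ∧
      ∀ j, Tot F t Y δ (fun i => a i * N * l) (z j * G) := by
  obtain ⟨l, hl, G, hG0, hG, hGz⟩ := common hb z hz
  obtain ⟨q, rfl⟩ : ∃ q, N = q + 1 := ⟨N - 1, by omega⟩
  have e0 : (fun i => a i * (q + 1) * l) = (q + 1) • (l • a) := by
    funext i
    simp only [Pi.smul_apply, smul_eq_mul]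
    ring
  refine ⟨l, hl, G ^ (q + 1), pow_ne_zero _ hG0, ?_, fun j => ?_⟩
  · rw [e0]
    exact hG.pow _
  · have e1 : z j * G ^ (q + 1) = G ^ q * (z j * G) := by ring
    rw [e0, e1, succ_nsmul]
    exact (hG.pow q).mul (hGz j)

end

end Pool.Agent.Helper12.BL
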