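import Pool.Agent.Helper12.BL.Count

/-!
Specialisation of subspaces to an algebraically closed field.
-/

set_option autoImplicit false

open Module

namespace Pool.Agent.Helper12.BL

/-- Nullstellensatz: a finitely generated subalgebra has a point. -/
theorem exists_point {E Ω : Type} [Field E] [IsAlgClosed E] [Field Ω] [Algebra E Ω]
    (T : Finset Ω) : Nonempty (Algebra.adjoin E (T : Set Ω) →ₐ[E] E) := by
  obtain ⟨m, hm⟩ := Ideal.exists_maximal (Algebra.adjoin E (T : Set Ω))
  let _ : Field ((Algebra.adjoin E (T : Set Ω)) ⧸ m) := Ideal.Quotient.field m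
  have h1 : Algebra.FiniteType E (Algebra.adjoin E (T : Set Ω)) :=
    (Subalgebra.fg_iff_finiteType _).1 (Subalgebra.fg_adjoin_finset T)
  have h2 : Algebra.FiniteType E ((Algebra.adjoin E (T : Set Ω)) ⧸ m) :=
    Algebra.FiniteType.of_surjective (Ideal.Quotient.mkₐ E m) (Ideal.Quotient.mkₐ_surjective E m)
  have h3 : Module.Finite E ((Algebra.adjoin E (T : Set Ω)) ⧸ m) :=
    finite_of_finite_type_of_isJacobsonRing E _
  have hb := IsAlgClosed.algebraMap_bijective_of_isIntegral (k := E)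
    (K := (Algebra.adjoin E (T : Set Ω)) ⧸ m)
  exact ⟨((AlgEquiv.ofBijective (Algebra.ofId E _) hb).symm.toAlgHom).comp
    (Ideal.Quotient.mkₐ E m)⟩

section

variable {F : Type} [Field F] {p q n B : ℕ}

theorem inj_of_rank (A : Matrix (Fin p) (Fin q) F) (h : A.rank = q) :
    Function.Injective A.mulVecLin := by
  rw [← LinearMap.ker_eq_bot]
  have h1 := LinearMap.finrank_range_add_finrank_ker A.mulVecLin
  rw [Module.finrank_fintype_fun_eq_card, Fintype.card_fin] at h1
  have h2 : finrank F (LinearMap.range A.mulVecLin) = A.rank := rfl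
  rw [← Submodule.finrank_eq_zero (R := F)]
  omega

theorem left_inv (A : Matrix (Fin p) (Fin q) F) (h : A.rank = q) :
    ∃ D : Matrix (Fin q) (Fin p) F, D * A = 1 := by
  obtain ⟨g, hg⟩ := LinearMap.exists_leftInverse_of_injective A.mulVecLin
    (LinearMap.ker_eq_bot.2 (inj_of_rank A h))
  refine ⟨LinearMap.toMatrix' g, ?_⟩
  have h1 : LinearMap.toMatrix' (g ∘ₗ A.mulVecLin) = 1 := by
    rw [hg, LinearMap.toMatrix'_id]
  rw [LinearMap.toMatrix'_comp] at h1
  have h2 : LinearMap.toMatrix' A.mulVecLin = A := by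
    rw [← Matrix.toLin'_apply']
    exact LinearMap.toMatrix'_toLin' A
  rwa [h2] at h1

theorem rank_of_left_inv (A : Matrix (Fin p) (Fin q) F) (D : Matrix (Fin q) (Fin p) F)
    (h : D * A = 1) : A.rank = q := by
  apply le_antisymm
  · have := Matrix.rank_le_card_width A
    rwa [Fintype.card_fin] at this
  · have h1 := Matrix.rank_mul_le_right D A
    rw [h, Matrix.rank_one, Fintype.card_fin] at h1
    exact h1

/-- independent columns -/
theorem rank_of_cols {v : Fin q → Fin p → F} (hv : LinearIndependent F v) :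
    (Matrix.of fun r k => v k r : Matrix (Fin p) (Fin q) F).rank = q := by
  rw [Matrix.rank_eq_finrank_span_cols]
  have h1 : Set.range (Matrix.of fun r k => v k r : Matrix (Fin p) (Fin q) F).col =
      Set.range v := rfl
  rw [h1, finrank_span_eq_card hv, Fintype.card_fin]

theorem ker_matrix (A : Matrix (Fin p) (Fin q) F) :
    ∃ (C : Matrix (Fin q) (Fin (q - A.rank)) F) (D : Matrix (Fin (q - A.rank)) (Fin q) F),
      A * C = 0 ∧ D * C = 1 := by
  have h1 := LinearMap.finrank_range_add_finrank_ker A.mulVecLin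
  rw [Module.finrank_fintype_fun_eq_card, Fintype.card_fin] at h1
  have h2 : finrank F (LinearMap.range A.mulVecLin) = A.rank := rfl
  have h3 : finrank F (LinearMap.ker A.mulVecLin) = q - A.rank := by omega
  obtain ⟨b⟩ : Nonempty (Basis (Fin (q - A.rank)) F (LinearMap.ker A.mulVecLin)) :=
    ⟨finBasisOfFinrankEq F _ h3⟩
  have hli : LinearIndependent F (fun k => (b k : Fin q → F)) :=
    b.linearIndependent.map' (Submodule.subtype _) (Submodule.ker_subtype _)
  obtain ⟨D, hD⟩ := left_inv _ (rank_of_cols hli)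
  refine ⟨_, D, ?_, hD⟩
  ext r k
  have h4 : A.mulVecLin (b k : Fin q → F) = 0 := (b k).2
  exact congrFun h4 r

theorem col_matrix (z : Matrix (Fin n) (Fin B) F) :
    ∃ T : Matrix (Fin B) (Fin z.rank) F, (z * T).rank = z.rank := by
  obtain ⟨b⟩ : Nonempty (Basis (Fin z.rank) F (LinearMap.range z.mulVecLin)) :=
    ⟨finBasisOfFinrankEq F _ rfl⟩
  have hex : ∀ k, ∃ t, z.mulVecLin t = (b k : Fin n → F) := fun k => (b k).2
  choose t ht using hex
  have hli : LinearIndependent F (fun k => (b k : Fin n → F)) :=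
    b.linearIndependent.map' (Submodule.subtype _) (Submodule.ker_subtype _)
  refine ⟨Matrix.of fun r k => t k r, ?_⟩
  have h1 : z * (Matrix.of fun r k => t k r) =
      (Matrix.of fun r k => (b k : Fin n → F) r : Matrix (Fin n) (Fin z.rank) F) := by
    ext r k
    rw [Matrix.of_apply, ← ht k]
    rfl
  rw [h1]
  exact rank_of_cols hli

end

/-- Specialisation of the image of a matrix. -/
theorem specialize {E Ω ι : Type} [Field E] [IsAlgClosed E] [Field Ω] [Algebra E Ω] [Fintype ι]
    {n B : ℕ} {d : ι → ℕ} (Bm : ∀ i, Matrix (Fin (d i)) (Fin n) E)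
    (z : Matrix (Fin n) (Fin B) Ω) :
    ∃ U : Submodule E (Fin n → E), finrank E U = z.rank ∧
      ∀ i, finrank E (U.map (Bm i).mulVecLin) ≤ (((Bm i).map (algebraMap E Ω)) * z).rank := by
  classical
  obtain ⟨u, T, hu, hT⟩ : ∃ (u : ℕ) (T : Matrix (Fin B) (Fin u) Ω), u = z.rank ∧
      (z * T).rank = u := by
    obtain ⟨T, hT⟩ := col_matrix z
    exact ⟨_, T, rfl, hT⟩
  obtain ⟨A, hA⟩ : ∃ A, A = z * T := ⟨_, rfl⟩
  rw [← hA] at hT
  obtain ⟨Λ, hΛ⟩ := left_inv A hT
  have hCD := fun i => ker_matrix (((Bm i).map (algebraMap E Ω)) * A)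
  choose C D hC hD using hCD
  have hle : ∀ i, (((Bm i).map (algebraMap E Ω)) * A).rank ≤
      (((Bm i).map (algebraMap E Ω)) * z).rank := by
    intro i
    rw [hA, ← Matrix.mul_assoc]
    exact Matrix.rank_mul_le_left _ _
  obtain ⟨S, hS⟩ : ∃ S : Finset Ω, S =
    ((Finset.univ.image fun q : Fin n × Fin u => A q.1 q.2) ∪
      (Finset.univ.image fun q : Fin u × Fin n => Λ q.1 q.2)) ∪
      Finset.univ.biUnion (fun i =>
        (Finset.univ.image fun q : Fin u × Fin (u - (((Bm i).map (algebraMap E Ω)) * A).rank) =>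
          C i q.1 q.2) ∪
        (Finset.univ.image fun q : Fin (u - (((Bm i).map (algebraMap E Ω)) * A).rank) × Fin u =>
          D i q.1 q.2)) := ⟨_, rfl⟩
  obtain ⟨φ⟩ := exists_point (E := E) S
  have hin : ∀ y ∈ S, y ∈ Algebra.adjoin E (S : Set Ω) := fun y hy => Algebra.subset_adjoin hy
  have hAm : ∀ l k, A l k ∈ Algebra.adjoin E (S : Set Ω) := by
    intro l k
    apply hin
    rw [hS]
    refine Finset.mem_union_left _ (Finset.mem_union_left _ ?_)
    exact Finset.mem_image.2 ⟨(l, k), Finset.mem_univ _, rfl⟩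
  have hΛm : ∀ k l, Λ k l ∈ Algebra.adjoin E (S : Set Ω) := by
    intro k l
    apply hin
    rw [hS]
    refine Finset.mem_union_left _ (Finset.mem_union_right _ ?_)
    exact Finset.mem_image.2 ⟨(k, l), Finset.mem_univ _, rfl⟩
  have hCm : ∀ i k l, C i k l ∈ Algebra.adjoin E (S : Set Ω) := by
    intro i k l
    apply hin
    rw [hS]
    refine Finset.mem_union_right _ (Finset.mem_biUnion.2 ⟨i, Finset.mem_univ _, ?_⟩)
    exact Finset.mem_union_left _ (Finset.mem_image.2 ⟨(k, l), Finset.mem_univ _, rfl⟩)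
  have hDm : ∀ i k l, D i k l ∈ Algebra.adjoin E (S : Set Ω) := by
    intro i k l
    apply hin
    rw [hS]
    refine Finset.mem_union_right _ (Finset.mem_biUnion.2 ⟨i, Finset.mem_univ _, ?_⟩)
    exact Finset.mem_union_right _ (Finset.mem_image.2 ⟨(k, l), Finset.mem_univ _, rfl⟩)
  obtain ⟨R, hR⟩ : ∃ R, R = Algebra.adjoin E (S : Set Ω) := ⟨_, rfl⟩
  rw [← hR] at φ hAm hΛm hCm hDm
  have hmi : ∀ {a b : ℕ} (X Y : Matrix (Fin a) (Fin b) R),
      X.map R.val = Y.map R.val → X = Y := by
    intro a b X Y h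
    ext i j
    have := congrFun (congrFun h i) j
    exact this
  obtain ⟨A1, hA1⟩ : ∃ A1 : Matrix (Fin n) (Fin u) R, A1.map R.val = A :=
    ⟨Matrix.of fun l k => ⟨_, hAm l k⟩, by ext; rfl⟩
  obtain ⟨Λ1, hΛ1⟩ : ∃ Λ1 : Matrix (Fin u) (Fin n) R, Λ1.map R.val = Λ :=
    ⟨Matrix.of fun l k => ⟨_, hΛm l k⟩, by ext; rfl⟩
  have hC1 : ∀ i, ∃ C1 : Matrix (Fin u) (Fin (u - (((Bm i).map (algebraMap E Ω)) * A).rank)) R,
    C1.map R.val = C i := fun i => ⟨Matrix.of fun l k => ⟨_, hCm i l k⟩, by ext; rfl⟩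
  have hD1 : ∀ i, ∃ D1 : Matrix (Fin (u - (((Bm i).map (algebraMap E Ω)) * A).rank)) (Fin u) R,
    D1.map R.val = D i := fun i => ⟨Matrix.of fun l k => ⟨_, hDm i l k⟩, by ext; rfl⟩
  choose C1 hC1 using hC1
  choose D1 hD1 using hD1
  have hone : ∀ a : ℕ, (1 : Matrix (Fin a) (Fin a) R).map R.val = 1 := fun a =>
    Matrix.map_one _ (map_zero _) (map_one _)
  have hone' : ∀ a : ℕ, (1 : Matrix (Fin a) (Fin a) R).map φ = 1 := fun a =>
    Matrix.map_one _ (map_zero _) (map_one _)
  have e1 : Λ1 * A1 = 1 := by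
    apply hmi
    rw [Matrix.map_mul, hΛ1, hA1, hΛ, hone]
  have e2 : ∀ i, D1 i * C1 i = 1 := by
    intro i
    apply hmi
    rw [Matrix.map_mul, hD1, hC1, hD, hone]
  have e3 : ∀ i, ((Bm i).map (algebraMap E R) * A1) * C1 i = 0 := by
    intro i
    apply hmi
    rw [Matrix.map_mul, Matrix.map_mul, hC1, hA1]
    have h1 : ((Bm i).map (algebraMap E R)).map R.val = (Bm i).map (algebraMap E Ω) := by
      ext; rfl
    rw [h1, hC]
    ext; rfl
  have f1 : Λ1.map φ * A1.map φ = 1 := by
    rw [← Matrix.map_mul, e1, hone']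
  have f2 : ∀ i, (D1 i).map φ * (C1 i).map φ = 1 := by
    intro i
    rw [← Matrix.map_mul, e2, hone']
  have f3 : ∀ i, (Bm i * A1.map φ) * (C1 i).map φ = 0 := by
    intro i
    have h1 : ((Bm i).map (algebraMap E R)).map φ = Bm i := by
      ext r l
      rw [Matrix.map_apply, Matrix.map_apply]
      exact φ.commutes _
    have h2 := congrArg (fun X => Matrix.map X φ) (e3 i)
    simp only [Matrix.map_mul, h1] at h2
    rw [h2]
    ext
    rw [Matrix.map_apply, Matrix.zero_apply, Matrix.zero_apply, map_zero]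
  refine ⟨LinearMap.range (A1.map φ).mulVecLin, ?_, fun i => ?_⟩
  · rw [← hu]
    exact rank_of_left_inv _ _ f1
  · refine le_trans ?_ (hle i)
    have h1 : (LinearMap.range (A1.map φ).mulVecLin).map (Bm i).mulVecLin =
        LinearMap.range (Bm i * A1.map φ).mulVecLin := by
      rw [← LinearMap.range_comp, Matrix.mulVecLin_mul]
    rw [h1]
    have h2 := LinearMap.finrank_range_add_finrank_ker (Bm i * A1.map φ).mulVecLin
    rw [Module.finrank_fintype_fun_eq_card, Fintype.card_fin] at h2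
    have h3 : u - (((Bm i).map (algebraMap E Ω)) * A).rank ≤
        finrank E (LinearMap.ker (Bm i * A1.map φ).mulVecLin) := by
      have h4 : finrank E (LinearMap.range ((C1 i).map φ).mulVecLin) =
          u - (((Bm i).map (algebraMap E Ω)) * A).rank := rank_of_left_inv _ _ (f2 i)
      rw [← h4]
      apply Submodule.finrank_mono
      rw [LinearMap.range_le_ker_iff, ← Matrix.mulVecLin_mul, f3, Matrix.mulVecLin_zero]
    have h5 : (((Bm i).map (algebraMap E Ω)) * A).rank ≤ u := by
      have := Matrix.rank_le_card_width (((Bm i).map (algebraMap E Ω)) * A)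
      rwa [Fintype.card_fin] at this
    omega

end Pool.Agent.Helper12.BL
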