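import Pool.Agent.Helper12.BL.Spec

/-!
Generic vectors for stable data.
-/

set_option autoImplicit false

open Module

namespace Pool.Agent.Helper12.BL

theorem rank_pos {F : Type} [Field F] {n B : ℕ} (z : Matrix (Fin n) (Fin B) F) (hz : z ≠ 0) :
    1 ≤ z.rank := by
  by_contra h
  apply hz
  have h0 : finrank F (LinearMap.range z.mulVecLin) = 0 := by
    have : z.rank = 0 := by omega
    exact this
  rw [Submodule.finrank_eq_zero, LinearMap.range_eq_bot] at h0
  ext l m
  have h1 := LinearMap.congr_fun h0 (Pi.single m 1)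
  have h2 := congrFun h1 l
  rw [Matrix.mulVecLin_apply, Matrix.mulVec_single_one] at h2
  exact h2

theorem stable_zero {E Ω ι : Type} [Field E] [IsAlgClosed E] [Field Ω] [Algebra E Ω] [Fintype ι]
    {n : ℕ} {d : ι → ℕ} (Bm : ∀ i, Matrix (Fin (d i)) (Fin n) E) (a : ι → ℕ) (b N : ℕ)
    (hN : n * n ≤ N)
    (hst : ∀ U : Submodule E (Fin n → E), U ≠ ⊥ → U ≠ ⊤ →
      b * finrank E U < ∑ i, a i * finrank E (U.map (Bm i).mulVecLin))
    (htop : b * n ≤ ∑ i, a i * finrank E ((⊤ : Submodule E (Fin n → E)).map (Bm i).mulVecLin))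
    {x : (Σ i, Fin (a i * N)) × Fin (b * N) → Ω} (hx : AlgebraicIndependent E x)
    (z : Matrix (Fin n) (Fin (b * N)) Ω)
    (hz : ∀ i j, (((Bm i).map (algebraMap E Ω)) * z).mulVec (fun m => x (⟨i, j⟩, m)) = 0) :
    z = 0 := by
  by_contra hz0
  have h1 := count Bm hx z hz0 hz
  obtain ⟨U, hU1, hU2⟩ := specialize Bm z
  have hr := rank_pos z hz0
  have hrn : z.rank ≤ n := by
    have := Matrix.rank_le_card_height z
    rwa [Fintype.card_fin] at this
  rw [← hU1] at h1 hr hrn
  have h2 : N * ∑ i, a i * finrank E (U.map (Bm i).mulVecLin) ≤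
      ∑ i, a i * N * (((Bm i).map (algebraMap E Ω)) * z).rank := by
    rw [Finset.mul_sum]
    refine Finset.sum_le_sum fun i _ => ?_
    rw [← mul_assoc, mul_comm N (a i)]
    exact Nat.mul_le_mul_left _ (hU2 i)
  have hbot : U ≠ ⊥ := by
    rintro rfl
    rw [finrank_bot] at hr
    omega
  by_cases htp : U = ⊤
  · have h3 : finrank E U = n := by
      rw [htp, finrank_top, Module.finrank_fintype_fun_eq_card, Fintype.card_fin]
    rw [h3, Nat.sub_self, zero_mul, add_zero] at h1
    rw [htp] at h2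
    have h4 := Nat.mul_le_mul_left N htop
    have h5 : n * (b * N) = N * (b * n) := by ring
    omega
  · have h3 := hst U hbot htp
    have h4 : N * (b * finrank E U + 1) ≤ N * ∑ i, a i * finrank E (U.map (Bm i).mulVecLin) :=
      Nat.mul_le_mul_left N h3
    have h5 : (n - finrank E U) * finrank E U ≤ n * n :=
      Nat.mul_le_mul (Nat.sub_le _ _) hrn
    have h6 : N * (b * finrank E U + 1) = finrank E U * (b * N) + N := by ring
    omega

end Pool.Agent.Helper12.BL
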