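import Mathlib

/-!
Counting parameters with the transcendence degree.
-/

set_option autoImplicit false

open Module

namespace Pool.Agent.Helper12.BL

/-- independent elements of a field generated by `S` -/
theorem card_le {E Ω σ : Type} [Field E] [Field Ω] [Algebra E Ω] [Fintype σ] {x : σ → Ω}
    (hx : AlgebraicIndependent E x) (S : Finset Ω)
    (h : ∀ s, x s ∈ IntermediateField.adjoin E (S : Set Ω)) : Fintype.card σ ≤ S.card := by
  classical
  have h1 : (AlgebraicIndependent.matroid E Ω).Indep (Set.range x) := by
    rw [AlgebraicIndependent.matroid_indep_iff]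
    exact hx.coe_range
  have h2 : Set.range x ⊆ (AlgebraicIndependent.matroid E Ω).closure (S : Set Ω) := by
    rintro _ ⟨s, rfl⟩
    rw [AlgebraicIndependent.matroid_closure_eq]
    change IsAlgebraic (Algebra.adjoin E (S : Set Ω)) (x s)
    have h3 := h s
    rw [IntermediateField.mem_adjoin_iff_div] at h3
    obtain ⟨r, hr, t, ht, hrt⟩ := h3
    rw [hrt, div_eq_mul_inv]
    have hr' : IsAlgebraic (Algebra.adjoin E (S : Set Ω)) r :=
      isAlgebraic_algebraMap (⟨r, hr⟩ : Algebra.adjoin E (S : Set Ω))
    have ht' : IsAlgebraic (Algebra.adjoin E (S : Set Ω)) t :=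
      isAlgebraic_algebraMap (⟨t, ht⟩ : Algebra.adjoin E (S : Set Ω))
    exact hr'.mul ht'.inv
  have h4 : (Set.range x).encard ≤ (S : Set Ω).encard := by
    rw [← h1.eRk_eq_encard]
    refine ((AlgebraicIndependent.matroid E Ω).eRk_mono h2).trans ?_
    rw [Matroid.eRk_closure_eq]
    exact (AlgebraicIndependent.matroid E Ω).eRk_le_encard _
  have h5 : (Set.range x).encard = Fintype.card σ := by
    rw [← Set.image_univ, (hx.injective.injOn).encard_image, Set.encard_univ,
      ENat.card_eq_coe_fintype_card]
  rw [h5, Set.encard_coe_eq_coe_finsetCard] at h4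
  exact_mod_cast h4

end Pool.Agent.Helper12.BL
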