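import Pool.Agent.Helper12.BL.Rea

/-!
Multivalued decomposable forms.
-/

set_option autoImplicit false

open Module FF Pool.Agent.W602.GT Pool.Agent.W603.LV Pool.Agent.TH143.GT Pool.Agent.Y220.OG

namespace Pool.Agent.Helper12.BL

theorem indep_pow {K : Type} [Field K] [Algebra ℂ K] {h : ℕ} {z : Fin h → K}
    (hz : AlgebraicIndependent ℂ z) {m : ℕ} (hm : 0 < m) :
    AlgebraicIndependent ℂ fun j => z j ^ m := by
  rw [algebraicIndependent_iff]
  intro p hp
  have h1 : MvPolynomial.aeval z (MvPolynomial.expand m p) = 0 := by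
    rw [MvPolynomial.aeval_expand]
    exact hp
  exact (MvPolynomial.expand_eq_zero hm).1 ((algebraicIndependent_iff.1 hz) _ h1)

section

variable {K : Type} [Field K] [Algebra ℂ K] {L : Type} [Field L] [Algebra ℂ L] [Algebra K L]
  [IsScalarTower ℂ K L] {n d : ℕ}

/-- the value of the form -/
noncomputable def fval (θ : Derivation ℂ K K →ₗ[K] (Fin d → L))
    (D : Fin d → Derivation ℂ K K) : L :=
  (Matrix.of fun r j => θ (D j) r).det

/-- the matrix of a conjugate of the form -/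
def cmat (θ : Derivation ℂ K K →ₗ[K] (Fin d → L)) (D : Fin n → Derivation ℂ K K)
    (σ : L ≃ₐ[K] L) : Matrix (Fin d) (Fin n) L :=
  Matrix.of fun r l => σ (θ (D l) r)

omit [Algebra ℂ L] [IsScalarTower ℂ K L] in
theorem cmat_mul (θ : Derivation ℂ K K →ₗ[K] (Fin d → L)) (A : Matrix (Fin n) (Fin n) K)
    (D : Fin n → Derivation ℂ K K) (σ : L ≃ₐ[K] L) :
    cmat θ (fun l => ∑ j, A l j • D j) σ = cmat θ D σ * (A.transpose.map (algebraMap K L)) := by
  ext r l
  rw [Matrix.mul_apply]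
  change σ (θ (∑ j, A l j • D j) r) = ∑ j, σ (θ (D j) r) * algebraMap K L (A l j)
  rw [map_sum, Finset.sum_apply, map_sum]
  refine Finset.sum_congr rfl fun j _ => ?_
  rw [map_smul, Pi.smul_apply, Algebra.smul_def, map_mul, AlgEquiv.commutes, mul_comm]

omit [Algebra ℂ L] [IsScalarTower ℂ K L] in
theorem cmat_sub (θ : Derivation ℂ K K →ₗ[K] (Fin d → L)) (D : Fin n → Derivation ℂ K K)
    (σ : L ≃ₐ[K] L) (I : Fin d → Fin n) :
    ((cmat θ D σ).submatrix id I).det = σ (fval θ fun j => D (I j)) := by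
  unfold fval
  have h1 := (σ : L →+* L).map_det (Matrix.of fun r j => θ (D (I j)) r)
  exact h1.symm

/-- a nonzero minor -/
theorem exists_minor {L : Type} [Field L] {d n : ℕ} (J : Matrix (Fin d) (Fin n) L)
    (h : Submodule.span L (Set.range fun l => J.col l) = ⊤) :
    ∃ I : Fin d → Fin n, (J.submatrix id I).det ≠ 0 := by
  classical
  obtain ⟨κ, a, ha, hsp, hli⟩ := exists_linearIndependent' L (fun l => J.col l)
  rw [h] at hsp
  have hfin : Finite κ := Finite.of_injective a ha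
  obtain ⟨hft⟩ : Nonempty (Fintype κ) := ⟨Fintype.ofFinite κ⟩
  have hb := Basis.mk hli hsp.ge
  have hcard : Fintype.card κ = d := by
    have h1 := Module.finrank_eq_card_basis hb
    rw [Module.finrank_fin_fun] at h1
    exact h1.symm
  obtain ⟨e⟩ : Nonempty (Fin d ≃ κ) := ⟨(Fintype.equivFinOfCardEq hcard).symm⟩
  refine ⟨fun r => a (e r), ?_⟩
  have h2 : LinearIndependent L (fun r => (J.submatrix id (fun r => a (e r))).col r) := by
    exact hli.comp e e.injective
  exact ((Matrix.isUnit_iff_isUnit_det _).1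
    (Matrix.linearIndependent_cols_iff_isUnit.1 h2)).ne_zero

variable [Algebra.EssFiniteType ℂ K] [FiniteDimensional K L]

/-- **The estimate** at a place of the cover. -/
theorem web_est (hn : Algebra.trdeg ℂ K = n) (θ : Derivation ℂ K K →ₗ[K] (Fin d → L))
    (hθ : Submodule.span L (Set.range θ) = ⊤) {B s : ℕ}
    (e : Fin n × Fin B ≃ (Σ _q : (Σ _σ : L ≃ₐ[K] L, Fin s), Fin d))
    (x : (Σ _σ : L ≃ₐ[K] L, Fin s) × Fin B → ℂ)
    (P : Place ℂ K) (hP : Divisorial n P) (δ : ℝ) (hδ : 0 ≤ δ) (f : L)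
    (Q : Place ℂ L) (ε : ℕ) (hQ : Over Q P ε)
    (hreg : ∀ D : (L ≃ₐ[K] L) → Fin d → Derivation ℂ K K, (∀ σ j, DerReg P (D σ j)) →
      GeR Q (-(ε * δ * (Nat.card {σ : L ≃ₐ[K] L // ¬ ∀ j, DerLog P (D σ j)} : ℝ)))
        (f * ∏ σ : L ≃ₐ[K] L, σ (fval θ (D σ))))
    (D : Fin n → Derivation ℂ K K) (hD : ∀ l, DerReg P (D l)) :
    GeR Q (-(B * (ε * δ))) (f ^ s *
      bdet (d := fun _ : L ≃ₐ[K] L => d) (s := fun _ : L ≃ₐ[K] L => s) e
        (fun q => algebraMap ℂ L (x q)) (cmat θ D)) := by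
  classical
  obtain ⟨y', E', i0, hb', hE', hi0, hy'r, hpres⟩ := Pool.Agent.W240.PG.Frame.main
    Pool.Agent.W762.PG.main ℂ K n hn (fun y hy => fin_adjoin y hy) P hP
  have h' : Dual y' E' := ⟨hb', hE'⟩
  have hy0 : y' i0 ≠ 0 := by
    intro h0
    rw [h0, P.ord_zero] at hi0
    omega
  have hlog : ∀ l, l ≠ i0 → DerLog P (E' l) := by
    intro l hl
    refine log_of_reg (fun f hf => hpres l f hf) hy0 hi0 (Or.inl ?_)
    rw [hE', if_neg hl]
  -- reduction to the frame
  obtain ⟨A, hA⟩ : ∃ A : Matrix (Fin n) (Fin n) K, ∀ l j, A l j = D l (y' j) :=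
    ⟨Matrix.of fun l j => D l (y' j), fun _ _ => rfl⟩
  have hDA : D = fun l => ∑ j, A l j • E' j := by
    funext l
    simp only [hA]
    exact h'.expand (D l)
  have hAdet : Ge P 0 A.det := by
    have h1 := ge_det_rows P A (fun _ => 0) fun i j => by
      rw [hA]
      exact hD i _ (hy'r j)
    simpa using h1
  have hAL : GeR Q 0 (A.transpose.map (algebraMap K L)).det := by
    have h1 : (A.transpose.map (algebraMap K L)).det = algebraMap K L A.det := by
      rw [← Matrix.det_transpose A]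
      exact ((algebraMap K L).map_det _).symm
    rw [h1]
    have h2 : Q.Reg (algebraMap K L A.det) := hQ.reg.2 hAdet
    have h3 := GeR.of_ge (P := Q) (N := 0) (f := algebraMap K L A.det) h2
    simpa using h3
  have e1 : bdet (d := fun _ : L ≃ₐ[K] L => d) (s := fun _ : L ≃ₐ[K] L => s) e
      (fun q => algebraMap ℂ L (x q)) (cmat θ D) =
      bdet (d := fun _ : L ≃ₐ[K] L => d) (s := fun _ : L ≃ₐ[K] L => s) e
        (fun q => algebraMap ℂ L (x q)) (cmat θ E') *
        (A.transpose.map (algebraMap K L)).det ^ B := by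
    rw [← bdet_right]
    congr 1
    funext σ
    conv_lhs => rw [hDA]
    exact cmat_mul θ A E' σ
  -- contents
  have hminor : ∀ σ : L ≃ₐ[K] L, ∃ I : Fin d → Fin n,
      ((cmat θ E' σ).submatrix id I).det ≠ 0 := by
    intro σ
    obtain ⟨I, hI⟩ := exists_minor (Matrix.of fun r l => θ (E' l) r) (by
      rw [eq_top_iff, ← hθ, Submodule.span_le]
      rintro _ ⟨G, rfl⟩
      have h1 : θ G = ∑ j, algebraMap K L (G (y' j)) • θ (E' j) := by
        conv_lhs => rw [h'.expand G]
        rw [map_sum]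
        refine Finset.sum_congr rfl fun j _ => ?_
        rw [map_smul]
        funext r
        rw [Pi.smul_apply, Pi.smul_apply, Algebra.smul_def, smul_eq_mul]
      rw [h1]
      exact Submodule.sum_mem _ fun j _ => Submodule.smul_mem _ _
        (Submodule.subset_span ⟨j, rfl⟩))
    refine ⟨I, ?_⟩
    rw [cmat_sub]
    have h2 : fval θ (fun j => E' (I j)) ≠ 0 := hI
    exact (map_ne_zero_iff σ σ.injective).2 h2
  obtain ⟨lam, hlam⟩ : ∃ lam : ℝ, lam = ε * δ := ⟨_, rfl⟩
  have hlam0 : 0 ≤ lam := by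
    rw [hlam]
    positivity
  have hcont := fun σ => content Q (cmat θ E' σ) (hminor σ) i0 lam
  choose I W hI hW hWge using hcont
  obtain ⟨S, hS⟩ : ∃ S : ℝ, S = ∑ σ, ∑ r, (if I σ r = i0 then lam else 0) := ⟨_, rfl⟩
  have h1 := hreg (fun σ j => E' (I σ j)) fun σ j f hf => hpres _ f hf
  have h2 : GeR Q (-S) (f * ∏ σ : L ≃ₐ[K] L, ((cmat θ E' σ).submatrix id (I σ)).det) := by
    have h3 : ∏ σ : L ≃ₐ[K] L, ((cmat θ E' σ).submatrix id (I σ)).det =
        ∏ σ : L ≃ₐ[K] L, σ (fval θ fun j => E' (I σ j)) :=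
      Finset.prod_congr rfl fun σ _ => cmat_sub θ E' σ (I σ)
    rw [h3]
    refine h1.mono ?_
    rw [neg_le_neg_iff, hS, ← hlam]
    have h4 : (Nat.card {σ : L ≃ₐ[K] L // ¬ ∀ j, DerLog P (E' (I σ j))} : ℝ) =
        ∑ σ : L ≃ₐ[K] L, if ¬ ∀ j, DerLog P (E' (I σ j)) then 1 else 0 := by
      rw [Nat.card_eq_fintype_card, Fintype.card_subtype, Finset.card_filter]
      push_cast
      rfl
    rw [h4, Finset.mul_sum]
    refine Finset.sum_le_sum fun σ _ => ?_
    by_cases h5 : ∀ j, DerLog P (E' (I σ j))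
    · rw [if_neg (not_not.2 h5), mul_zero]
      refine Finset.sum_nonneg fun r _ => ?_
      split_ifs
      · exact hlam0
      · exact le_rfl
    · rw [if_pos h5, mul_one]
      have h6 : ∃ r, I σ r = i0 := by
        by_contra h7
        push Not at h7
        exact h5 fun j => hlog _ (h7 j)
      obtain ⟨r, hr⟩ := h6
      have h7 : (if I σ r = i0 then lam else 0) ≤ ∑ r, (if I σ r = i0 then lam else 0) := by
        refine Finset.single_le_sum (f := fun r => if I σ r = i0 then lam else 0)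
          (fun r _ => ?_) (Finset.mem_univ r)
        split_ifs
        · exact hlam0
        · exact le_rfl
      rwa [if_pos hr] at h7
  have h3 := ger_bdet (d := fun _ : L ≃ₐ[K] L => d) (s := fun _ : L ≃ₐ[K] L => s) Q e x W
    (fun σ r => if I σ r = i0 then lam else 0) (fun l => -(if l = i0 then lam else 0)) hWge
  have h4 : ∑ l : Fin n, -(if l = i0 then lam else 0) = -lam := by
    rw [Finset.sum_neg_distrib, Finset.sum_ite_eq' Finset.univ i0, if_pos (Finset.mem_univ _)]
  rw [h4, ← Finset.mul_sum, ← hS] at h3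
  have e2 : bdet (d := fun _ : L ≃ₐ[K] L => d) (s := fun _ : L ≃ₐ[K] L => s) e
      (fun q => algebraMap ℂ L (x q)) (cmat θ E') =
      (∏ σ : L ≃ₐ[K] L, ((cmat θ E' σ).submatrix id (I σ)).det ^ s) *
        bdet (d := fun _ : L ≃ₐ[K] L => d) (s := fun _ : L ≃ₐ[K] L => s) e
          (fun q => algebraMap ℂ L (x q)) W := by
    rw [← bdet_left]
    congr 1
    funext σ
    exact hW σ
  have h5 := ((h2.pow s).mul h3).mul (hAL.pow B)
  have e3 : (f * ∏ σ : L ≃ₐ[K] L, ((cmat θ E' σ).submatrix id (I σ)).det) ^ s *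
      bdet (d := fun _ : L ≃ₐ[K] L => d) (s := fun _ : L ≃ₐ[K] L => s) e
        (fun q => algebraMap ℂ L (x q)) W * (A.transpose.map (algebraMap K L)).det ^ B =
      f ^ s * bdet (d := fun _ : L ≃ₐ[K] L => d) (s := fun _ : L ≃ₐ[K] L => s) e
        (fun q => algebraMap ℂ L (x q)) (cmat θ D) := by
    rw [e1, e2, mul_pow, Finset.prod_pow]
    ring
  rw [e3] at h5
  refine h5.mono (le_of_eq ?_)
  rw [hlam]
  ring

omit [Algebra.EssFiniteType ℂ K] in
/-- the estimate for the norm -/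
theorem web_norm [IsGalois K L] (P : Place ℂ K) (δ : ℝ) (z : L) {B : ℕ}
    (h : ∀ (Q : Place ℂ L) (ε : ℕ), Over Q P ε → GeR Q (-(B * (ε * δ))) z) :
    GeR P (-(((B * finrank K L : ℕ) : ℝ) * δ)) (Algebra.norm K z) := by
  classical
  obtain ⟨Q, ε, hQ⟩ := exists_above (L := L) P
  have h1 : ∀ σ : L ≃ₐ[K] L, GeR Q (-(B * (ε * δ))) (σ z) := by
    intro σ
    have h2 := h (Q.comp (AlgEquiv.restrictScalars ℂ σ)) ε ⟨hQ.1, fun f => by
      rw [Place.comp_ord]
      change Q.ord (σ (algebraMap K L f)) = _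
      rw [AlgEquiv.commutes, hQ.2]⟩
    rcases h2 with h2 | h2
    · left
      rw [h2, map_zero]
    · right
      exact h2
  have h2 := GeR.prod (P := Q) Finset.univ (fun σ : L ≃ₐ[K] L => σ z)
    (fun _ => -(B * (ε * δ))) fun σ _ => h1 σ
  rw [← Algebra.norm_eq_prod_automorphisms K z, Finset.sum_const, Finset.card_univ,
    nsmul_eq_mul] at h2
  have h3 : Fintype.card (L ≃ₐ[K] L) = finrank K L := by
    rw [← Nat.card_eq_fintype_card]
    exact IsGalois.card_aut_eq_finrank K L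
  rcases h2 with h2 | h2
  · left
    exact (map_eq_zero_iff _ (algebraMap K L).injective).1 h2
  · right
    rw [hQ.2, h3] at h2
    have h4 : (0 : ℝ) < ε := by exact_mod_cast hQ.1
    push_cast at h2 ⊢
    have h5 : (ε : ℝ) * (-(B * finrank K L * δ)) ≤ ε * P.ord (Algebra.norm K z) := by
      linarith
    exact le_of_mul_le_mul_left h5 h4

end

end Pool.Agent.Helper12.BL
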