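import Pool.Agent.Helper12.BL.Web

/-!
Multivalued decomposable forms: final assembly.
-/

set_option autoImplicit false

open Module FF Pool.Agent.W602.GT Pool.Agent.W603.LV Pool.Agent.TH143.GT Pool.Agent.Y220.OG

namespace Pool.Agent.Helper12.BL

section

variable {K : Type} [Field K] [Algebra ℂ K] {L : Type} [Field L] [Algebra ℂ L] [Algebra K L]
  [IsScalarTower ℂ K L] {n d : ℕ} [Algebra.EssFiniteType ℂ K] [FiniteDimensional K L]
  [IsGalois K L]

omit [Algebra.EssFiniteType ℂ K] [FiniteDimensional K L] [IsGalois K L] [IsScalarTower ℂ K L]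
  [Algebra ℂ L] in
theorem web_map {E : Fin n → Derivation ℂ K K} (θ : Derivation ℂ K K →ₗ[K] (Fin d → L))
    (V : Submodule K (Fin n → K)) :
    (ext L V).map (Matrix.of fun r l => θ (E l) r).mulVecLin =
      Submodule.span L (θ '' (V.map (Fintype.linearCombination K E))) := by
  unfold ext
  rw [Submodule.map_span]
  congr 1
  ext w
  constructor
  · rintro ⟨_, ⟨v, hv, rfl⟩, rfl⟩
    refine ⟨Fintype.linearCombination K E v, ⟨v, hv, rfl⟩, ?_⟩
    rw [Fintype.linearCombination_apply, map_sum]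
    funext r
    rw [Finset.sum_apply]
    change _ = ∑ l, θ (E l) r * algebraMap K L (v l)
    refine Finset.sum_congr rfl fun l _ => ?_
    rw [map_smul, Pi.smul_apply, Algebra.smul_def, mul_comm]
  · rintro ⟨_, ⟨v, hv, rfl⟩, rfl⟩
    refine ⟨_, ⟨v, hv, rfl⟩, ?_⟩
    rw [Fintype.linearCombination_apply, map_sum]
    funext r
    rw [Finset.sum_apply]
    change ∑ l, θ (E l) r * algebraMap K L (v l) = _
    refine Finset.sum_congr rfl fun l _ => ?_
    rw [map_smul, Pi.smul_apply, Algebra.smul_def, mul_comm]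

/-- **Multivalued decomposable forms.** -/
theorem web_main (hn : Algebra.trdeg ℂ K = n) (hn0 : 0 < n) (hd0 : 0 < d)
    (θ : Derivation ℂ K K →ₗ[K] (Fin d → L))
    (hBL : ∀ V : Submodule K (Derivation ℂ K K),
      d * finrank K V ≤ n * finrank L (Submodule.span L (θ '' V)))
    (X : Set (Place ℂ K)) (δ : Place ℂ K → ℝ) (hδ : ∀ P ∈ X, 0 ≤ δ P)
    {h : ℕ} (f : Fin (h + 1) → K) (hf0 : f 0 ≠ 0)
    (hf : AlgebraicIndependent ℂ fun j : Fin h => f j.succ / f 0)
    (hreg : ∀ i, ∀ P ∈ X, Divisorial n P → ∀ (Q : Place ℂ L) (ε : ℕ), Over Q P ε →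
      ∀ D : (L ≃ₐ[K] L) → Fin d → Derivation ℂ K K, (∀ σ j, DerReg P (D σ j)) →
        GeR Q (-(ε * δ P * (Nat.card {σ : L ≃ₐ[K] L // ¬ ∀ j, DerLog P (D σ j)} : ℝ)))
          (algebraMap K L (f i) * ∏ σ : L ≃ₐ[K] L, σ (fval θ (D σ)))) :
    ∃ N : ℕ, 0 < N ∧ ∃ ω : Fin (h + 1) → (Fin n → Derivation ℂ K K) → K,
      (∀ j, IsPluri N (ω j) ∧ ∀ P ∈ X, Divisorial n P → ∀ D, (∀ l, DerReg P (D l)) →
        ω j D = 0 ∨ -((N : ℝ) * δ P) ≤ (P.ord (ω j D) : ℝ)) ∧
      ∃ D, ω 0 D ≠ 0 ∧ AlgebraicIndependent ℂ (fun j : Fin h => ω j.succ D / ω 0 D) := by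
  classical
  obtain ⟨y, hy⟩ := basis_of_trdeg hn
  have hex : ∀ l : Fin n, ∃ D : Derivation ℂ K K, ∀ j, D (y j) = if l = j then 1 else 0 :=
    fun l => exists_der y hy _
  choose E hE using hex
  have hφi : Function.Injective (Fintype.linearCombination K E) := by
    rw [← LinearMap.ker_eq_bot, LinearMap.ker_eq_bot']
    intro v hv
    funext j
    have h1 : (∑ l, v l • E l) (y j) = 0 := by
      rw [Fintype.linearCombination_apply] at hv
      rw [hv]
      rfl
    rw [der_sum] at h1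
    simp only [hE, smul_eq_mul, mul_ite, mul_one, mul_zero] at h1
    rw [Finset.sum_ite_eq' Finset.univ j, if_pos (Finset.mem_univ j)] at h1
    exact h1
  have hJ : ∀ V : Submodule K (Fin n → K), d * finrank K V ≤
      n * finrank L ((ext L V).map (Matrix.of fun r l => θ (E l) r).mulVecLin) := by
    intro V
    have h1 := hBL (V.map (Fintype.linearCombination K E))
    rw [finrank_map_inj hφi] at h1
    rw [web_map]
    exact h1
  have hθ : Submodule.span L (Set.range θ) = ⊤ := by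
    have h1 := hJ ⊤
    rw [finrank_top, Module.finrank_fin_fun, web_map, mul_comm] at h1
    have h2 := Nat.le_of_mul_le_mul_left h1 hn0
    have h3 : Submodule.span L (θ '' ((⊤ : Submodule K (Fin n → K)).map
        (Fintype.linearCombination K E))) = ⊤ := by
      apply Submodule.eq_top_of_finrank_eq
      refine le_antisymm (Submodule.finrank_le _) ?_
      rw [Module.finrank_fin_fun]
      exact h2
    rw [eq_top_iff, ← h3]
    exact Submodule.span_mono (Set.image_subset_range _ _)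
  have hchar : CharZero L := charZero_of_injective_algebraMap (algebraMap ℂ L).injective
  have hsemi := semi_orbit (Matrix.of fun r l => θ (E l) r) hJ
  obtain ⟨N', hN'⟩ : ∃ N', N' = n * n + 1 := ⟨_, rfl⟩
  have hG : 0 < Fintype.card (L ≃ₐ[K] L) := Fintype.card_pos
  obtain ⟨e⟩ : Nonempty (Fin n × Fin (d * Fintype.card (L ≃ₐ[K] L) * N') ≃
      (Σ _q : (Σ _σ : L ≃ₐ[K] L, Fin (n * N')), Fin d)) := by
    refine ⟨Fintype.equivOfCardEq ?_⟩
    rw [Fintype.card_prod, Fintype.card_fin, Fintype.card_fin, Fintype.card_sigma,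
      Fintype.sum_sigma]
    simp only [Fintype.card_fin, Finset.sum_const, Finset.card_univ, smul_eq_mul]
    ring
  obtain ⟨x, hx⟩ := certificate (k := ℂ) (K := L) (ι := L ≃ₐ[K] L) (d := fun _ => d)
    (fun σ => (Matrix.of fun r l => θ (E l) r).map σ) hsemi (show n * n ≤ N' by omega) e
  have hB0 : 0 < d * Fintype.card (L ≃ₐ[K] L) * N' := by
    have : 0 < N' := by omega
    positivity
  have hfr : 0 < finrank K L := Module.finrank_pos
  have hs0 : 0 < n * N' := Nat.mul_pos hn0 (by omega)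
  have hne : bdet (d := fun _ : L ≃ₐ[K] L => d) (s := fun _ : L ≃ₐ[K] L => n * N') e
      (fun q => algebraMap ℂ L (x q)) (cmat θ E) ≠ 0 := hx
  -- the sections
  obtain ⟨Φ, hΦ⟩ : ∃ Φ : K → (Fin n → Derivation ℂ K K) → K, ∀ g D, Φ g D =
      Algebra.norm K (algebraMap K L g ^ (n * N') *
        bdet (d := fun _ : L ≃ₐ[K] L => d) (s := fun _ : L ≃ₐ[K] L => n * N') e
          (fun q => algebraMap ℂ L (x q)) (cmat θ D)) := ⟨_, fun _ _ => rfl⟩
  have hpl : ∀ g, IsPluri (d * Fintype.card (L ≃ₐ[K] L) * N' * finrank K L) (Φ g) := by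
    intro g A D
    rw [hΦ, hΦ]
    have h1 : cmat θ (fun l => ∑ j, A l j • D j) =
        fun σ : L ≃ₐ[K] L => cmat θ D σ * (A.transpose.map (algebraMap K L)) := by
      funext σ
      exact cmat_mul θ A D σ
    have h2 : (A.transpose.map (algebraMap K L)).det = algebraMap K L A.det := by
      rw [← Matrix.det_transpose A]
      exact ((algebraMap K L).map_det _).symm
    rw [h1, bdet_right, h2, ← mul_assoc, map_mul (Algebra.norm K),
      ← map_pow (algebraMap K L) A.det, Algebra.norm_algebraMap, ← pow_mul, mul_comm]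
  have hbound : ∀ i, ∀ P ∈ X, Divisorial n P →
      ∀ D : Fin n → Derivation ℂ K K, (∀ l, DerReg P (D l)) →
        Φ (f i) D = 0 ∨ -(((d * Fintype.card (L ≃ₐ[K] L) * N' * finrank K L : ℕ) : ℝ) * δ P) ≤
          (P.ord (Φ (f i) D) : ℝ) := by
    intro i P hPX hP D hD
    rw [hΦ]
    exact web_norm P (δ P) _ fun Q ε hQ =>
      web_est hn θ hθ e x P hP (δ P) (hδ P hPX) _ Q ε hQ (hreg i P hPX hP Q ε hQ) D hD
  have hval : ∀ g D, Φ g D = (g ^ (n * N')) ^ finrank K L *
      Algebra.norm K (bdet (d := fun _ : L ≃ₐ[K] L => d) (s := fun _ : L ≃ₐ[K] L => n * N') e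
        (fun q => algebraMap ℂ L (x q)) (cmat θ D)) := by
    intro g D
    rw [hΦ, map_mul (Algebra.norm K), ← map_pow, Algebra.norm_algebraMap]
  have hne' := (Algebra.norm_ne_zero_iff (R := K)).2 hne
  refine ⟨d * Fintype.card (L ≃ₐ[K] L) * N' * finrank K L, Nat.mul_pos hB0 hfr,
    fun i => Φ (f i), fun i => ⟨hpl _, hbound i⟩, E, ?_, ?_⟩
  · dsimp only
    rw [hval]
    exact mul_ne_zero (pow_ne_zero _ (pow_ne_zero _ hf0)) hne'
  · have h1 : (fun j : Fin h => Φ (f j.succ) E / Φ (f 0) E) =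
        fun j => (f j.succ / f 0) ^ (n * N' * finrank K L) := by
      funext j
      rw [hval, hval, mul_div_mul_right _ _ hne', ← pow_mul, ← pow_mul, div_pow]
    dsimp only
    rw [h1]
    exact indep_pow hf (Nat.mul_pos hs0 hfr)

end

end Pool.Agent.Helper12.BL
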