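import Pool.Agent.Helper12.BL.Est

/-!
The exponents, the linear algebra of the differentials, and the coordinates of sections.
-/

set_option autoImplicit false

open Module FF Pool.Agent.W602.GT Pool.Agent.W603.LV Pool.Agent.TH143.GT Pool.Agent.Y220.OG

namespace Pool.Agent.Helper12.BL

theorem exists_weights {ι : Type} [Fintype ι] (c : ι → ℚ) (hc : ∀ i, 0 < c i) :
    ∃ (b : ℕ) (a : ι → ℕ), 0 < b ∧ (∀ i, 0 < a i) ∧ ∀ i, (a i : ℚ) = b * c i := by
  classical
  refine ⟨∏ i, (c i).den, fun i => (∏ j ∈ Finset.univ.erase i, (c j).den) * (c i).num.toNat,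
    Finset.prod_pos fun i _ => (c i).den_pos, fun i => ?_, fun i => ?_⟩
  · refine Nat.mul_pos (Finset.prod_pos fun j _ => (c j).den_pos) ?_
    have := Rat.num_pos.2 (hc i)
    omega
  · have h1 : (c i : ℚ) * (c i).den = (c i).num := Rat.mul_den_eq_num _
    have h2 : (((c i).num.toNat : ℤ)) = (c i).num :=
      Int.toNat_of_nonneg (Rat.num_pos.2 (hc i)).le
    rw [← Finset.mul_prod_erase Finset.univ _ (Finset.mem_univ i)]
    push_cast
    have h3 : (((c i).num.toNat : ℕ) : ℚ) = (c i).num := by exact_mod_cast h2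
    rw [h3, ← h1]
    ring

section

variable {K : Type} [Field K] [Algebra ℂ K]

/-- the restriction of vector fields to the functions of a subfield -/
noncomputable def restr (F : IntermediateField ℂ K) : Derivation ℂ K K →ₗ[K] Derivation ℂ F K where
  toFun D := D.compAlgebraMap F
  map_add' _ _ := rfl
  map_smul' _ _ := rfl

theorem restr_apply (F : IntermediateField ℂ K) (D : Derivation ℂ K K) (f : F) :
    restr F D f = D (f : K) := rfl

/-- evaluation at elements -/
noncomputable def evl (F : IntermediateField ℂ K) {d : ℕ} (t : Fin d → F) :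
    Derivation ℂ F K →ₗ[K] (Fin d → K) where
  toFun D := fun r => D (t r)
  map_add' _ _ := rfl
  map_smul' _ _ := rfl

theorem evl_inj (F : IntermediateField ℂ K) {d : ℕ} (t : Fin d → F)
    (ht : IsTranscendenceBasis ℂ t) : Function.Injective (evl F t) := by
  rw [← LinearMap.ker_eq_bot, LinearMap.ker_eq_bot']
  intro D hD
  ext f
  exact Pool.Agent.W619.TW.der_zero D t ht (fun i => congrFun hD i) f

/-- the semistability of the Jacobian matrices -/
theorem semi_jac {n : ℕ} {y : Fin n → K} {E : Fin n → Derivation ℂ K K} (hE : Dual y E)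
    {ι : Type} [Fintype ι] (F : ι → IntermediateField ℂ K) {d : ι → ℕ}
    (t : ∀ i, Fin (d i) → F i) (ht : ∀ i, IsTranscendenceBasis ℂ (t i))
    (c : ι → ℚ) (hsum : ∑ i, c i * d i = n)
    (hBL : ∀ V : Submodule K (Derivation ℂ K K),
      (finrank K V : ℚ) ≤ ∑ i, c i * finrank K (V.map (restr (F i))))
    {b : ℕ} {a : ι → ℕ} (ha : ∀ i, (a i : ℚ) = b * c i) :
    Semi a b (fun i => (Matrix.of fun (r : Fin (d i)) (l : Fin n) =>
      E l (t i r : K)).mulVecLin) := by
  classical
  obtain ⟨φ, hφ⟩ : ∃ φ : (Fin n → K) →ₗ[K] Derivation ℂ K K,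
      φ = Fintype.linearCombination K E := ⟨_, rfl⟩
  have hφa : ∀ (v : Fin n → K) (f : K), φ v f = ∑ l, v l * E l f := by
    intro v f
    rw [hφ, Fintype.linearCombination_apply, der_sum]
    rfl
  have hφi : Function.Injective φ := by
    rw [← LinearMap.ker_eq_bot, LinearMap.ker_eq_bot']
    intro v hv
    funext j
    have h1 := hφa v (y j)
    rw [hv] at h1
    simp only [hE.2, mul_ite, mul_one, mul_zero] at h1
    rw [Finset.sum_ite_eq' Finset.univ j, if_pos (Finset.mem_univ j)] at h1
    exact h1.symm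
  have hfac : ∀ i, (Matrix.of fun (r : Fin (d i)) (l : Fin n) => E l (t i r : K)).mulVecLin =
      (evl (F i) (t i)) ∘ₗ (restr (F i)) ∘ₗ φ := by
    intro i
    ext1 l
    refine LinearMap.ext_ring ?_
    funext r
    change _ = φ (Pi.single l 1) (t i r : K)
    rw [hφa]
    simp [Matrix.mulVec, dotProduct, Pi.single_apply]
  have hrank : ∀ i (U : Submodule K (Fin n → K)), finrank K (U.map
      (Matrix.of fun (r : Fin (d i)) (l : Fin n) => E l (t i r : K)).mulVecLin) =
        finrank K ((U.map φ).map (restr (F i))) := by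
    intro i U
    rw [hfac, Submodule.map_comp, Submodule.map_comp,
      finrank_map_inj (evl_inj (F i) (t i) (ht i))]
  have hle : ∀ U : Submodule K (Fin n → K), b * finrank K U ≤ ∑ i, a i * finrank K (U.map
      (Matrix.of fun (r : Fin (d i)) (l : Fin n) => E l (t i r : K)).mulVecLin) := by
    intro U
    have h1 := hBL (U.map φ)
    rw [finrank_map_inj hφi] at h1
    have h2 : (b : ℚ) * finrank K U ≤
        ∑ i, (a i : ℚ) * finrank K ((U.map φ).map (restr (F i))) := by
      refine (mul_le_mul_of_nonneg_left h1 (Nat.cast_nonneg b)).trans_eq ?_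
      rw [Finset.mul_sum]
      refine Finset.sum_congr rfl fun i _ => ?_
      rw [ha i, mul_assoc]
    simp only [hrank]
    exact_mod_cast h2
  refine ⟨hle, le_antisymm ?_ ?_⟩
  · have h1 := hle ⊤
    rwa [finrank_top] at h1
  · have h1 : ∀ i, finrank K ((⊤ : Submodule K (Fin n → K)).map
        (Matrix.of fun (r : Fin (d i)) (l : Fin n) => E l (t i r : K)).mulVecLin) ≤ d i := by
      intro i
      refine (Submodule.finrank_le _).trans ?_
      rw [Module.finrank_fin_fun]
    refine (Finset.sum_le_sum fun i _ => Nat.mul_le_mul_left (a i) (h1 i)).trans ?_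
    rw [Module.finrank_fin_fun]
    have h2 : (∑ i, (a i : ℚ) * d i) = b * n := by
      rw [← hsum, Finset.mul_sum]
      refine Finset.sum_congr rfl fun i _ => ?_
      rw [ha i, mul_assoc]
    have h3 : ∑ i, a i * d i = b * n := by exact_mod_cast h2
    exact h3.le

/-- the bijection between rows and columns -/
theorem exists_equiv {n : ℕ} {ι : Type} [Fintype ι] {d : ι → ℕ} (c : ι → ℚ)
    (hsum : ∑ i, c i * d i = n) {b : ℕ} {a : ι → ℕ} (ha : ∀ i, (a i : ℚ) = b * c i) (N : ℕ) :
    Nonempty (Fin n × Fin (b * N) ≃ (Σ q : (Σ i, Fin (a i * N)), Fin (d q.1))) := by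
  classical
  refine ⟨Fintype.equivOfCardEq ?_⟩
  rw [Fintype.card_prod, Fintype.card_fin, Fintype.card_fin, Fintype.card_sigma,
    Fintype.sum_sigma]
  simp only [Fintype.card_fin]
  have h2 : (∑ i, (a i : ℚ) * d i) = b * n := by
    rw [← hsum, Finset.mul_sum]
    refine Finset.sum_congr rfl fun i _ => ?_
    rw [ha i, mul_assoc]
  have h3 : ∑ i, a i * d i = b * n := by exact_mod_cast h2
  have h4 : ∑ i, ∑ _j : Fin (a i * N), d i = N * ∑ i, a i * d i := by
    rw [Finset.mul_sum]
    refine Finset.sum_congr rfl fun i _ => ?_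
    rw [Finset.sum_const, Finset.card_univ, Fintype.card_fin, smul_eq_mul]
    ring
  rw [h4, h3]
  ring

end

end Pool.Agent.Helper12.BL
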